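import Pool.Agent.H37.CC.Ta

/-!
# THEOREM CCC, G6: the windows at `g` and at `g * s`

`win_win0`: finite (`Rel` is finite, P4); closed upwards: `dep`, `smt` are smaller above, `ψ k = 1` (if `h < k` then `ψ h > 0`); no
disjoint pairs: `h ≤ st k` gives `h < st k` (if `h = st k`: `ψ h + ψ k = 1`, both `> 1 / 2`), so `ψ h = 0` or `ψ (st k) = 1`.
`cmp`: `agr`: `|dep - dep| ≤ R`, `|smt S g h - smt S (g * s) h| ≤ dep (g • bs) h + 2 R ≤ D + 2 R` (P4), `hi` at `g`: for `h ∈ Win0 .. g`: `smt S g h`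
`< tt i`, so `smt S g h + E < tt i`, so `smt S (g * s) h < tt i`; for `h ∈ Win0 .. (g * s)`: `smt S g h < tt i + E`. `btw`: `h` between:
`dep (g • bs) h ≤ R`, `smt S g h ≤ R < tt i` (all `k ≥ h` contain `(g * s) • bs`, `tau = 1`), the same for `st h` seen from `g * s`; by `hr` and
`hF` (`(2 κ + 1) R ≥ R`) `h` is in or out. `frc_step`: the fractional walls are the same.
-/

set_option autoImplicit false

namespace Pool.Agent.H37.CC

open scoped Pointwise

variable {G H : Type} [Group G] [PartialOrder H] [Bas H] [MulAction G H] [BAct G H]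

private theorem al_pos (n j : ℕ) : 0 < al n j := by
  unfold al
  positivity

private theorem be_pos (n j : ℕ) : 0 < be n j := by
  unfold be
  positivity

private theorem al_lt {n j : ℕ} (hj : j ≤ n) : al n j < 1 / 2 := by
  unfold al
  have h1 : (j : ℝ) ≤ n := by exact_mod_cast hj
  rw [div_lt_div_iff₀ (by positivity) (by norm_num)]
  linarith

private theorem inn_pos {n j : ℕ} (hj : j ≤ n) {ψ : H → ℝ} {h : H} (hh : inn n j ψ h) : 0 < ψ h := by
  have h1 := al_lt hj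
  have h2 : 1 - al n j < ψ h := hh
  linarith

private theorem frc_pos {n j : ℕ} {ψ : H → ℝ} {h : H} (hh : frc n j ψ h) : 0 < ψ h := lt_trans (be_pos n j) hh.1

private theorem frc_st {n j : ℕ} {ψ : H → ℝ} (hψ : IsPt ψ) {h : H} (hh : frc n j ψ h) : frc n j ψ (st h) := by
  refine ⟨?_, ?_⟩
  · rw [hψ.compl]
    have := hh.2
    linarith
  · rw [hψ.compl]
    have := hh.1
    linarith

theorem win_win0 {n R : ℕ} {S : Set G} (hS : Gn G H S R) {ψ : H → ℝ} (hψ : IsPt ψ) {j : ℕ} (hj : j ≤ n) (D θ : ℕ) (g : G) :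
    Win (g • (bs : Vtx H)) (Win0 n j S D θ g ψ) := by
  refine ⟨(rel_fin hS D θ g).subset fun h hh => hh.1, fun h hh => hh.1.1, ?_, ?_⟩
  · rintro h ⟨⟨h1, h2, h3⟩, h4⟩ k hk hk'
    refine ⟨⟨hk', (dep_anti _ hk).trans h2, (smt_anti g hk).trans_lt h3⟩, ?_⟩
    rcases hk.eq_or_lt with e | e
    · rw [← e]
      exact h4
    · rcases hψ.lt h k e with h5 | h5
      · exact absurd h5 (inn_pos hj h4).ne'
      · show 1 - al n j < ψ k
        rw [h5]
        have := al_pos n j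
        linarith
  · rintro h ⟨-, h4⟩ k ⟨-, h5⟩ hk
    have h6 := al_lt hj
    have h7 : 1 - al n j < ψ h := h4
    have h8 : 1 - al n j < ψ k := h5
    have h9 := hψ.compl k
    rcases hk.eq_or_lt with e | e
    · rw [e] at h7
      linarith
    · rcases hψ.lt h (st k) e with h10 | h10
      · linarith
      · linarith

private theorem theta_big {n R D i : ℕ} : 2 * R < tt n R D i := by
  unfold tt
  have : 0 ≤ (D + 1) * (3 * (D + 2 * R + 1) * n + 2 * (D + 2 * R)) := Nat.zero_le _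
  have : 0 ≤ 3 * (D + 2 * R + 1) * i := Nat.zero_le _
  omega

private theorem kap_le {n R D κ : ℕ} (hκ : κ ≤ n) (hD : (2 * n + 2) * R ≤ D) : (2 * κ + 1) * R + R ≤ D := by
  refine le_trans ?_ hD
  have : (2 * κ + 1) * R + R = (2 * κ + 2) * R := by ring
  rw [this]
  exact Nat.mul_le_mul_right R (by omega)

private theorem R_le {R κ : ℕ} : R ≤ (2 * κ + 1) * R := Nat.le_mul_of_pos_left R (by omega)

theorem frc_step {n R D : ℕ} {S : Set G} (hS : Gn G H S R) {ψ : H → ℝ} (hψ : IsPt ψ) {j i κ : ℕ} (hj : j ≤ n) (hκ : κ ≤ n)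
    (hD : (2 * n + 2) * R ≤ D) (g : G)
    (hi : ∀ h, h ∉ (g • (bs : Vtx H)).U → 0 < ψ h → dep (g • (bs : Vtx H)) h ≤ D →
      smt S g h < tt n R D i + (D + 2 * R) → smt S g h + (D + 2 * R) < tt n R D i)
    (hk : ∀ h, h ∉ (g • (bs : Vtx H)).U → frc n j ψ h → dep (g • bs) h ≤ (2 * κ + 1) * R + R →
      dep (g • bs) h + R ≤ (2 * κ + 1) * R) {s : G} (hs : s ∈ S) :
    wl (Frc0 n j S ((2 * κ + 1) * R) (tt n R D i) (g * s) ψ) = wl (Frc0 n j S ((2 * κ + 1) * R) (tt n R D i) g ψ) := by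
  have hn : ds (g • (bs : Vtx H)) ((g * s) • bs) ≤ R := ds_step hS g hs
  have hn' : ds ((g * s) • (bs : Vtx H)) (g • bs) ≤ R := by
    rw [ds_comm]
    exact hn
  have hkD := kap_le (R := R) (D := D) hκ hD
  have hth : 2 * R < tt n R D i := theta_big
  have hRk : R ≤ (2 * κ + 1) * R := R_le
  have key1 : ∀ h, h ∈ Frc0 n j S ((2 * κ + 1) * R) (tt n R D i) (g * s) ψ →
      h ∈ wl (Frc0 n j S ((2 * κ + 1) * R) (tt n R D i) g ψ) := by
    rintro h ⟨⟨h1, h2, h3⟩, h4⟩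
    by_cases h5 : h ∈ (g • (bs : Vtx H)).U
    · right
      have h6 : st h ∉ (g • (bs : Vtx H)).U := fun h7 => (Vtx.st_mem _).1 h7 h5
      have h7 : st h ∈ ((g * s) • (bs : Vtx H)).U := (Vtx.st_mem _).2 h1
      have h8 := smt_btw hS hs h7
      exact ⟨⟨h6, ((dep_btw h7).trans hn).trans hRk, by omega⟩, frc_st hψ h4⟩
    · left
      have h6 : dep (g • (bs : Vtx H)) h ≤ (2 * κ + 1) * R + R := (dep_le _ ((g * s) • bs) h).trans (Nat.add_le_add h2 hn)
      have h7 := hk h h5 h4 h6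
      have h8 := (smt_step hS hs h5 h1).2
      have h9 := hi h h5 (frc_pos h4) (by omega) (by omega)
      exact ⟨⟨h5, by omega, by omega⟩, h4⟩
  have key2 : ∀ h, h ∈ Frc0 n j S ((2 * κ + 1) * R) (tt n R D i) g ψ →
      h ∈ wl (Frc0 n j S ((2 * κ + 1) * R) (tt n R D i) (g * s) ψ) := by
    rintro h ⟨⟨h1, h2, h3⟩, h4⟩
    by_cases h5 : h ∈ ((g * s) • (bs : Vtx H)).U
    · right
      have h6 : st h ∉ ((g * s) • (bs : Vtx H)).U := fun h7 => (Vtx.st_mem _).1 h7 h5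
      have h7 : st h ∈ (g • (bs : Vtx H)).U := (Vtx.st_mem _).2 h1
      have h8 := smt_btw' hS hs h7
      exact ⟨⟨h6, ((dep_btw h7).trans hn').trans hRk, by omega⟩, frc_st hψ h4⟩
    · left
      have h6 := hk h h1 h4 (by omega)
      have h7 : dep ((g * s) • (bs : Vtx H)) h ≤ dep (g • (bs : Vtx H)) h + R :=
        (dep_le _ (g • bs) h).trans (Nat.add_le_add_left hn' _)
      have h8 := (smt_step hS hs h1 h5).1
      have h9 := hi h h1 (frc_pos h4) (by omega) (by omega)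
      exact ⟨⟨h5, by omega, by omega⟩, h4⟩
  have hwst : ∀ (A : Set H) (h : H), st h ∈ wl A → h ∈ wl A := by
    rintro A h (h1 | h1)
    · exact Or.inr h1
    · rw [st_st] at h1
      exact Or.inl h1
  ext h
  constructor
  · rintro (h1 | h1)
    · exact key1 h h1
    · exact hwst _ h (key1 (st h) h1)
  · rintro (h1 | h1)
    · exact key2 h h1
    · exact hwst _ h (key2 (st h) h1)

theorem cmp {n R D : ℕ} {S : Set G} (hS : Gn G H S R) {ψ : H → ℝ} (hψ : IsPt ψ) {j i κ : ℕ} (hj : j ≤ n)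
    (hr : ∀ h, rob n j ψ h) (hD : (2 * n + 2) * R ≤ D) (g : G)
    (hi : ∀ h, h ∉ (g • (bs : Vtx H)).U → 0 < ψ h → dep (g • (bs : Vtx H)) h ≤ D →
      smt S g h < tt n R D i + (D + 2 * R) → smt S g h + (D + 2 * R) < tt n R D i)
    (hF : Frc0 n j S ((2 * κ + 1) * R) (tt n R D i) g ψ = ∅) {s : G} (hs : s ∈ S) :
    Cmp R (D - R) (g • (bs : Vtx H)) (Win0 n j S D (tt n R D i) g ψ) ((g * s) • bs) (Win0 n j S D (tt n R D i) (g * s) ψ) := by
  have hn : ds (g • (bs : Vtx H)) ((g * s) • bs) ≤ R := ds_step hS g hs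
  have hn' : ds ((g * s) • (bs : Vtx H)) (g • bs) ≤ R := by
    rw [ds_comm]
    exact hn
  have hth : 2 * R < tt n R D i := theta_big
  have hRD : R ≤ D := le_trans (Nat.le_mul_of_pos_left R (by omega)) hD
  have hRk : R ≤ (2 * κ + 1) * R := R_le
  have hbtw : ∀ h, h ∉ (g • (bs : Vtx H)).U → h ∈ ((g * s) • (bs : Vtx H)).U →
      h ∈ Win0 n j S D (tt n R D i) g ψ ∨ st h ∈ Win0 n j S D (tt n R D i) (g * s) ψ := by
    intro h h1 h2
    have h3 : dep (g • (bs : Vtx H)) h ≤ R := (dep_btw h2).trans hn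
    have h4 := smt_btw hS hs h2
    rcases hr h with h5 | h5 | h5
    · right
      have h6 : st h ∉ ((g * s) • (bs : Vtx H)).U := fun h7 => (Vtx.st_mem _).1 h7 h2
      have h7 : st h ∈ (g • (bs : Vtx H)).U := (Vtx.st_mem _).2 h1
      have h8 := smt_btw' hS hs h7
      refine ⟨⟨h6, ((dep_btw h7).trans hn').trans hRD, by omega⟩, ?_⟩
      show 1 - al n j < ψ (st h)
      rw [hψ.compl]
      linarith
    · exfalso
      have h6 : h ∈ Frc0 n j S ((2 * κ + 1) * R) (tt n R D i) g ψ := ⟨⟨h1, h3.trans hRk, by omega⟩, h5⟩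
      rw [hF] at h6
      exact h6
    · exact Or.inl ⟨⟨h1, h3.trans hRD, by omega⟩, h5⟩
  refine ⟨hn, ?_, hbtw, ?_, ?_⟩
  · intro h h1 h2 h3
    have h4 := smt_step hS hs h1 h2
    constructor
    · rintro ⟨⟨-, h5, h6⟩, h7⟩
      have h8 := hi h h1 (inn_pos hj h7) h5 (by omega)
      have h9 : dep ((g * s) • (bs : Vtx H)) h ≤ dep (g • (bs : Vtx H)) h + R :=
        (dep_le _ (g • bs) h).trans (Nat.add_le_add_left hn' _)
      exact ⟨⟨h2, by omega, by omega⟩, h7⟩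
    · rintro ⟨⟨-, h5, h6⟩, h7⟩
      have h8 := hi h h1 (inn_pos hj h7) (by omega) (by omega)
      exact ⟨⟨h1, by omega, by omega⟩, h7⟩
  · intro h h1 h2
    have h3 := hbtw (st h) (fun h4 => (Vtx.st_mem _).1 h4 h1) ((Vtx.st_mem _).2 h2)
    rw [st_st] at h3
    exact h3.symm
  · rintro h ⟨-, h1⟩ ⟨-, h2⟩
    have h3 : 1 - al n j < ψ h := h1
    have h4 : 1 - al n j < ψ (st h) := h2
    rw [hψ.compl] at h4
    have h5 := al_lt hj
    linarith

end Pool.Agent.H37.CC
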