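import Pool.Agent.H37.CC.Win
import Mathlib.Topology.Instances.Real.Lemmas

/-!
# THEOREM CCC, chapter GEOMETRY: classification of the half-spaces by a point of the compactification, constants

`IsPt ψ`: the points as functions. `inn n j ψ h` (`h` contains the point), `frc n j ψ h` (fractional), `rob n j ψ h` (robust): thresholds
`al n j < be n j < 1 / 2`, `j ≤ n`. `Rel S D θ g`: the half-spaces without `g • bs` of depth at most `D` and with `smt S g h < θ`. `Win0`,
`Frc0`: the half-spaces in `Rel` which contain the point, which are fractional. `mm`, `ll`, `cc`, `DD`, `tt`: constants. `Crd G c`: coordinates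
on the space `X`.
-/

set_option autoImplicit false

namespace Pool.Agent.H37.CC

open scoped Pointwise

section

variable {H : Type} [PartialOrder H] [Bas H]

/-- points of the compactification as functions -/
structure IsPt (ψ : H → ℝ) : Prop where
  nonneg : ∀ h, 0 ≤ ψ h
  compl : ∀ h, ψ (st h) = 1 - ψ h
  lt : ∀ h k, h < k → ψ h = 0 ∨ ψ k = 1

noncomputable def al (n j : ℕ) : ℝ := (2 * j + 1) / (4 * n + 6)

noncomputable def be (n j : ℕ) : ℝ := (2 * j + 2) / (4 * n + 6)

/-- the half-space contains the point -/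
def inn (n j : ℕ) (ψ : H → ℝ) (h : H) : Prop := 1 - al n j < ψ h

/-- the half-space is fractional -/
def frc (n j : ℕ) (ψ : H → ℝ) (h : H) : Prop := be n j < ψ h ∧ ψ h < 1 - be n j

/-- robust -/
def rob (n j : ℕ) (ψ : H → ℝ) (h : H) : Prop := ψ h < al n j ∨ frc n j ψ h ∨ inn n j ψ h

end

section

variable {G H : Type} [Group G] [PartialOrder H] [Bas H] [MulAction G H] [BAct G H]

/-- the relevant half-spaces -/
def Rel (S : Set G) (D θ : ℕ) (g : G) : Set H := {h | h ∉ (g • (bs : Vtx H)).U ∧ dep (g • bs) h ≤ D ∧ smt S g h < θ}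

/-- the window -/
def Win0 (n j : ℕ) (S : Set G) (D θ : ℕ) (g : G) (ψ : H → ℝ) : Set H := {h | h ∈ Rel S D θ g ∧ inn n j ψ h}

/-- the fractional half-spaces -/
def Frc0 (n j : ℕ) (S : Set G) (D θ : ℕ) (g : G) (ψ : H → ℝ) : Set H := {h | h ∈ Rel S D θ g ∧ frc n j ψ h}

/-- the walls of a set of half-spaces -/
def wl (A : Set H) : Set H := {h | h ∈ A ∨ st h ∈ A}

/-- coordinates on the space -/
structure Crd (G : Type) {X H : Type} [Group G] [PartialOrder H] [Bas H] [MulAction G H] [TopologicalSpace X] [MulAction G X]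
    (c : X → H → ℝ) : Prop where
  cont : ∀ h, Continuous fun x => c x h
  pt : ∀ x, IsPt (c x)
  smul : ∀ (g : G) x h, c (g • x) h = c x (g⁻¹ • h)

/-- the robust points -/
def Rb0 {X : Type} (c : X → H → ℝ) (n j : ℕ) (S : Set G) (D θ : ℕ) (g : G) : Set X := {x | ∀ h ∈ Rel S D θ g, rob n j (c x) h}

end

/-- constants -/
def mm (n : ℕ) (ρ : ℕ → ℕ) : ℕ := n * ρ (n + 1) + 1

def ll (n R q : ℕ) : ℕ := (4 * ((n + 1) ^ 2 - q) + 3) * R

def cc (n R B : ℕ) : ℕ → ℕ
  | 0 => (4 * (n + 1) ^ 2 + 3) * R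
  | q + 1 => (n + 1) * cc n R B q + B

def DD (n R B : ℕ) : ℕ := cc n R B ((n + 1) ^ 2) + (2 * n + 3) * R + 1

def tt (n R D i : ℕ) : ℕ :=
  (D + 1) * (3 * (D + 2 * R + 1) * n + 2 * (D + 2 * R)) + (D + 2 * R) + 1 + 3 * (D + 2 * R + 1) * i

section

variable {G H : Type} [Group G] [PartialOrder H] [Bas H] [MulAction G H] [BAct G H]

/-- the system of regions of the parameters `j` (classification), `i` (time), `q` (centre), `ι` (scale); `B = r n + mm n ρ` -/
noncomputable def FF (n R : ℕ) (ρ r : ℕ → ℕ) (S : Set G) (j i q ι : ℕ) (g : G) (ψ : H → ℝ) :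
    (Set (Vtx H) × Set H) × Vtx H :=
  ((Reg (g • bs) (Win0 n j S (DD n R (r n + mm n ρ)) (tt n R (DD n R (r n + mm n ρ)) i) g ψ) (mm n ρ) (ρ (ι + 1))
      (cc n R (r n + mm n ρ) q) (ll n R q) (r ι),
    Win0 n j S (DD n R (r n + mm n ρ)) (tt n R (DD n R (r n + mm n ρ)) i) g ψ),
    vq (g • bs) (Win0 n j S (DD n R (r n + mm n ρ)) (tt n R (DD n R (r n + mm n ρ)) i) g ψ) (cc n R (r n + mm n ρ) q))

end

end Pool.Agent.H37.CC
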