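import Pool.Agent.H37.CC.Ps
import Pool.Agent.H37.CC.Thr
import Pool.Agent.H54.CV.V4

/-!
# THEOREM CCC, P4: the times (interface for the chapter GEOMETRY; helper54)
-/

set_option autoImplicit false

namespace Pool.Agent.H37.CC

open scoped Pointwise

variable {G H : Type} [Group G] [PartialOrder H] [Bas H] [MulAction G H] [BAct G H] {S : Set G} {R : ℕ}

theorem Gn.gd (hS : Gn G H S R) : Pool.Agent.H54.CV.Gd H S R := ⟨hS.fin, hS.one, hS.inv, hS.gen, hS.mov⟩

theorem tau_pos (hS : Gn G H S R) {g : G} {h : H} (hh : h ∉ (g • (bs : Vtx H)).U) : 0 < tau S g h := by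
  exact Pool.Agent.H54.CV.tau_pos hS.gd hh

theorem tau_le_smt {g : G} {h : H} (hh : h ∉ (g • (bs : Vtx H)).U) : tau S g h ≤ smt S g h := by
  exact Pool.Agent.H54.CV.tau_le_smt hh

theorem smt_lt (g : G) {h k : H} (hh : h ∉ (g • (bs : Vtx H)).U) (hk : h < k) : smt S g k + tau S g h ≤ smt S g h := by
  exact Pool.Agent.H54.CV.smt_lt hk hh

theorem smt_anti (g : G) {h k : H} (hk : h ≤ k) : smt S g k ≤ smt S g h := by
  exact Pool.Agent.H54.CV.smt_anti S g hk

theorem smt_le (hS : Gn G H S R) (g : G) (h : H) : smt S g h ≤ dep (g • (bs : Vtx H)) h * tau S g h := by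
  exact Pool.Agent.H54.CV.smt_le hS.gd g h

theorem smt_step (hS : Gn G H S R) {g s : G} (hs : s ∈ S) {h : H} (hh : h ∉ (g • (bs : Vtx H)).U)
    (hh' : h ∉ ((g * s) • (bs : Vtx H)).U) :
    smt S (g * s) h ≤ smt S g h + (dep (g • (bs : Vtx H)) h + 2 * R) ∧
      smt S g h ≤ smt S (g * s) h + (dep (g • (bs : Vtx H)) h + 2 * R) := by
  have h1 := Pool.Agent.H54.CV.smt_step hS.gd hs g h
  have h2 := Pool.Agent.H54.CV.smt_step' hS.gd hs g h
  have h3 := Pool.Agent.H54.CV.dep_step' hS.gd hs g h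
  exact ⟨by omega, by omega⟩

theorem smt_btw (hS : Gn G H S R) {g s : G} (hs : s ∈ S) {h : H} (hh' : h ∈ ((g * s) • (bs : Vtx H)).U) : smt S g h ≤ R := by
  exact Pool.Agent.H54.CV.smt_btw hS.gd hs hh'

theorem smt_btw' (hS : Gn G H S R) {g s : G} (hs : s ∈ S) {h : H} (hh' : h ∈ (g • (bs : Vtx H)).U) : smt S (g * s) h ≤ R := by
  refine Pool.Agent.H54.CV.smt_btw hS.gd (hS.inv s hs) (g := g * s) ?_
  rw [mul_inv_cancel_right]
  exact hh'

theorem ds_step (hS : Gn G H S R) (g : G) {s : G} (hs : s ∈ S) : ds (g • (bs : Vtx H)) ((g * s) • bs) ≤ R := by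
  exact Pool.Agent.H54.CV.ds_step hS.gd hs g

theorem tau_smul (g h : G) (k : H) : tau S (g * h) (g • k) = tau S h k := by
  exact Pool.Agent.H54.CV.tau_smul S g h k

theorem smt_smul (g h : G) (k : H) : smt S (g * h) (g • k) = smt S h k := by
  exact Pool.Agent.H54.CV.smt_smul S g h k

theorem rel_smul (D θ : ℕ) (g h : G) : (Rel S D θ (g * h) : Set H) = g • Rel S D θ h := by
  ext k
  rw [Set.mem_smul_set_iff_inv_smul_mem]
  have h1 : k = g • (g⁻¹ • k) := (smul_inv_smul g k).symm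
  have h2 : smt S (g * h) k = smt S h (g⁻¹ • k) := by
    conv_lhs => rw [h1]
    exact smt_smul g h _
  have h3 : dep ((g * h) • (bs : Vtx H)) k = dep (h • (bs : Vtx H)) (g⁻¹ • k) := by
    conv_lhs => rw [h1]
    rw [mul_smul]
    exact dep_smul g _ _
  have h4 : k ∈ ((g * h) • (bs : Vtx H)).U ↔ g⁻¹ • k ∈ (h • (bs : Vtx H)).U := by
    rw [mul_smul, mem_smul]
  simp only [Rel, Set.mem_ofPred_eq]
  rw [h2, h3, h4]

omit R in
theorem rel_subset (D θ : ℕ) (g : G) : (Rel S D θ g : Set H) ⊆ Pool.Agent.H54.CV.Rch S H g θ := fun _ hh =>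
  ⟨hh.1, (Pool.Agent.H54.CV.tau_le_smt hh.1).trans hh.2.2.le⟩

theorem rel_fin (hS : Gn G H S R) (D θ : ℕ) (g : G) : (Rel S D θ g : Set H).Finite := by
  exact (Pool.Agent.H54.CV.rch_finite hS.gd g θ).subset (rel_subset D θ g)

theorem rel_card (hS : Gn G H S R) (D θ : ℕ) (g : G) : (Rel S D θ g : Set H).ncard ≤ S.ncard ^ θ * (R * θ) := by
  exact (Set.ncard_le_ncard (rel_subset D θ g) (Pool.Agent.H54.CV.rch_finite hS.gd g θ)).trans
    (Pool.Agent.H54.CV.rch_ncard_le hS.gd g θ)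

end Pool.Agent.H37.CC
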