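import Pool.Agent.H37.CC.Ps

/-!
# THEOREM CCC, G1: windows, basic facts

`pos_ex`: `y.U = {h | h ∈ A ∨ (h ∈ v.U ∧ st h ∉ A)}`. `dep_eq` (used everywhere): for `y` a position, `h ∈ U` outside `y`: every `k ≥ h`
outside `y` is in `U` (if `k ∉ v.U`: closed upwards; if `k ∈ v.U` then `st k ∈ y.U`, `st k ∉ v.U`, so `st k ∈ U`, `h ≤ st (st k)`,
contradiction to `nf`). `vq_spec`: the set is closed upwards in `U`. `ds_vq`: the half-spaces of `U` of depth at most `c` have chains of
length at most `c`, so there are at most `n * c` (Mirsky; no disjoint pairs, antichains have at most `n` elements by `Dim`).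
`rgn_reg`: `sep`: if `h ∈ y.U`, `h ∉ z.U`: `h ∉ v.U` gives `h ∈ U`, otherwise `st h ∈ z.U`, `st h ∉ v.U`. `up`: as in `dep_eq`. Finite: a
position is determined by the subset `y.U \ v.U` of `U`.
-/

set_option autoImplicit false

namespace Pool.Agent.H37.CC

open scoped Pointwise

section

variable {H : Type} [PartialOrder H] [Bas H]

/-- a vertex is determined by the half-spaces which separate it from `v` -/
theorem eq_of_sdiff {v y z : Vtx H} (h : y.U \ v.U = z.U \ v.U) : y = z := by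
  exact Pool.Agent.H54.CV.eq_of_diff h

theorem pos_ex {v : Vtx H} {U : Set H} (hW : Win v U) {A : Set H} (hA : A ⊆ U) (hup : ∀ h ∈ A, ∀ k ∈ U, h ≤ k → k ∈ A) :
    ∃ y : Vtx H, y.U \ v.U = A := by
  exact Pool.Agent.H54.CV.exists_mv v (hW.fin.subset hA) (fun h hh => hW.out h (hA hh))
    (fun h hh k hk hkv => hup h hh k (hW.up h (hA hh) k hk hkv) hk) (fun h hh k hk => hW.nf h (hA hh) k (hA hk))

theorem vq_spec {v : Vtx H} {U : Set H} (hW : Win v U) (c : ℕ) : (vq v U c).U \ v.U = {k ∈ U | dep v k ≤ c} := by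
  have h : ∃ y : Vtx H, y.U \ v.U = {k ∈ U | dep v k ≤ c} :=
    pos_ex hW (fun k hk => hk.1) (fun h hh k hk hle => ⟨hk, (dep_anti v hle).trans hh.2⟩)
  unfold vq
  rw [dif_pos h]
  exact h.choose_spec

/-- half-spaces above `h` outside a position are in the window -/
theorem win_above {v : Vtx H} {U : Set H} (hW : Win v U) {y : Vtx H} (hy : y ∈ Pos v U) {h k : H} (hh : h ∈ U) (hk : h ≤ k)
    (hky : k ∉ y.U) : k ∈ U := by
  exact (rgn_pos hW).up h hh k hk ⟨y, hy, hky⟩

/-- depth from the base vertex and depth from a position -/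
theorem dep_le_pos {v : Vtx H} {U : Set H} (hW : Win v U) {y : Vtx H} (hy : y ∈ Pos v U) {h : H} (hh : h ∈ U) :
    dep v h ≤ ds v y + dep y h := by
  rw [add_comm]
  exact dep_le v y h

theorem ds_vq {n : ℕ} (hd : Dim H n) {v : Vtx H} {U : Set H} (hW : Win v U) (c : ℕ) : ds v (vq v U c) ≤ n * c := by
  unfold ds
  rw [vq_spec hW]
  refine (mirsky_level hd (v := v) (fun h hh => hW.out h hh.1) (fun h hh k hk => hW.nf h hh.1 k hk.1) (dep v)
    (fun h hh k _ hlt => ?_) (a := 0) (l := c) (fun h hh => dep_pos (hW.out h hh.1)) (fun h hh => ?_)).2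
  · have := dep_lt (y := v) (hW.out h hh.1) hlt
    omega
  · have := hh.2
    omega

theorem rgn_reg {v : Vtx H} {U : Set H} (hW : Win v U) (m ρ c l r : ℕ) : Rgn (Reg v U m ρ c l r, U) where
  fin1 := (rgn_pos hW).fin1.subset fun y hy => hy.1
  fin2 := hW.fin
  nf := (rgn_pos hW).nf
  sep := fun y hy z hz => (rgn_pos hW).sep y hy.1 z hz.1
  up := by
    rintro h hh k hk ⟨y, hy, hky⟩
    exact (rgn_pos hW).up h hh k hk ⟨y, hy.1, hky⟩

end

section

variable {G H : Type} [Group G] [PartialOrder H] [Bas H] [MulAction G H] [BAct G H]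

private theorem smul_sdiff' (g : G) (y v : Vtx H) : (g • y).U \ (g • v).U = g • (y.U \ v.U) := by
  ext h
  rw [Set.mem_smul_set_iff_inv_smul_mem, Set.mem_sdiff, Set.mem_sdiff, mem_smul, mem_smul]

private theorem dep_smul' (g : G) (v : Vtx H) (h : H) : dep (g • v) h = dep v (g⁻¹ • h) := by
  conv_lhs => rw [← smul_inv_smul g h]
  rw [dep_smul]

private theorem smul_low (g : G) (v : Vtx H) (U : Set H) (c : ℕ) :
    {k ∈ g • U | dep (g • v) k ≤ c} = g • {k ∈ U | dep v k ≤ c} := by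
  ext h
  rw [Set.mem_smul_set_iff_inv_smul_mem, Set.mem_sep_iff, Set.mem_sep_iff, Set.mem_smul_set_iff_inv_smul_mem, dep_smul']

private theorem vq_ex_smul (g : G) (v : Vtx H) (U : Set H) (c : ℕ) {y : Vtx H} (hy : y.U \ v.U = {k ∈ U | dep v k ≤ c}) :
    (g • y).U \ (g • v).U = {k ∈ g • U | dep (g • v) k ≤ c} := by
  rw [smul_sdiff', hy, smul_low]

theorem vq_smul (g : G) (v : Vtx H) (U : Set H) (c : ℕ) : vq (g • v) (g • U) c = g • vq v U c := by
  by_cases h : ∃ y : Vtx H, y.U \ v.U = {k ∈ U | dep v k ≤ c}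
  · have h' : ∃ y : Vtx H, y.U \ (g • v).U = {k ∈ g • U | dep (g • v) k ≤ c} := ⟨_, vq_ex_smul g v U c h.choose_spec⟩
    have e1 : vq v U c = h.choose := by
      unfold vq
      rw [dif_pos h]
    have e2 : vq (g • v) (g • U) c = h'.choose := by
      unfold vq
      rw [dif_pos h']
    rw [e1, e2]
    refine eq_of_sdiff (v := g • v) ?_
    rw [h'.choose_spec, vq_ex_smul g v U c h.choose_spec]
  · have h' : ¬ ∃ y : Vtx H, y.U \ (g • v).U = {k ∈ g • U | dep (g • v) k ≤ c} := by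
      rintro ⟨y, hy⟩
      refine h ⟨g⁻¹ • y, ?_⟩
      have := vq_ex_smul g⁻¹ (g • v) (g • U) c hy
      rwa [inv_smul_smul, inv_smul_smul] at this
    unfold vq
    rw [dif_neg h, dif_neg h']

private theorem mem_smul_set' (g : G) (U : Set H) (h : H) : g • h ∈ g • U ↔ h ∈ U := Set.smul_mem_smul_set_iff

private theorem av_smul (g : G) {U : Set H} {y : Vtx H} {h : H} (ha : Av (g • U) (g • y) (g • h)) : Av U y h := by
  obtain ⟨h1, h2, h3⟩ := ha
  refine ⟨(mem_smul_set' g U h).1 h1, fun h4 => h2 (smul_mem_smul.2 h4), fun k hk hlt => ?_⟩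
  exact smul_mem_smul.1 (h3 (g • k) ((mem_smul_set' g U k).2 hk) (smul_lt.2 hlt))

private theorem lg_smul (g : G) {U : Set H} {y : Vtx H} {m ρ : ℕ} {h : H} (hl : Lg U y m ρ h) :
    Lg (g • U) (g • y) m ρ (g • h) := by
  obtain ⟨f, h1, h2, h3⟩ := hl
  refine ⟨fun t => g • f t, congrArg (fun x => g • x) h1, fun t ht => ?_, fun t ht => smul_lt.2 (h3 t ht)⟩
  obtain ⟨h4, h5, h6⟩ := h2 t ht
  refine ⟨(mem_smul_set' g U _).2 h4, fun h7 => h5 (smul_mem_smul.1 h7), ?_⟩
  rw [dep_smul]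
  exact h6

private theorem reg_smul_mem (g : G) {v : Vtx H} {U : Set H} {m ρ c l r : ℕ} {y : Vtx H} (hy : y ∈ Reg v U m ρ c l r) :
    g • y ∈ Reg (g • v) (g • U) m ρ c l r := by
  obtain ⟨h1, h2, h3, h4⟩ := hy
  refine ⟨?_, ?_, ?_, ?_⟩
  · show (g • y).U \ (g • v).U ⊆ g • U
    rw [smul_sdiff']
    exact Set.smul_set_mono h1
  · intro h hh
    rw [← smul_inv_smul g h] at hh ⊢
    exact lg_smul g (h2 _ (av_smul g hh))
  · intro h hh hdh
    rw [Set.mem_smul_set_iff_inv_smul_mem] at hh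
    rw [dep_smul'] at hdh
    exact h3 _ hh hdh
  · rw [vq_smul, ds_smul]
    exact h4

theorem reg_smul (g : G) (v : Vtx H) (U : Set H) (m ρ c l r : ℕ) :
    Reg (g • v) (g • U) m ρ c l r = g • Reg v U m ρ c l r := by
  ext y
  rw [Set.mem_smul_set_iff_inv_smul_mem]
  constructor
  · intro hy
    have := reg_smul_mem g⁻¹ hy
    rwa [inv_smul_smul, inv_smul_smul] at this
  · intro hy
    have := reg_smul_mem g hy
    rwa [smul_inv_smul] at this

end

end Pool.Agent.H37.CC
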