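import Pool.Agent.H37.CC.NetI
import Pool.Agent.H37.CC.Ta
import Pool.Agent.H37.CC.WinA
import Pool.Agent.H37.CC.Agr
import Pool.Agent.H54.CV.Cnt

/-!
# THEOREM CCC, G9: the number of configurations

`cnt`: at `g = 1` all half-spaces of the window are in `Rel S D (tt n) 1`, `D = DD`: at most `|S| ^ M * R * M ≤ 2 ^ ((s + R + 1) * (M + 1))` elements,
`M = tt n R D n` (`tau ≤ smt`, P4). A vertex `y` of the region is determined by `y.U \ bs.U`, a subset with at most
`ds bs y ≤ n * cc q + r ι ≤ D` elements; a configuration is `y`, a set of at most `(2 t + 1) ^ n` such vertices (`deg`), and a set of at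
most `t * (2 t + 1) ^ n` half-spaces of the window. A set with `e` elements has at most `(e + 1) ^ k` subsets with at most `k` elements.
`deg`, `pack`: P3 (Dilworth); `ds y z` = the number of elements of the symmetric difference of `y.U \ v.U`, `z.U \ v.U`.
-/

set_option autoImplicit false

namespace Pool.Agent.H37.CC

open scoped Pointwise
open Pool.Agent.H98.FJ Pool.Agent.H37.PT Pool.Agent.H76.GT

/-- the exponent of the number of configurations of radius `t`; `s` = the number of generators -/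
def lamf (n R s : ℕ) (ρ r : ℕ → ℕ) (t : ℕ) : ℕ :=
  4 * (DD n R (r n + mm n ρ) + 1) * ((s + R + 1) * (tt n R (DD n R (r n + mm n ρ)) n + 1) + 1) * (t + 1) * (2 * t + 1) ^ n

variable {G X H : Type} [Group G] [TopologicalSpace X] [MulAction G X] [PartialOrder H] [Bas H] [MulAction G H] [BAct G H]

theorem cc_mono (n R B : ℕ) : Monotone (cc n R B) := by
  refine monotone_nat_of_le_succ fun q => ?_
  show cc n R B q ≤ (n + 1) * cc n R B q + B
  have h1 : (n + 1) * cc n R B q = n * cc n R B q + cc n R B q := by ring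
  rw [h1]
  omega

theorem cc_le_DD {n R B q r0 : ℕ} (hq : q < (n + 1) ^ 2) (hr : r0 ≤ B) : n * cc n R B q + r0 ≤ DD n R B := by
  have h1 : cc n R B (q + 1) ≤ cc n R B ((n + 1) ^ 2) := cc_mono n R B hq
  have h2 : cc n R B (q + 1) = (n + 1) * cc n R B q + B := rfl
  have h3 : (n + 1) * cc n R B q = n * cc n R B q + cc n R B q := by ring
  unfold DD
  omega

theorem tt_mono (n R D : ℕ) : Monotone (tt n R D) := by
  intro i i' hi
  unfold tt
  exact Nat.add_le_add_left (Nat.mul_le_mul_left _ hi) _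

omit [TopologicalSpace X] [MulAction G X] in
theorem rel_mono (S : Set G) (D : ℕ) {θ θ' : ℕ} (h : θ ≤ θ') (g : G) : (Rel S D θ g : Set H) ⊆ Rel S D θ' g :=
  fun _ hh => ⟨hh.1, hh.2.1, lt_of_lt_of_le hh.2.2 h⟩

/-- the configurations of regions all of whose points are separated from the base vertex by few half-spaces of a finite set -/
theorem cf_count {T : Set H} (hT : T.Finite) (D K t : ℕ) (𝒞 : Set (Vtx H × Set (Vtx H) × Set H))
    (h𝒞 : ∀ c ∈ 𝒞, ∃ (P : Set (Vtx H) × Set H) (y : Vtx H), y ∈ P.1 ∧ c = Cf t P y ∧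
      (∀ z ∈ P.1, z.U \ (bs : Vtx H).U ⊆ P.2 ∧ ds bs z ≤ D) ∧ P.2 ⊆ T ∧ (∀ h ∈ P.2, h ∉ (bs : Vtx H).U) ∧
      {z ∈ P.1 | ds y z ≤ t}.encard ≤ K) :
    𝒞.encard ≤ ((((T.ncard + 1) ^ D) * (((T.ncard + 1) ^ D) + 1) ^ K : ℕ) : ℕ∞) := by
  classical
  set T' := hT.toFinset with hT'
  have hTc : T'.card = T.ncard := (Set.ncard_eq_toFinset_card T hT).symm
  -- the vertices which occur
  have hVf : {z : Vtx H | z.U \ (bs : Vtx H).U ⊆ T ∧ ds bs z ≤ D}.Finite :=
    (Pool.Agent.H54.CV.fin_pos (bs : Vtx H) hT).subset fun z hz => hz.1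
  set V := hVf.toFinset with hV
  have hmV : ∀ z, z ∈ V ↔ z.U \ (bs : Vtx H).U ⊆ T ∧ ds bs z ≤ D := fun z => by
    rw [hV, Set.Finite.mem_toFinset]
    exact Iff.rfl
  have hVc : V.card ≤ (T.ncard + 1) ^ D := by
    rw [← hTc]
    refine le_trans ?_ (Pool.Agent.H54.CV.card_small T' D)
    refine Finset.card_le_card_of_injOn (fun z : Vtx H => (diff_fin (bs : Vtx H) z).toFinset) ?_ ?_
    · intro z hz
      obtain ⟨h1, h2⟩ := (hmV z).1 (Finset.mem_coe.1 hz)
      rw [Finset.mem_coe, Finset.mem_filter, Finset.mem_powerset]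
      refine ⟨fun h hh => ?_, ?_⟩
      · rw [Set.Finite.mem_toFinset] at hh ⊢
        exact h1 hh
      · rw [← Set.ncard_eq_toFinset_card _ (diff_fin (bs : Vtx H) z)]
        exact h2
    · intro z _ z' _ h
      refine Pool.Agent.H54.CV.eq_of_diff (x := (bs : Vtx H)) ?_
      have h1 : (diff_fin (bs : Vtx H) z).toFinset = (diff_fin (bs : Vtx H) z').toFinset := h
      rw [← Set.Finite.coe_toFinset (diff_fin (bs : Vtx H) z), h1, Set.Finite.coe_toFinset]
  -- the map
  set Φ : Vtx H × Finset (Vtx H) → Vtx H × Set (Vtx H) × Set H := fun p =>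
    (p.1, (p.2 : Set (Vtx H)), {w | w ∉ (bs : Vtx H).U ∧ ∃ z ∈ p.2, Spt w p.1 z}) with hΦ
  have hsub : 𝒞 ⊆ (((V ×ˢ (V.powerset.filter (fun A => A.card ≤ K))).image Φ : Finset _) : Set _) := by
    intro c hc
    obtain ⟨P, y, hy, rfl, h1, h2, h3, h4⟩ := h𝒞 c hc
    have hPV : ∀ z ∈ P.1, z ∈ V := fun z hz => (hmV z).2 ⟨(h1 z hz).1.trans h2, (h1 z hz).2⟩
    set A := V.filter (fun z => z ∈ P.1 ∧ ds y z ≤ t) with hA
    have hAe : (A : Set (Vtx H)) = {z ∈ P.1 | ds y z ≤ t} := by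
      ext z
      rw [hA, Finset.mem_coe, Finset.mem_filter]
      exact ⟨fun h => h.2, fun h => ⟨hPV z h.1, h⟩⟩
    rw [Finset.coe_image]
    refine ⟨(y, A), ?_, ?_⟩
    · rw [Finset.mem_coe, Finset.mem_product, Finset.mem_filter, Finset.mem_powerset]
      refine ⟨hPV y hy, Finset.filter_subset _ _, ?_⟩
      rw [← hAe, Set.encard_coe_eq_coe_finsetCard] at h4
      exact_mod_cast h4
    · rw [hΦ]
      simp only [Cf, Prod.mk.injEq, true_and]
      refine ⟨hAe, ?_⟩
      ext w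
      simp only [Set.mem_ofPred_eq]
      constructor
      · rintro ⟨h5, z, hz, h6⟩
        have hz' : z ∈ P.1 ∧ ds y z ≤ t := (Finset.mem_filter.1 hz).2
        refine ⟨?_, z, hz'.1, hz'.2, h6⟩
        unfold Spt at h6
        by_cases h7 : w ∈ z.U
        · exact (h1 z hz'.1).1 ⟨h7, h5⟩
        · have h8 : w ∈ y.U := by
            by_contra h9
            exact h6 ⟨fun h => absurd h h9, fun h => absurd h h7⟩
          exact (h1 y hy).1 ⟨h8, h5⟩
      · rintro ⟨h5, z, hz, hd, h6⟩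
        exact ⟨h3 w h5, z, Finset.mem_filter.2 ⟨hPV z hz, hz, hd⟩, h6⟩
  refine (Set.encard_le_encard hsub).trans ?_
  rw [Set.encard_coe_eq_coe_finsetCard]
  have h5 : ((V ×ˢ (V.powerset.filter (fun A => A.card ≤ K))).image Φ).card ≤
      ((T.ncard + 1) ^ D) * (((T.ncard + 1) ^ D) + 1) ^ K := by
    refine Finset.card_image_le.trans ?_
    rw [Finset.card_product]
    refine Nat.mul_le_mul hVc ((Pool.Agent.H54.CV.card_small V K).trans ?_)
    exact Nat.pow_le_pow_left (Nat.succ_le_succ hVc) K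
  exact_mod_cast h5

/-- arithmetic of the exponents -/
theorem exp_arith {e s R M D K t n : ℕ} (he : e ≤ s ^ M * (R * M)) (hK : K = (2 * t + 1) ^ n) :
    ((e + 1) ^ D) * (((e + 1) ^ D) + 1) ^ K ≤
      2 ^ (4 * (D + 1) * ((s + R + 1) * (M + 1) + 1) * (t + 1) * (2 * t + 1) ^ n) := by
  set E := (s + R + 1) * (M + 1) with hE
  have h1 : e + 1 ≤ 2 ^ (E + 1) := by
    have h2 : s ^ M ≤ 2 ^ (s * M) := by
      rw [pow_mul]
      exact Nat.pow_le_pow_left Nat.lt_two_pow_self.le M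
    have h3 : R * M ≤ 2 ^ (R + M) := by
      rw [pow_add]
      exact Nat.mul_le_mul Nat.lt_two_pow_self.le Nat.lt_two_pow_self.le
    have h4 : e ≤ 2 ^ E := by
      refine he.trans ((Nat.mul_le_mul h2 h3).trans ?_)
      rw [← pow_add]
      refine Nat.pow_le_pow_right (by norm_num) ?_
      rw [hE]
      have h5 : (s + R + 1) * (M + 1) = s * M + (R + M) + (s + R * M + 1) := by ring
      rw [h5]
      exact Nat.le_add_right _ _
    have h5 : 1 ≤ 2 ^ E := Nat.one_le_two_pow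
    rw [pow_succ]
    omega
  have h2 : (e + 1) ^ D ≤ 2 ^ ((E + 1) * D) := by
    rw [pow_mul]
    exact Nat.pow_le_pow_left h1 D
  have h3 : (e + 1) ^ D + 1 ≤ 2 ^ ((E + 1) * D + 1) := by
    have h5 : 1 ≤ 2 ^ ((E + 1) * D) := Nat.one_le_two_pow
    rw [pow_succ]
    omega
  have h4 : (((e + 1) ^ D) + 1) ^ K ≤ 2 ^ (((E + 1) * D + 1) * K) := by
    rw [pow_mul]
    exact Nat.pow_le_pow_left h3 K
  refine (Nat.mul_le_mul h2 h4).trans ?_
  rw [← pow_add, ← hK]
  refine Nat.pow_le_pow_right (by norm_num) ?_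
  have hK1 : 1 ≤ K := by
    rw [hK]
    exact Nat.one_le_pow _ _ (by omega)
  have h5 : (E + 1) * D ≤ (E + 1) * D * K := Nat.le_mul_of_pos_right _ hK1
  have h6 : 4 * (D + 1) * (E + 1) * (t + 1) * K = 4 * (D + 1) * (E + 1) * K + 4 * (D + 1) * (E + 1) * K * t := by ring
  have h7 : 4 * (D + 1) * (E + 1) * K = 4 * ((E + 1) * D * K) + 4 * (E + 1) * K := by ring
  have h8 : ((E + 1) * D + 1) * K = (E + 1) * D * K + K := by ring
  have h9 : 4 * (E + 1) * K = 4 * E * K + 4 * K := by ring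
  rw [h6, h7, h8, h9]
  omega

theorem bdd_FF {n R : ℕ} (hd : Dim H n) {S : Set G} (hS : Gn G H S R) {c : X → H → ℝ} (hc : Crd G c) {ρ r : ℕ → ℕ}
    (hρ : Monotone ρ) (h3 : Monotone r) {j : ℕ} (hj : j ≤ n) {i q ι : ℕ} (hi : i ≤ n) (hq : q < (n + 1) ^ 2) (hι : ι ≤ n)
    (t a : ℕ) :
    Bdd (fun (g : G) x => FF n R ρ r S j i q ι g (c x)) t (2 ^ lamf n R S.ncard ρ r t) a ((2 * a + 1) ^ n)
      ((8 * n + 9) ^ n) := by
  set D := DD n R (r n + mm n ρ) with hD
  -- the windows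
  have hW : ∀ (g : G) (x : X), Win (g • (bs : Vtx H)) (Win0 n j S D (tt n R D i) g (c x)) := fun g x =>
    win_win0 hS (hc.pt x) hj _ _ g
  have hR : ∀ (g : G) (x : X), Rgn (FF n R ρ r S j i q ι g (c x)).1 := fun g x => rgn_reg (hW g x) _ _ _ _ _
  refine ⟨?_, ?_, ?_⟩
  · -- the number of configurations
    have hT : (Rel S D (tt n R D n) (1 : G) : Set H).Finite := rel_fin hS _ _ 1
    refine (cf_count hT D ((2 * t + 1) ^ n) t _ ?_).trans ?_
    · rintro c' ⟨x, y, hy, rfl⟩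
      have hb : (1 : G) • (bs : Vtx H) = bs := one_smul G bs
      have hP2 : ∀ h ∈ (FF n R ρ r S j i q ι (1 : G) (c x)).1.2, h ∉ (bs : Vtx H).U := by
        intro h hh
        have h1 := (hW 1 x).out h hh
        rwa [hb] at h1
      refine ⟨(FF n R ρ r S j i q ι (1 : G) (c x)).1, y, hy, rfl, ?_, ?_, hP2, Pool.Agent.H54.CV.count_rgn hd (hR 1 x) hy t⟩
      · intro z hz
        have h1 : z ∈ Pos ((1 : G) • (bs : Vtx H)) (Win0 n j S D (tt n R D i) 1 (c x)) := hz.1
        have h2 : ds (vq ((1 : G) • (bs : Vtx H)) (Win0 n j S D (tt n R D i) 1 (c x)) (cc n R (r n + mm n ρ) q)) z ≤ r ι :=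
          hz.2.2.2
        have h3' := ds_vq hd (hW 1 x) (cc n R (r n + mm n ρ) q)
        rw [hb] at h1 h2 h3'
        refine ⟨h1, ?_⟩
        have h4 := ds_triangle (bs : Vtx H) (vq (bs : Vtx H) (Win0 n j S D (tt n R D i) 1 (c x)) (cc n R (r n + mm n ρ) q)) z
        have h5 : n * cc n R (r n + mm n ρ) q + r ι ≤ D :=
          cc_le_DD hq ((h3 hι).trans (Nat.le_add_right _ _))
        omega
      · intro h hh
        exact rel_mono S D (tt_mono n R D hi) 1 hh.1
    · exact_mod_cast exp_arith (rel_card hS _ _ 1) rfl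
  · intro g x y hy
    exact Pool.Agent.H54.CV.count_rgn hd (hR g x) hy a
  · intro g x v Z hZ hv hp
    refine (Pool.Agent.H54.CV.pack_rgn hd (hR g x) v Z hZ hv hp).trans ?_
    exact_mod_cast Nat.pow_le_pow_left (by omega) n

end Pool.Agent.H37.CC
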