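import Pool.Agent.H37.CC.BdF

/-!
# THEOREM CCC, E1: constants

Fix `L`. Recursively `ρ 0 = 1`, `a = n * ρ ι + 2 * n * R`, `K ι = (100 * ((2 * a + 1) ^ n + 1) ^ 2 * (L + 1)) ^ 2`, `r ι` = the sum required below,
`ρ (ι + 1) = r ι + 1`. All these numbers are bounded by polynomials in `L`, so is `lamf ..`, so
`Nat.log 2 (Nat.log 2 (2 ^ lamf ..) + 2) ≤ L` for some large `L` (for all `ι ≤ n`).
-/

set_option autoImplicit false

namespace Pool.Agent.H37.CC

/-- the scale of the net -/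
def aa (n R : ℕ) (ρ : ℕ → ℕ) (ι : ℕ) : ℕ := n * ρ ι + 2 * n * R

/-- the radius of the near symmetries -/
def rr (n R κ : ℕ) (ρ : ℕ → ℕ) (ι : ℕ) : ℕ := (κ + 3) * ((24 * n + 4) * aa n R ρ ι + 1)

/-- bounded by a polynomial -/
private def PB (f : ℕ → ℕ) : Prop := ∃ A d : ℕ, ∀ L, f L ≤ A * (L + 1) ^ d

private theorem PB.const (c : ℕ) : PB (fun _ => c) := ⟨c, 0, fun L => by simp⟩

private theorem PB.id : PB (fun L => L) := ⟨1, 1, fun L => by simp⟩

private theorem PB.add {f g : ℕ → ℕ} (hf : PB f) (hg : PB g) : PB (fun L => f L + g L) := by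
  obtain ⟨A, d, hA⟩ := hf
  obtain ⟨B, e, hB⟩ := hg
  refine ⟨A + B, d + e, fun L => ?_⟩
  have h1 : 1 ≤ L + 1 := Nat.succ_le_succ (Nat.zero_le L)
  have h2 : (L + 1) ^ d ≤ (L + 1) ^ (d + e) := Nat.pow_le_pow_right h1 (Nat.le_add_right d e)
  have h3 : (L + 1) ^ e ≤ (L + 1) ^ (d + e) := Nat.pow_le_pow_right h1 (Nat.le_add_left e d)
  calc f L + g L ≤ A * (L + 1) ^ d + B * (L + 1) ^ e := Nat.add_le_add (hA L) (hB L)
    _ ≤ A * (L + 1) ^ (d + e) + B * (L + 1) ^ (d + e) :=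
        Nat.add_le_add (Nat.mul_le_mul_left _ h2) (Nat.mul_le_mul_left _ h3)
    _ = (A + B) * (L + 1) ^ (d + e) := by ring

private theorem PB.mul {f g : ℕ → ℕ} (hf : PB f) (hg : PB g) : PB (fun L => f L * g L) := by
  obtain ⟨A, d, hA⟩ := hf
  obtain ⟨B, e, hB⟩ := hg
  refine ⟨A * B, d + e, fun L => ?_⟩
  calc f L * g L ≤ (A * (L + 1) ^ d) * (B * (L + 1) ^ e) := Nat.mul_le_mul (hA L) (hB L)
    _ = A * B * (L + 1) ^ (d + e) := by rw [pow_add]; ring

private theorem PB.pow {f : ℕ → ℕ} (hf : PB f) (k : ℕ) : PB (fun L => f L ^ k) := by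
  induction k with
  | zero => simpa using PB.const 1
  | succ k ih =>
    have := ih.mul hf
    simpa [pow_succ] using this

private theorem PB.le {f g : ℕ → ℕ} (hg : PB g) (h : ∀ L, f L ≤ g L) : PB f := by
  obtain ⟨A, d, hA⟩ := hg
  exact ⟨A, d, fun L => (h L).trans (hA L)⟩

private theorem PB.sum {f : ℕ → ℕ → ℕ} (k : ℕ) (hf : ∀ i, PB (f i)) : PB (fun L => ∑ i ∈ Finset.range k, f i L) := by
  induction k with
  | zero => simpa using PB.const 0
  | succ k ih =>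
    have := ih.add (hf k)
    simpa [Finset.sum_range_succ] using this

private theorem PB.log {f : ℕ → ℕ} (hf : PB f) : ∃ L, Nat.log 2 (f L + 2) ≤ L := by
  obtain ⟨A, d, hA⟩ := hf
  have h1 : Filter.Tendsto (fun n : ℕ => (n : ℝ) ^ d / (2 : ℝ) ^ n) Filter.atTop (nhds 0) :=
    tendsto_pow_const_div_const_pow_of_one_lt d (by norm_num)
  have h2 : ∀ᶠ m : ℕ in Filter.atTop, (m : ℝ) ^ d / (2 : ℝ) ^ m < 1 / ((A : ℝ) + 2) :=
    h1.eventually_lt_const (by positivity)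
  obtain ⟨M, hM⟩ := (h2.and (Filter.eventually_ge_atTop 1)).exists
  obtain ⟨h3, h4⟩ := hM
  obtain ⟨L, rfl⟩ : ∃ L, M = L + 1 := ⟨M - 1, by omega⟩
  refine ⟨L, ?_⟩
  rw [← Nat.lt_succ_iff]
  refine Nat.log_lt_of_lt_pow (by omega) ?_
  have h5 : ((A : ℝ) + 2) * ((L + 1 : ℕ) : ℝ) ^ d < 2 ^ (L + 1) := by
    rw [div_lt_div_iff₀ (by positivity) (by positivity)] at h3
    nlinarith [h3]
  have h6 : (A + 2) * (L + 1) ^ d < 2 ^ (L + 1) := by exact_mod_cast h5
  have h7 : 1 ≤ (L + 1) ^ d := Nat.one_le_pow _ _ (Nat.succ_pos L)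
  calc f L + 2 ≤ A * (L + 1) ^ d + 2 * (L + 1) ^ d := Nat.add_le_add (hA L) (by omega)
    _ = (A + 2) * (L + 1) ^ d := by ring
    _ < 2 ^ (L + 1) := h6

/-- `K` as a function of the previous scale -/
private def Kf (n R L x : ℕ) : ℕ := (100 * ((2 * (n * x + 2 * n * R) + 1) ^ n + 1) ^ 2 * (L + 1)) ^ 2

/-- `r` as a function of the previous scale -/
private def rf (n R κ L x : ℕ) : ℕ :=
  (Kf n R L x + 8) * (n * x + 2 * n * R) + 2 * ((κ + 3) * ((24 * n + 4) * (n * x + 2 * n * R) + 1)) +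
    (64 * n + 64) * (n * x + 2 * n * R) + 2 * n * R + x

private def rhof (n R κ L : ℕ) : ℕ → ℕ
  | 0 => 1
  | ι + 1 => rf n R κ L (rhof n R κ L ι) + 1

private theorem rhof_le (n R κ L ι : ℕ) : rhof n R κ L ι ≤ rf n R κ L (rhof n R κ L ι) := by
  unfold rf
  omega

private theorem mono_rho (n R κ L : ℕ) : Monotone (rhof n R κ L) :=
  monotone_nat_of_le_succ fun ι => (rhof_le n R κ L ι).trans (Nat.le_succ _)

private theorem mono_r (n R κ L : ℕ) : Monotone (fun ι => rf n R κ L (rhof n R κ L ι)) := by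
  refine monotone_nat_of_le_succ fun ι => ?_
  have h1 := rhof_le n R κ L (ι + 1)
  have h2 : rhof n R κ L (ι + 1) = rf n R κ L (rhof n R κ L ι) + 1 := rfl
  show rf n R κ L (rhof n R κ L ι) ≤ rf n R κ L (rhof n R κ L (ι + 1))
  omega

private theorem rho_pos (n R κ L ι : ℕ) : 0 < rhof n R κ L ι := by
  cases ι with
  | zero => exact Nat.one_pos
  | succ ι => exact Nat.succ_pos _

private theorem PB_Kf (n R : ℕ) {f : ℕ → ℕ} (hf : PB f) : PB (fun L => Kf n R L (f L)) := by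
  unfold Kf
  exact (((PB.const 100).mul (((((PB.const 2).mul (((PB.const n).mul hf).add (PB.const _))).add (PB.const 1)).pow n).add
    (PB.const 1) |>.pow 2)).mul (PB.id.add (PB.const 1))).pow 2

private theorem PB_rf (n R κ : ℕ) {f : ℕ → ℕ} (hf : PB f) : PB (fun L => rf n R κ L (f L)) := by
  unfold rf
  have ha : PB (fun L => n * f L + 2 * n * R) := ((PB.const n).mul hf).add (PB.const _)
  exact (((((PB_Kf n R hf).add (PB.const 8)).mul ha).add ((PB.const 2).mul ((PB.const (κ + 3)).mul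
    (((PB.const (24 * n + 4)).mul ha).add (PB.const 1))))).add ((PB.const (64 * n + 64)).mul ha)).add
    (PB.const (2 * n * R)) |>.add hf

private theorem PB_rho (n R κ ι : ℕ) : PB (fun L => rhof n R κ L ι) := by
  induction ι with
  | zero => exact PB.const 1
  | succ ι ih => exact (PB_rf n R κ ih).add (PB.const 1)

private theorem PB_cc (n R : ℕ) {f : ℕ → ℕ} (hf : PB f) (q : ℕ) : PB (fun L => cc n R (f L) q) := by
  induction q with
  | zero => exact PB.const _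
  | succ q ih => exact ((PB.const (n + 1)).mul ih).add hf

private theorem PB_DD (n R : ℕ) {f : ℕ → ℕ} (hf : PB f) : PB (fun L => DD n R (f L)) := by
  unfold DD
  exact ((PB_cc n R hf _).add (PB.const _)).add (PB.const 1)

private theorem PB_tt (n R i : ℕ) {f : ℕ → ℕ} (hf : PB f) : PB (fun L => tt n R (f L) i) := by
  unfold tt
  have h1 : PB (fun L => f L + 2 * R) := hf.add (PB.const _)
  have h2 : PB (fun L => 3 * (f L + 2 * R + 1)) := (PB.const 3).mul (h1.add (PB.const 1))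
  exact ((((hf.add (PB.const 1)).mul ((h2.mul (PB.const n)).add ((PB.const 2).mul h1))).add h1).add (PB.const 1)).add
    (h2.mul (PB.const i))

private theorem PB_lamf (n R κ s : ℕ) {t : ℕ → ℕ} (ht : PB t) :
    PB (fun L => lamf n R s (rhof n R κ L) (fun ι => rf n R κ L (rhof n R κ L ι)) (t L)) := by
  unfold lamf mm
  have hD : PB (fun L => DD n R (rf n R κ L (rhof n R κ L n) + (n * rhof n R κ L (n + 1) + 1))) :=
    PB_DD n R ((PB_rf n R κ (PB_rho n R κ n)).add (((PB.const n).mul (PB_rho n R κ (n + 1))).add (PB.const 1)))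
  exact (((((PB.const 4).mul (hD.add (PB.const 1)))).mul (((PB.const (s + R + 1)).mul ((PB_tt n R n hD).add
    (PB.const 1))).add (PB.const 1))).mul (ht.add (PB.const 1))).mul ((((PB.const 2).mul ht).add (PB.const 1)).pow n)

theorem exists_con (n R κ s : ℕ) : ∃ ρ r K : ℕ → ℕ, Monotone ρ ∧ Monotone r ∧ (∀ ι ≤ n, r ι < ρ (ι + 1)) ∧ (∀ ι, 0 < ρ ι) ∧
    ∀ ι ≤ n, (K ι + 8) * aa n R ρ ι + 2 * rr n R κ ρ ι + (64 * n + 64) * aa n R ρ ι + 2 * n * R ≤ r ι ∧
      (100 * ((2 * aa n R ρ ι + 1) ^ n + 1) ^ 2 *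
        (Nat.log 2 (Nat.log 2 (2 ^ lamf n R s ρ r (rr n R κ ρ ι + (2 * n + 2) * (4 * aa n R ρ ι))) + 2) + 1)) ^ 2 ≤ K ι := by
  have hP : PB (fun L => ∑ ι ∈ Finset.range (n + 1), lamf n R s (rhof n R κ L) (fun ι => rf n R κ L (rhof n R κ L ι))
      (rr n R κ (rhof n R κ L) ι + (2 * n + 2) * (4 * aa n R (rhof n R κ L) ι))) := by
    refine PB.sum (n + 1) (f := fun ι L => lamf n R s (rhof n R κ L) (fun ι => rf n R κ L (rhof n R κ L ι))
      (rr n R κ (rhof n R κ L) ι + (2 * n + 2) * (4 * aa n R (rhof n R κ L) ι))) fun ι => ?_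
    refine PB_lamf n R κ s ?_
    unfold rr aa
    have ha : PB (fun L => n * rhof n R κ L ι + 2 * n * R) := ((PB.const n).mul (PB_rho n R κ ι)).add (PB.const _)
    exact ((PB.const (κ + 3)).mul (((PB.const (24 * n + 4)).mul ha).add (PB.const 1))).add
      ((PB.const (2 * n + 2)).mul ((PB.const 4).mul ha))
  obtain ⟨L, hL⟩ := hP.log
  refine ⟨rhof n R κ L, fun ι => rf n R κ L (rhof n R κ L ι), fun ι => Kf n R L (rhof n R κ L ι), mono_rho n R κ L,
    mono_r n R κ L, fun ι _ => Nat.lt_succ_self _, rho_pos n R κ L, fun ι hι => ⟨?_, ?_⟩⟩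
  · show (Kf n R L (rhof n R κ L ι) + 8) * (n * rhof n R κ L ι + 2 * n * R) +
      2 * ((κ + 3) * ((24 * n + 4) * (n * rhof n R κ L ι + 2 * n * R) + 1)) +
      (64 * n + 64) * (n * rhof n R κ L ι + 2 * n * R) + 2 * n * R ≤ rf n R κ L (rhof n R κ L ι)
    unfold rf
    exact Nat.le_add_right _ _
  · have h1 : Nat.log 2 (Nat.log 2 (2 ^ lamf n R s (rhof n R κ L) (fun ι => rf n R κ L (rhof n R κ L ι))
        (rr n R κ (rhof n R κ L) ι + (2 * n + 2) * (4 * aa n R (rhof n R κ L) ι))) + 2) ≤ L := by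
      rw [Nat.log_pow (by norm_num)]
      refine (Nat.log_mono_right ?_).trans hL
      refine Nat.add_le_add_right ?_ 2
      exact Finset.single_le_sum (f := fun ι => lamf n R s (rhof n R κ L) (fun ι => rf n R κ L (rhof n R κ L ι))
        (rr n R κ (rhof n R κ L) ι + (2 * n + 2) * (4 * aa n R (rhof n R κ L) ι))) (fun i _ => Nat.zero_le _)
        (Finset.mem_range.2 (Nat.lt_succ_of_le hι))
    show _ ≤ (100 * ((2 * (n * rhof n R κ L ι + 2 * n * R) + 1) ^ n + 1) ^ 2 * (L + 1)) ^ 2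
    exact Nat.pow_le_pow_left (Nat.mul_le_mul_left _ (Nat.add_le_add_right h1 1)) 2

end Pool.Agent.H37.CC
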