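import Mathlib

/-!
# THEOREM CCC: the common definitions

`H`: the half-spaces, a partial order with an antitone involution `st` (complement). `IsVertex x`: `x : Set H` contains exactly one of
`h`, `st h` and is closed upwards. `Bas H`: a base vertex `o`; above every half-space only finitely many do not contain `o`.
`Vtx H`: the vertices at finite distance from `o`. `ds y z`: the number of half-spaces with `z` inside and `y` outside. `dep y h`: the
number of half-spaces `k ≥ h` with `y` outside. `BAct G H`: `G` acts, moves `o` by finite distances, every half-space contains a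
translate of `o`.
-/

set_option autoImplicit false

namespace Pool.Agent.H37.CC

open scoped Pointwise

/-- complements -/
class Poc (H : Type) [PartialOrder H] where
  st : H → H
  st_st : ∀ h : H, st (st h) = h
  st_le : ∀ {h k : H}, h ≤ k → st k ≤ st h
  not_le : ∀ h : H, ¬ h ≤ st h

export Poc (st)

section

variable {H : Type} [PartialOrder H] [Poc H]

/-- crossing half-spaces -/
def Crs (h k : H) : Prop := ¬ h ≤ k ∧ ¬ k ≤ h ∧ ¬ h ≤ st k ∧ ¬ st k ≤ h

/-- vertices -/
structure IsVertex (x : Set H) : Prop where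
  one : ∀ h, st h ∈ x ↔ h ∉ x
  up : ∀ {h k}, h ∈ x → h ≤ k → k ∈ x

end

/-- at most `n` half-spaces are pairwise crossing -/
def Dim (H : Type) [PartialOrder H] [Poc H] (n : ℕ) : Prop :=
  ∀ F : Finset H, (∀ h ∈ F, ∀ k ∈ F, h ≠ k → Crs h k) → F.card ≤ n

/-- actions by automorphisms -/
class PAct (G H : Type) [Group G] [PartialOrder H] [Poc H] [MulAction G H] : Prop where
  smul_le : ∀ (g : G) (h k : H), g • h ≤ g • k ↔ h ≤ k
  smul_st : ∀ (g : G) (h : H), g • st h = st (g • h)

/-- a base vertex -/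
class Bas (H : Type) [PartialOrder H] extends Poc H where
  o : Set H
  vtx : IsVertex o
  fin_up : ∀ h : H, {k | h ≤ k ∧ k ∉ o}.Finite

/-- actions with a base vertex -/
class BAct (G H : Type) [Group G] [PartialOrder H] [Bas H] [MulAction G H] : Prop extends PAct G H where
  fin : ∀ g : G, {h : H | g⁻¹ • h ∈ (Bas.o : Set H) ∧ h ∉ (Bas.o : Set H)}.Finite
  sep : ∀ h : H, ∃ g : G, g⁻¹ • h ∈ (Bas.o : Set H)

/-- the vertices at finite distance from the base vertex -/
structure Vtx (H : Type) [PartialOrder H] [Bas H] where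
  U : Set H
  isV : IsVertex U
  fin : (U \ Bas.o).Finite

section

variable {H : Type} [PartialOrder H] [Bas H]

theorem Vtx.ext' {y z : Vtx H} (h : ∀ k, k ∈ y.U ↔ k ∈ z.U) : y = z := by
  cases y
  cases z
  simp only [Vtx.mk.injEq]
  exact Set.ext h

theorem Vtx.st_mem (y : Vtx H) {h : H} : st h ∈ y.U ↔ h ∉ y.U := y.isV.one h

theorem Vtx.up (y : Vtx H) {h k : H} (hh : h ∈ y.U) (hk : h ≤ k) : k ∈ y.U := y.isV.up hh hk

theorem st_st (h : H) : st (st h) = h := Poc.st_st h

theorem st_le {h k : H} (hk : h ≤ k) : st k ≤ st h := Poc.st_le hk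

theorem st_le_comm {h k : H} : st h ≤ k ↔ st k ≤ h := by
  constructor
  · intro e
    have := st_le e
    rwa [st_st] at this
  · intro e
    have := st_le e
    rwa [st_st] at this

theorem le_st_comm {h k : H} : h ≤ st k ↔ k ≤ st h := by
  constructor
  · intro e
    have := st_le e
    rwa [st_st] at this
  · intro e
    have := st_le e
    rwa [st_st] at this

theorem st_inj {h k : H} (e : st h = st k) : h = k := by
  rw [← st_st h, e, st_st]

/-- the base vertex -/
def bs : Vtx H where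
  U := Bas.o
  isV := Bas.vtx
  fin := by
    rw [Set.sdiff_self]
    exact Set.finite_empty

/-- the distance of two vertices -/
noncomputable def ds (y z : Vtx H) : ℕ := (z.U \ y.U).ncard

/-- the depth of a half-space as seen from a vertex -/
noncomputable def dep (y : Vtx H) (h : H) : ℕ := {k | h ≤ k ∧ k ∉ y.U}.ncard

/-- `w` separates `y` and `z` -/
def Spt (w : H) (y z : Vtx H) : Prop := ¬ (w ∈ y.U ↔ w ∈ z.U)

theorem diff_fin (y z : Vtx H) : (z.U \ y.U).Finite := by
  have h1 : (Bas.o \ y.U : Set H).Finite := by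
    refine (y.fin.image st).subset ?_
    rintro h ⟨h1, h2⟩
    refine ⟨st h, ⟨y.st_mem.2 h2, ?_⟩, st_st h⟩
    rw [Bas.vtx.one h, not_not]
    exact h1
  refine (z.fin.union h1).subset ?_
  rintro h ⟨h2, h3⟩
  by_cases h4 : h ∈ (Bas.o : Set H)
  · exact Or.inr ⟨h4, h3⟩
  · exact Or.inl ⟨h2, h4⟩

theorem dep_fin (y : Vtx H) (h : H) : {k | h ≤ k ∧ k ∉ y.U}.Finite := by
  refine ((Bas.fin_up h).union (diff_fin y bs)).subset ?_
  rintro k ⟨h1, h2⟩
  by_cases h4 : k ∈ (Bas.o : Set H)
  · exact Or.inr ⟨h4, h2⟩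
  · exact Or.inl ⟨h1, h4⟩

end

section

variable {G H : Type} [Group G] [PartialOrder H] [Bas H] [MulAction G H] [BAct G H]

theorem smul_le {g : G} {h k : H} : g • h ≤ g • k ↔ h ≤ k := PAct.smul_le g h k

theorem smul_lt {g : G} {h k : H} : g • h < g • k ↔ h < k := by
  rw [lt_iff_le_not_ge, lt_iff_le_not_ge, smul_le, smul_le]

theorem smul_st (g : G) (h : H) : g • st h = st (g • h) := PAct.smul_st g h

instance : MulAction G (Vtx H) where
  smul g y :=
    { U := {h | g⁻¹ • h ∈ y.U}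
      isV :=
        { one := by
            intro h
            show g⁻¹ • st h ∈ y.U ↔ g⁻¹ • h ∉ y.U
            rw [smul_st, y.st_mem]
          up := by
            intro h k h1 h2
            exact y.up (h := g⁻¹ • h) h1 (smul_le.2 h2) }
      fin := by
        have h1 : ((fun h => g • h) '' (y.U \ Bas.o)).Finite := y.fin.image _
        refine (h1.union (BAct.fin g)).subset ?_
        rintro h ⟨h2, h3⟩
        by_cases h4 : g⁻¹ • h ∈ (Bas.o : Set H)
        · exact Or.inr ⟨h4, h3⟩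
        · exact Or.inl ⟨g⁻¹ • h, ⟨h2, h4⟩, smul_inv_smul g h⟩ }
  one_smul y := by
    refine Vtx.ext' fun k => ?_
    show (1 : G)⁻¹ • k ∈ y.U ↔ k ∈ y.U
    rw [inv_one, one_smul]
  mul_smul a b y := by
    refine Vtx.ext' fun k => ?_
    show (a * b)⁻¹ • k ∈ y.U ↔ b⁻¹ • (a⁻¹ • k) ∈ y.U
    rw [mul_inv_rev, mul_smul]

theorem mem_smul {g : G} {y : Vtx H} {h : H} : h ∈ (g • y).U ↔ g⁻¹ • h ∈ y.U := Iff.rfl

theorem smul_mem_smul {g : G} {y : Vtx H} {h : H} : g • h ∈ (g • y).U ↔ h ∈ y.U := by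
  rw [mem_smul, inv_smul_smul]

/-- the time when a half-space is seen from `g`: `0` iff `g • bs` is inside -/
noncomputable def tau (S : Set G) (g : G) (h : H) : ℕ := sInf {m | ∃ w ∈ S ^ m, h ∈ ((g * w) • (bs : Vtx H)).U}

/-- the sum of the times over the half-spaces above `h` which do not contain `g • bs` -/
noncomputable def smt (S : Set G) (g : G) (h : H) : ℕ := ∑ᶠ k ∈ {k | h ≤ k ∧ k ∉ (g • (bs : Vtx H)).U}, tau S g k

/-- `S` is a finite symmetric generating set with `1`, its elements move the base vertex by at most `R` -/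
structure Gn (G H : Type) [Group G] [PartialOrder H] [Bas H] [MulAction G H] [BAct G H] (S : Set G) (R : ℕ) : Prop where
  fin : S.Finite
  one : (1 : G) ∈ S
  inv : ∀ s ∈ S, s⁻¹ ∈ S
  gen : ∀ g : G, ∃ m : ℕ, g ∈ S ^ m
  mov : ∀ s ∈ S, ds (bs : Vtx H) (s • bs) ≤ R

/-- subgroups with a bounded orbit have at most `N` elements -/
def BF (G H : Type) [Group G] [PartialOrder H] [Bas H] [MulAction G H] [BAct G H] (N : ℕ) : Prop :=
  ∀ B : Subgroup G, (∃ M, ∀ b ∈ B, ds (bs : Vtx H) (b • bs) ≤ M) → (B : Set G).encard ≤ N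

/-- the configuration of radius `r` of the region `P` at `y` -/
def Cf (r : ℕ) (P : Set (Vtx H) × Set H) (y : Vtx H) : Vtx H × Set (Vtx H) × Set H :=
  (y, {z ∈ P.1 | ds y z ≤ r}, {w ∈ P.2 | ∃ z ∈ P.1, ds y z ≤ r ∧ Spt w y z})

/-- the near symmetries of the region `P` at `y`: distance at most `b`, radius `r` -/
def Tb (G : Type) {H : Type} [Group G] [PartialOrder H] [Bas H] [MulAction G H] [BAct G H] (b r : ℕ)
    (P : Set (Vtx H) × Set H) (y : Vtx H) : Set G :=
  {γ | γ • y ∈ P.1 ∧ ds y (γ • y) ≤ b ∧ Cf r P (γ • y) = γ • Cf r P y}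

end

/-- regions: `P.1` are vertices, `P.2` the half-spaces which are used -/
structure Rgn {H : Type} [PartialOrder H] [Bas H] (P : Set (Vtx H) × Set H) : Prop where
  fin1 : P.1.Finite
  fin2 : P.2.Finite
  nf : ∀ h ∈ P.2, ∀ k ∈ P.2, ¬ h ≤ st k ∧ ¬ st h ≤ k
  sep : ∀ y ∈ P.1, ∀ z ∈ P.1, ∀ h, h ∈ y.U → h ∉ z.U → h ∈ P.2 ∨ st h ∈ P.2
  up : ∀ h ∈ P.2, ∀ k, h ≤ k → (∃ y ∈ P.1, k ∉ y.U) → k ∈ P.2

end Pool.Agent.H37.CC
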