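import Pool.Agent.H37.CC.NetI
import Pool.Agent.H37.CC.Ta
import Pool.Agent.H37.CC.WinA
import Pool.Agent.H37.CC.Agr

/-!
# THEOREM CCC, G8: the families of the fractional walls

`Rel S D θ g` is finite (P4), so `Rb0` is open and the classification is locally constant on it (`opn_rb`). Equivariance: `Rel S D θ (g * h) = g • Rel S D θ h`
(`dep`, `smt` are equivariant, P4). Stabiliser of a nonempty finite set `A` of half-spaces: a subgroup of finite index fixes an element of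
`A`. Multiplicity `1`: `A` is determined by `g`, `x`.
-/

set_option autoImplicit false

namespace Pool.Agent.H37.CC

open scoped Pointwise
open Pool.Agent.H98.FJ Pool.Agent.H37.PT Pool.Agent.H76.GT

variable {G X H : Type} [Group G] [TopologicalSpace X] [MulAction G X] [PartialOrder H] [Bas H] [MulAction G H] [BAct G H]

private theorem frf_al {n j : ℕ} (hj : j ≤ n) : al n j < be n j ∧ be n j < 1 / 2 := by
  have h0 : (0 : ℝ) < 4 * n + 6 := by positivity
  have h1 : (j : ℝ) ≤ n := by exact_mod_cast hj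
  refine ⟨?_, ?_⟩
  · unfold al be
    exact div_lt_div_of_pos_right (by linarith) h0
  · unfold be
    rw [div_lt_iff₀ h0]
    linarith

omit [TopologicalSpace X] [MulAction G X] [MulAction G H] [BAct G H] [Group G] in
private theorem frf_lt_frc {n j : ℕ} (hj : j ≤ n) {ψ : H → ℝ} {h : H} (h1 : ψ h < al n j) : ¬ frc n j ψ h := by
  intro h2
  have := frf_al hj
  have := h2.1
  linarith

private theorem frf_lt_inn {n j : ℕ} (hj : j ≤ n) {ψ : H → ℝ} {h : H} (h1 : ψ h < al n j) : ¬ inn n j ψ h := by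
  intro h2
  have := frf_al hj
  have h3 : 1 - al n j < ψ h := h2
  linarith

private theorem frf_frc_inn {n j : ℕ} (hj : j ≤ n) {ψ : H → ℝ} {h : H} (h1 : frc n j ψ h) : ¬ inn n j ψ h := by
  intro h2
  have := frf_al hj
  have h3 : 1 - al n j < ψ h := h2
  have h4 := h1.2
  linarith

private theorem frf_nhd {n : ℕ} {c : X → H → ℝ} (hc : Crd G c) {j : ℕ} (hj : j ≤ n) (x0 : X) (h : H) (h1 : rob n j (c x0) h) :
    ∃ U : Set X, IsOpen U ∧ x0 ∈ U ∧ ∀ x ∈ U, rob n j (c x) h ∧ (inn n j (c x) h ↔ inn n j (c x0) h) ∧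
      (frc n j (c x) h ↔ frc n j (c x0) h) := by
  have hcont := hc.cont h
  rcases h1 with h1 | h1 | h1
  · refine ⟨{x | c x h < al n j}, isOpen_lt hcont continuous_const, h1, fun x hx => ?_⟩
    have hx' : c x h < al n j := hx
    exact ⟨Or.inl hx', ⟨fun e => absurd e (frf_lt_inn hj hx'), fun e => absurd e (frf_lt_inn hj h1)⟩,
      ⟨fun e => absurd e (frf_lt_frc hj hx'), fun e => absurd e (frf_lt_frc hj h1)⟩⟩
  · refine ⟨{x | be n j < c x h ∧ c x h < 1 - be n j},
      (isOpen_lt continuous_const hcont).inter (isOpen_lt hcont continuous_const), h1, fun x hx => ?_⟩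
    have hx' : frc n j (c x) h := hx
    exact ⟨Or.inr (Or.inl hx'), ⟨fun e => absurd e (frf_frc_inn hj hx'), fun e => absurd e (frf_frc_inn hj h1)⟩,
      ⟨fun _ => h1, fun _ => hx'⟩⟩
  · refine ⟨{x | 1 - al n j < c x h}, isOpen_lt continuous_const hcont, h1, fun x hx => ?_⟩
    have hx' : inn n j (c x) h := hx
    exact ⟨Or.inr (Or.inr hx'), ⟨fun _ => h1, fun _ => hx'⟩,
      ⟨fun e => absurd hx' (frf_frc_inn hj e), fun e => absurd h1 (frf_frc_inn hj e)⟩⟩

theorem opn_rb {n R : ℕ} {S : Set G} (hS : Gn G H S R) {c : X → H → ℝ} (hc : Crd G c) {j : ℕ} (hj : j ≤ n) (D θ : ℕ) (g : G)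
    (p : Set H → Set H → Prop) :
    IsOpen {x | x ∈ Rb0 c n j S D θ g ∧ p (Win0 n j S D θ g (c x)) (Frc0 n j S D θ g (c x))} := by
  classical
  rw [isOpen_iff_mem_nhds]
  rintro x0 ⟨h1, h2⟩
  have hex : ∀ h : H, ∃ U : Set X, h ∈ Rel S D θ g → (IsOpen U ∧ x0 ∈ U ∧ ∀ x ∈ U, rob n j (c x) h ∧
      (inn n j (c x) h ↔ inn n j (c x0) h) ∧ (frc n j (c x) h ↔ frc n j (c x0) h)) := by
    intro h
    by_cases hh : h ∈ Rel S D θ g
    · obtain ⟨U, hU⟩ := frf_nhd hc hj x0 h (h1 h hh)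
      exact ⟨U, fun _ => hU⟩
    · exact ⟨∅, fun e => absurd e hh⟩
  choose U hU using hex
  have hopen : IsOpen (⋂ h ∈ Rel S D θ g, U h) := (rel_fin hS D θ g).isOpen_biInter fun h hh => (hU h hh).1
  refine Filter.mem_of_superset (hopen.mem_nhds (Set.mem_iInter₂.2 fun h hh => (hU h hh).2.1)) ?_
  intro x hx
  have hx' : ∀ h ∈ Rel S D θ g, rob n j (c x) h ∧ (inn n j (c x) h ↔ inn n j (c x0) h) ∧
      (frc n j (c x) h ↔ frc n j (c x0) h) := fun h hh => (hU h hh).2.2 x (Set.mem_iInter₂.1 hx h hh)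
  have e1 : Win0 n j S D θ g (c x) = Win0 n j S D θ g (c x0) := by
    ext h
    exact and_congr_right fun hh => (hx' h hh).2.1
  have e2 : Frc0 n j S D θ g (c x) = Frc0 n j S D θ g (c x0) := by
    ext h
    exact and_congr_right fun hh => (hx' h hh).2.2
  refine ⟨fun h hh => (hx' h hh).1, ?_⟩
  rw [e1, e2]
  exact h2

theorem win0_smul (S : Set G) {c : X → H → ℝ} (hc : Crd G c) (n j D θ : ℕ) (g h : G) (x : X) :
    Win0 n j S D θ (g * h) (c (g • x)) = g • Win0 n j S D θ h (c x) := by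
  ext k
  rw [Set.mem_smul_set_iff_inv_smul_mem]
  show k ∈ Rel S D θ (g * h) ∧ 1 - al n j < c (g • x) k ↔ g⁻¹ • k ∈ Rel S D θ h ∧ 1 - al n j < c x (g⁻¹ • k)
  rw [hc.smul, rel_smul, Set.mem_smul_set_iff_inv_smul_mem]

theorem frc0_smul (S : Set G) {c : X → H → ℝ} (hc : Crd G c) (n j D θ : ℕ) (g h : G) (x : X) :
    Frc0 n j S D θ (g * h) (c (g • x)) = g • Frc0 n j S D θ h (c x) := by
  ext k
  rw [Set.mem_smul_set_iff_inv_smul_mem]
  show k ∈ Rel S D θ (g * h) ∧ (be n j < c (g • x) k ∧ c (g • x) k < 1 - be n j) ↔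
    g⁻¹ • k ∈ Rel S D θ h ∧ (be n j < c x (g⁻¹ • k) ∧ c x (g⁻¹ • k) < 1 - be n j)
  rw [hc.smul, rel_smul, Set.mem_smul_set_iff_inv_smul_mem]

theorem rb0_smul (S : Set G) {c : X → H → ℝ} (hc : Crd G c) (n j D θ : ℕ) (g h : G) (x : X) (hx : x ∈ Rb0 c n j S D θ h) :
    g • x ∈ Rb0 c n j S D θ (g * h) := by
  intro k hk
  rw [rel_smul, Set.mem_smul_set_iff_inv_smul_mem] at hk
  have h1 := hx _ hk
  unfold rob frc inn at h1 ⊢
  rw [hc.smul]
  exact h1

private theorem frf_wl_smul (g : G) (A : Set H) : wl (g • A) = g • wl A := by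
  ext k
  rw [Set.mem_smul_set_iff_inv_smul_mem]
  show k ∈ g • A ∨ st k ∈ g • A ↔ g⁻¹ • k ∈ A ∨ st (g⁻¹ • k) ∈ A
  rw [Set.mem_smul_set_iff_inv_smul_mem, Set.mem_smul_set_iff_inv_smul_mem, smul_st]

private theorem frf_wl_fin {A : Set H} (hA : A.Finite) : (wl A).Finite := by
  refine (hA.union (hA.image st)).subset ?_
  rintro k (h1 | h1)
  · exact Or.inl h1
  · exact Or.inr ⟨st k, h1, st_st k⟩

private theorem frf_stab {C : (G : Type) → [Group G] → Prop} (hC : Inherits C) (hst : ∀ w : H, C (MulAction.stabilizer G w))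
    {A : Set H} (hA : A.Finite) (hne : A.Nonempty) : C (MulAction.stabilizer G A) := by
  obtain ⟨a, ha⟩ := hne
  let K : Subgroup G := MulAction.stabilizer G A
  have horb : (MulAction.orbit K a).Finite := by
    refine hA.subset ?_
    rintro _ ⟨⟨k, hk⟩, rfl⟩
    have h1 : k • A = A := hk
    rw [← h1]
    exact Set.smul_mem_smul_set ha
  have hfq : Finite (K ⧸ MulAction.stabilizer K a) := by
    have := horb.to_subtype
    exact Finite.of_equiv _ (MulAction.orbitEquivQuotientStabilizer K a)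
  have hfi : (MulAction.stabilizer K a).FiniteIndex := Subgroup.finiteIndex_of_finite_quotient
  refine hC.index K (MulAction.stabilizer K a) hfi ?_
  let ψ : MulAction.stabilizer K a →* MulAction.stabilizer G a :=
    { toFun := fun x => ⟨(x.1 : G), x.2⟩
      map_one' := rfl
      map_mul' := fun _ _ => rfl }
  refine hC.of_injective ψ ?_ (hst a)
  intro x y hxy
  have h1 : ((x.1 : K) : G) = y.1 := congrArg (fun z : MulAction.stabilizer G a => (z : G)) hxy
  exact Subtype.ext (Subtype.ext h1)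

theorem frc_fam {C : (G : Type) → [Group G] → Prop} (hC : Inherits C) (hst : ∀ w : H, C (MulAction.stabilizer G w))
    {n R : ℕ} {S : Set G} (hS : Gn G H S R) {c : X → H → ℝ} (hc : Crd G c) {j : ℕ} (hj : j ≤ n) (D θ : ℕ) :
    IsFam C 1 (fun (A : Set H) (g : G) => {x | x ∈ Rb0 c n j S D θ g ∧ A.Nonempty ∧ wl (Frc0 n j S D θ g (c x)) = A}) := by
  refine ⟨fun A g => ?_, fun A g h x hx => ?_, fun A g h x hx hx' => ?_, fun A h x hx => ?_, fun h x => ?_⟩
  · exact opn_rb hS hc hj D θ g (fun _ F => A.Nonempty ∧ wl F = A)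
  · obtain ⟨h1, h2, h3⟩ := hx
    refine ⟨rb0_smul S hc n j D θ g h x h1, h2.smul_set, ?_⟩
    rw [frc0_smul S hc, frf_wl_smul, h3]
  · rw [← hx'.2.2, hx.2.2]
  · obtain ⟨-, h2, h3⟩ := hx
    refine frf_stab hC hst ?_ h2
    rw [← h3]
    exact frf_wl_fin ((rel_fin hS D θ h).subset fun k hk => hk.1)
  · rw [Nat.cast_one]
    refine le_trans (Set.encard_le_encard (t := {wl (Frc0 n j S D θ h (c x))}) ?_) (Set.encard_singleton _).le
    rintro A hA
    exact hA.2.2.symm

/-- the system of regions -/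
theorem sys_FF {n R : ℕ} {S : Set G} (hS : Gn G H S R) {c : X → H → ℝ} (hc : Crd G c) (ρ r : ℕ → ℕ) {j : ℕ} (hj : j ≤ n)
    (i q ι : ℕ) :
    Sys (fun g => Rb0 c n j S (DD n R (r n + mm n ρ)) (tt n R (DD n R (r n + mm n ρ)) i) g)
      (fun g x => FF n R ρ r S j i q ι g (c x)) := by
  refine ⟨fun g p => ?_, fun g h x hx => rb0_smul S hc n j _ _ g h x hx, fun g h x => ?_, fun g x => ?_⟩
  · exact opn_rb hS hc hj _ _ g (fun U _ => p ((Reg (g • bs) U (mm n ρ) (ρ (ι + 1))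
      (cc n R (r n + mm n ρ) q) (ll n R q) (r ι), U), vq (g • bs) U (cc n R (r n + mm n ρ) q)))
  · show ((Reg ((g * h) • bs) (Win0 n j S _ _ (g * h) (c (g • x))) _ _ _ _ _, Win0 n j S _ _ (g * h) (c (g • x))),
        vq ((g * h) • bs) (Win0 n j S _ _ (g * h) (c (g • x))) _) =
      ((g • Reg (h • bs) (Win0 n j S _ _ h (c x)) _ _ _ _ _, g • Win0 n j S _ _ h (c x)),
        g • vq (h • bs) (Win0 n j S _ _ h (c x)) _)
    rw [win0_smul S hc, mul_smul, reg_smul, vq_smul]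
  · exact rgn_reg (win_win0 hS (hc.pt x) hj _ _ g) _ _ _ _ _

end Pool.Agent.H37.CC
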