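import Pool.Agent.H37.CC.WinA

/-!
# THEOREM CCC, G3: good centres

Suppose that `q` is not good: a position `y q` and `h ∈ U`, `dep v h ≤ l q + 2 R`, `h ∉ y q`; let `k q ≥ h` be maximal in `U` outside `y q`:
available at `y q`, `l q < dep v (k q) + 2 R` (otherwise it is in `y q`), `dep v (k q) ≤ l q + 2 R`. `Sat`: a chain
`k q = f 0 > f 1 > ..` of length `ρ` in `U` outside `y q` with `dep (y q) ≤ m`, so (`dep_le_pos`, `ds_vq`, triangle inequality)
`dep v (f t) ≤ n * c q + r + m ≤ c q'` for `q < q'`. If `q < q'`: `k q' ≤ k q` is impossible (`dep v (k q') ≤ l q' + 2 R ≤ l q - 2 R <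
dep v (k q)`). If `k q < k q'`: all `f t ≤ k q < k q'` are outside `y q'` and inside `vq v U (c q')`: `ds (vq ..) (y q') ≥ ρ > r`,
contradiction. So the `k q` are distinct and pairwise crossing (no disjoint pairs in `U`, all outside `v`): at most `n`.
-/

set_option autoImplicit false

namespace Pool.Agent.H37.CC

open scoped Pointwise

variable {H : Type} [PartialOrder H] [Bas H]

/-- a position which shows that a centre is not good -/
theorem bad_spec {n : ℕ} (hd : Dim H n) {v : Vtx H} {U : Set H} (hW : Win v U) {m ρ R r c l : ℕ}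
    (hb : ¬ Good v U m ρ c l R r) :
    ∃ (y : Vtx H) (k : H) (f : ℕ → H), k ∈ U ∧ k ∉ y.U ∧ ds (vq v U c) y ≤ r ∧ dep v k ≤ l + 2 * R ∧ l < dep v k + 2 * R ∧
      f 0 = k ∧ (∀ t, t + 1 < ρ → f (t + 1) < f t) ∧ ∀ t < ρ, f t ∈ U ∧ dep v (f t) ≤ n * c + r + m := by
  unfold Good at hb
  push Not at hb
  obtain ⟨y, hy, hsat, hin, hds, h, hhU, hhl, hhy⟩ := hb
  have hfin : {k | k ∈ U ∧ h ≤ k ∧ k ∉ y.U}.Finite := hW.fin.subset fun k hk => hk.1
  obtain ⟨k, hk⟩ := hfin.exists_maximal ⟨h, hhU, le_rfl, hhy⟩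
  have hkU : k ∈ U := hk.1.1
  have hhk : h ≤ k := hk.1.2.1
  have hky : k ∉ y.U := hk.1.2.2
  have hav : Av U y k := by
    refine ⟨hkU, hky, fun k' hk' hlt => ?_⟩
    by_contra h1
    exact absurd (hk.2 ⟨hk', hhk.trans hlt.le, h1⟩ hlt.le) (not_le_of_gt hlt)
  obtain ⟨f, hf0, hf1, hf2⟩ := hsat k hav
  refine ⟨y, k, f, hkU, hky, hds, (dep_anti v hhk).trans hhl, ?_, hf0, hf2, fun t ht => ⟨(hf1 t ht).1, ?_⟩⟩
  · by_contra h1
    exact hky (hin k hkU (not_lt.1 h1))
  · have h1 := dep_le_pos hW hy (hf1 t ht).1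
    have h2 := ds_triangle v (vq v U c) y
    have h3 := ds_vq hd hW c
    have h4 := (hf1 t ht).2.2
    omega

theorem exists_good {n : ℕ} (hd : Dim H n) {v : Vtx H} {U : Set H} (hW : Win v U) {m ρ R r : ℕ} {c l : ℕ → ℕ} {Q : Finset ℕ}
    (hQ : n < Q.card) (hc : ∀ q ∈ Q, ∀ q' ∈ Q, q < q' → n * c q + r + m ≤ c q')
    (hl : ∀ q ∈ Q, ∀ q' ∈ Q, q < q' → l q' + 4 * R ≤ l q) (hr : r < ρ) :
    ∃ q ∈ Q, Good v U m ρ (c q) (l q) R r := by
  classical
  by_contra hcon
  push Not at hcon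
  have hQne : Q.Nonempty := Finset.card_pos.1 (by omega)
  obtain ⟨q0, hq0⟩ := hQne
  have h0 : Nonempty (Vtx H × H × (ℕ → H)) := by
    obtain ⟨y, k, f, _⟩ := bad_spec hd hW (hcon q0 hq0)
    exact ⟨(y, k, f)⟩
  have hex : ∀ q, ∃ x : Vtx H × H × (ℕ → H), q ∈ Q → x.2.1 ∈ U ∧ x.2.1 ∉ x.1.U ∧ ds (vq v U (c q)) x.1 ≤ r ∧
      dep v x.2.1 ≤ l q + 2 * R ∧ l q < dep v x.2.1 + 2 * R ∧ x.2.2 0 = x.2.1 ∧
      (∀ t, t + 1 < ρ → x.2.2 (t + 1) < x.2.2 t) ∧ ∀ t < ρ, x.2.2 t ∈ U ∧ dep v (x.2.2 t) ≤ n * c q + r + m := by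
    intro q
    by_cases hq : q ∈ Q
    · obtain ⟨y, k, f, h1⟩ := bad_spec hd hW (hcon q hq)
      exact ⟨(y, k, f), fun _ => h1⟩
    · exact ⟨h0.some, fun h => absurd h hq⟩
  choose x hx using hex
  have key : ∀ q ∈ Q, ∀ q' ∈ Q, q < q' → ¬ (x q).2.1 ≤ (x q').2.1 ∧ ¬ (x q').2.1 ≤ (x q).2.1 := by
    intro q hq q' hq' hlt
    obtain ⟨a1, a2, a3, a4, a5, a6, a7, a8⟩ := hx q hq
    obtain ⟨b1, b2, b3, b4, b5, b6, b7, b8⟩ := hx q' hq'
    constructor
    · intro hle
      have hanti : ∀ t, t < ρ → (x q).2.2 t ≤ (x q).2.1 := by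
        intro t
        induction t with
        | zero => intro _; exact a6.le
        | succ t ih => intro ht; exact (a7 t ht).le.trans (ih (by omega))
      have hlt' : ∀ d s, s + d + 1 < ρ → (x q).2.2 (s + d + 1) < (x q).2.2 s := by
        intro d
        induction d with
        | zero => intro s hs; exact a7 s hs
        | succ d ih => intro s hs; exact (a7 (s + (d + 1)) hs).trans (ih s (by omega))
      have hinj : Set.InjOn (x q).2.2 (Finset.range ρ : Set ℕ) := by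
        intro s hs t ht e
        rw [Finset.mem_coe, Finset.mem_range] at hs ht
        rcases lt_trichotomy s t with h1 | h1 | h1
        · obtain ⟨d, rfl⟩ := Nat.exists_eq_add_of_lt h1
          exact absurd e (ne_of_gt (hlt' d s ht))
        · exact h1
        · obtain ⟨d, rfl⟩ := Nat.exists_eq_add_of_lt h1
          exact absurd e (ne_of_lt (hlt' d t hs))
      have hsub : (x q).2.2 '' (Finset.range ρ : Set ℕ) ⊆ (vq v U (c q')).U \ (x q').1.U := by
        rintro _ ⟨t, ht, rfl⟩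
        rw [Finset.mem_coe, Finset.mem_range] at ht
        refine ⟨?_, fun h1 => b2 ((x q').1.up h1 ((hanti t ht).trans hle))⟩
        have h1 : (x q).2.2 t ∈ {k ∈ U | dep v k ≤ c q'} :=
          ⟨(a8 t ht).1, (a8 t ht).2.trans (hc q hq q' hq' hlt)⟩
        rw [← vq_spec hW (c q')] at h1
        exact h1.1
      have h1 : ρ ≤ ds (x q').1 (vq v U (c q')) := by
        have h2 := Set.ncard_le_ncard hsub (diff_fin (x q').1 (vq v U (c q')))
        rw [hinj.ncard_image, Set.ncard_coe_finset, Finset.card_range] at h2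
        exact h2
      rw [ds_comm] at h1
      omega
    · intro hle
      have h1 := dep_anti v hle
      have h2 := hl q hq q' hq' hlt
      omega
  have key' : ∀ q ∈ Q, ∀ q' ∈ Q, q ≠ q' → ¬ (x q).2.1 ≤ (x q').2.1 ∧ ¬ (x q').2.1 ≤ (x q).2.1 := by
    intro q hq q' hq' hne
    rcases lt_or_gt_of_ne hne with h1 | h1
    · exact key q hq q' hq' h1
    · exact (key q' hq' q hq h1).symm
  have hinj : Set.InjOn (fun q => (x q).2.1) (Q : Set ℕ) := by
    intro q hq q' hq' e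
    by_contra hne
    exact (key' q hq q' hq' hne).1 (le_of_eq e)
  have hcard := hd (Q.image fun q => (x q).2.1) (by
    intro h hh k hk hne
    rw [Finset.mem_image] at hh hk
    obtain ⟨q, hq, rfl⟩ := hh
    obtain ⟨q', hq', rfl⟩ := hk
    have hne' : q ≠ q' := fun e => hne (by rw [e])
    exact crs_out (hW.out _ (hx q hq).1) (hW.out _ (hx q' hq').1) (key' q hq q' hq' hne').1 (key' q hq q' hq' hne').2
      (hW.nf _ (hx q hq).1 _ (hx q' hq').1))
  rw [Finset.card_image_of_injOn hinj] at hcard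
  omega

end Pool.Agent.H37.CC
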