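import Pool.Agent.H37.CC.WinA

/-!
# THEOREM CCC, G4: the regions of two windows which agree are the same near the centre

`stab_vq`: `w = vq v U c`, `w' = vq v' U' c`. If `h ∈ w'.U`, `h ∉ w.U`: the cases with `h` between `v` and `v'` are impossible (`btw`, `btw'`,
`not`, `dep ≤ R ≤ c`); `h` outside both: `h ∈ U'`, `dep v' h ≤ c`, so `h ∈ U` (`agr`), `c < dep v h ≤ c + R`; `h` inside both: `k = st h`:
`k ∈ U`, `dep v k ≤ c`, `k ∈ U'`, `c < dep v' k`, so `c < dep v k + R`. Each of the two sets has chains of length at most `R`: at most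
`2 * n * R` (Mirsky).

`stab_reg`. First `→`. `y ∈ Reg v U`, `ds w y + 2 n R ≤ r`. (a) `y` is a position for `v', U'`: `h ∈ y.U`, `h ∉ v'.U`. If `h ∉ v.U`: `h ∈ U`,
`dep v h ≤ ds v y ≤ n c + r ≤ D`, so `h ∈ U'`. If `h ∈ v.U`: `h ∈ U'` or `st h ∈ U` (`btw'`); in the second case `dep v (st h) ≤ R ≤ l`, so
`st h ∈ y.U`, contradiction. (b) `h ∈ U'`, `dep v' h ≤ l` implies `h ∈ y.U`: if `h ∉ v.U`: `dep v h ≤ l + R`, `h ∈ U` (`agr`), `h ∈ y.U` by
`Good`. If `h ∈ v.U` and `h ∉ y.U`: `st h ∈ y.U`, `st h ∉ v.U`, so `st h ∈ U`, but `h ∈ U'`: contradiction to `not` (for `st h`).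
(c) for `h ∉ y.U`, `dep y h ≤ m`: `h ∈ U ↔ h ∈ U'`: if `h` is outside `v` and `v'`: `dep v h ≤ ds v y + dep y h ≤ n c + r + m ≤ D`
(for `h ∈ U'`: the same, `dep v h ≤ dep y h + ds v y` holds always). If `h ∈ U`, `h ∈ v'.U`: `dep v h ≤ R ≤ l`, so `h ∈ y.U`. If `h ∈ U'`,
`h ∈ v.U`: `dep v' h ≤ R ≤ l`, so `h ∈ y.U` by (b). So `Av` (an available half-space has `dep y = 1`) and `Lg` agree: `Sat`. (For `Av`: if
`h` is available for `U` then every `k ∈ U'`, `k > h`, `k ∉ y.U` has `dep y k ≤ dep y h`.) (d) `ds w' y ≤ r` by `stab_vq`.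
`←`: `y ∈ Reg v' U'`, `ds w y + 2 n R ≤ r`: (a') `h ∈ y.U`, `h ∉ v.U`: if `h ∉ v'.U`: `h ∈ U'`, `dep v h ≤ ds v y ≤ n c + r`: `h ∈ U`. If
`h ∈ v'.U`: `h ∈ U` or `st h ∈ U'`, `dep v' (st h) ≤ R ≤ l`, so `st h ∈ y.U`, contradiction. (b') `h ∈ U`, `dep v h + R ≤ l` implies
`h ∈ y.U`. (c') as (c). (d') `Good` for `v, U` (needs `Sat U m ρ y`, and `dep v h + 2 R ≤ l → h ∈ y.U` by (b')): so
`dep v h ≤ l → h ∈ y.U`.
`stab_sep`: `w` separates `y` and `z`, both in `Reg v U` and `Reg v' U'`; exactly one of `w`, `st w` is in `U` (`Rgn.sep`, `nf`), exactly one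
is in `U'`, and they agree by `not`.
-/

set_option autoImplicit false

namespace Pool.Agent.H37.CC

open scoped Pointwise

variable {H : Type} [PartialOrder H] [Bas H]

private theorem cmp_dep {v v' : Vtx H} {U U' : Set H} {R D : ℕ} (hC : Cmp R D v U v' U') {h : H} (hh : h ∈ v'.U) :
    dep v h ≤ R := (dep_btw hh).trans hC.near

private theorem cmp_near {v v' : Vtx H} {U U' : Set H} {R D : ℕ} (hC : Cmp R D v U v' U') : ds v' v ≤ R := by
  rw [ds_comm]; exact hC.near

private theorem cmp_dep' {v v' : Vtx H} {U U' : Set H} {R D : ℕ} (hC : Cmp R D v U v' U') {h : H} (hh : h ∈ v.U) :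
    dep v' h ≤ R := (dep_btw hh).trans (cmp_near hC)

private theorem sat_tr {v : Vtx H} {U U2 : Set H} (hW : Win v U) {y : Vtx H} (hy : y ∈ Pos v U) {m ρ : ℕ} (hm : 0 < m)
    (he : ∀ h, h ∉ y.U → dep y h ≤ m → (h ∈ U ↔ h ∈ U2)) (hs : Sat U2 m ρ y) : Sat U m ρ y := by
  rintro h ⟨h1, h2, h3⟩
  have hd1 : dep y h ≤ 1 := by
    have hsub : {k | h ≤ k ∧ k ∉ y.U} ⊆ {h} := by
      rintro k ⟨k1, k2⟩
      rcases k1.eq_or_lt with e | e
      · exact e.symm
      · exact absurd (h3 k (win_above hW hy h1 k1 k2) e) k2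
    refine (Set.ncard_le_ncard hsub (Set.finite_singleton h)).trans ?_
    rw [Set.ncard_singleton]
  have hdm : dep y h ≤ m := by omega
  obtain ⟨f, f1, f2, f3⟩ := hs h ⟨(he h h2 hdm).1 h1, h2, fun k hk hlt => by
    by_contra hky
    exact hky (h3 k ((he k hky ((dep_anti y hlt.le).trans hdm)).2 hk) hlt)⟩
  exact ⟨f, f1, fun t ht => ⟨(he (f t) (f2 t ht).2.1 (f2 t ht).2.2).2 (f2 t ht).1, (f2 t ht).2⟩, f3⟩

theorem stab_vq {n : ℕ} (hd : Dim H n) {v v' : Vtx H} {U U' : Set H} (hW : Win v U) (hW' : Win v' U') {R D c : ℕ}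
    (hC : Cmp R D v U v' U') (hc : R ≤ c) (hD : c + R ≤ D) : ds (vq v U c) (vq v' U' c) ≤ 2 * n * R := by
  set w := vq v U c with hw
  set w' := vq v' U' c with hw'
  have e1 : ∀ k, (k ∈ w.U ∧ k ∉ v.U) ↔ (k ∈ U ∧ dep v k ≤ c) := fun k => by
    have := Set.ext_iff.1 (vq_spec hW c) k
    exact this
  have e2 : ∀ k, (k ∈ w'.U ∧ k ∉ v'.U) ↔ (k ∈ U' ∧ dep v' k ≤ c) := fun k => by
    have := Set.ext_iff.1 (vq_spec hW' c) k
    exact this
  let A : Set H := {h | h ∈ U ∧ c < dep v h ∧ dep v h ≤ c + R}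
  let B : Set H := {h | h ∈ U ∧ c - R < dep v h ∧ dep v h ≤ c}
  have hA := mirsky_level hd (v := v) (A := A) (fun h hh => hW.out h hh.1) (fun h hh k hk => hW.nf h hh.1 k hk.1)
    (dep v) (fun h hh k _ hlt => by have := dep_lt (hW.out h hh.1) hlt; omega) (a := c) (l := R)
    (fun h hh => hh.2.1) (fun h hh => hh.2.2)
  have hB := mirsky_level hd (v := v) (A := B) (fun h hh => hW.out h hh.1) (fun h hh k hk => hW.nf h hh.1 k hk.1)
    (dep v) (fun h hh k _ hlt => by have := dep_lt (hW.out h hh.1) hlt; omega) (a := c - R) (l := R)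
    (fun h hh => hh.2.1) (fun h hh => by have := hh.2.2; omega)
  have hsub : w'.U \ w.U ⊆ A ∪ st '' B := by
    rintro h ⟨h1, h2⟩
    by_cases hv : h ∈ v.U
    · by_cases hv' : h ∈ v'.U
      · -- inside both
        right
        have k1 : st h ∈ w.U := w.st_mem.2 h2
        have k2 : st h ∉ v.U := fun h3 => v.st_mem.1 h3 hv
        have k3 : st h ∉ v'.U := fun h3 => v'.st_mem.1 h3 hv'
        have k4 := (e1 (st h)).1 ⟨k1, k2⟩
        have k5 : st h ∈ U' := (hC.agr _ k2 k3 (by omega)).1 k4.1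
        have k6 : st h ∉ w'.U := fun h3 => w'.st_mem.1 h3 h1
        have k7 : ¬ dep v' (st h) ≤ c := fun h3 => k6 ((e2 (st h)).2 ⟨k5, h3⟩).1
        have k8 := dep_le v' v (st h)
        have k9 := cmp_near hC
        refine ⟨st h, ⟨k4.1, by omega, k4.2⟩, st_st h⟩
      · exfalso
        have k1 : st h ∈ w.U := w.st_mem.2 h2
        have k2 : st h ∉ v.U := fun h3 => v.st_mem.1 h3 hv
        have k4 := (e1 (st h)).1 ⟨k1, k2⟩
        have k5 := hC.not _ k4.1
        rw [st_st] at k5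
        exact k5 ((e2 h).1 ⟨h1, hv'⟩).1
    · by_cases hv' : h ∈ v'.U
      · exfalso
        rcases hC.btw h hv hv' with h3 | h3
        · exact h2 ((e1 h).2 ⟨h3, (cmp_dep hC hv').trans hc⟩).1
        · have k1 : st h ∈ v.U := v.st_mem.2 hv
          have k2 := ((e2 (st h)).2 ⟨h3, (cmp_dep' hC k1).trans hc⟩).1
          exact w'.st_mem.1 k2 h1
      · left
        have k1 := (e2 h).1 ⟨h1, hv'⟩
        have k2 := dep_le v v' h
        have k3 := hC.near
        have k4 : h ∈ U := (hC.agr h hv hv' (by omega)).2 k1.1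
        have k5 : ¬ dep v h ≤ c := fun h3 => h2 ((e1 h).2 ⟨k4, h3⟩).1
        exact ⟨k4, by omega, by omega⟩
  have hfin : (A ∪ st '' B).Finite := hA.1.union (hB.1.image _)
  calc ds w w' = (w'.U \ w.U).ncard := rfl
    _ ≤ (A ∪ st '' B).ncard := Set.ncard_le_ncard hsub hfin
    _ ≤ A.ncard + (st '' B).ncard := Set.ncard_union_le _ _
    _ ≤ A.ncard + B.ncard := Nat.add_le_add_left (Set.ncard_image_le hB.1) _
    _ ≤ n * R + n * R := Nat.add_le_add hA.2 hB.2
    _ = 2 * n * R := by ring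

theorem stab_reg {n : ℕ} (hd : Dim H n) {v v' : Vtx H} {U U' : Set H} (hW : Win v U) (hW' : Win v' U') {R D c l m ρ r : ℕ}
    (hC : Cmp R D v U v' U') (hm : 0 < m) (hc : R ≤ c) (hl : 3 * R ≤ l) (hcl : l + R ≤ D) (hD : n * c + r + m + R ≤ D)
    (hG : Good v U m ρ c l R r) {y : Vtx H} (hy : ds (vq v U c) y + 2 * n * R ≤ r) :
    y ∈ Reg v U m ρ c l r ↔ y ∈ Reg v' U' m ρ c l r := by
  have hvq : ds (vq v U c) (vq v' U' c) ≤ 2 * n * R := by
    rcases Nat.eq_zero_or_pos n with h | h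
    · subst h
      have hemp : ∀ h : H, False := fun h => by
        have := hd {h} (fun a ha b hb hab => by
          rw [Finset.mem_singleton] at ha hb
          exact absurd (ha.trans hb.symm) hab)
        rw [Finset.card_singleton] at this
        omega
      have h0 : (vq v' U' c).U \ (vq v U c).U = ∅ := Set.eq_empty_of_forall_notMem fun h _ => hemp h
      have h1 : ds (vq v U c) (vq v' U' c) = 0 := by
        unfold ds
        rw [h0, Set.ncard_empty]
      omega
    · have h1 : c ≤ n * c := Nat.le_mul_of_pos_left c h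
      exact stab_vq hd hW hW' hC hc (by omega)
  have hvy : ds v y ≤ n * c + r := by
    have h1 := ds_triangle v (vq v U c) y
    have h2 := ds_vq hd hW c
    omega
  have hwy : ds (vq v U c) y ≤ r := by omega
  constructor
  · rintro ⟨hP, hS, hL, _⟩
    have a1 : y ∈ Pos v' U' := by
      rintro h ⟨h1, h2⟩
      by_cases hv : h ∈ v.U
      · rcases hC.btw' h hv h2 with h3 | h3
        · exact h3
        · exfalso
          have k1 : st h ∈ v'.U := v'.st_mem.2 h2
          have k2 := hL _ h3 (by have := cmp_dep hC k1; omega)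
          exact y.st_mem.1 k2 h1
      · exact (hC.agr h hv h2 (by have := dep_btw (y := v) h1; omega)).1 (hP ⟨h1, hv⟩)
    have b1 : ∀ h ∈ U', dep v' h ≤ l → h ∈ y.U := by
      intro h h1 h2
      have hv' := hW'.out h h1
      by_cases hv : h ∈ v.U
      · by_contra hy'
        have k1 : st h ∈ y.U := y.st_mem.2 hy'
        have k2 : st h ∉ v.U := fun h3 => v.st_mem.1 h3 hv
        have k3 := hC.not _ (hP ⟨k1, k2⟩)
        rw [st_st] at k3
        exact k3 h1
      · have k1 := dep_le v v' h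
        have k2 := hC.near
        have k3 : h ∈ U := (hC.agr h hv hv' (by omega)).2 h1
        exact hG y hP hS (fun k hk hk2 => hL k hk (by omega)) hwy h k3 (by omega)
    have c1 : ∀ h, h ∉ y.U → dep y h ≤ m → (h ∈ U' ↔ h ∈ U) := by
      intro h h1 h2
      have k1 := dep_le v y h
      constructor
      · intro h3
        have hv' := hW'.out h h3
        by_cases hv : h ∈ v.U
        · exact absurd (b1 h h3 (by have := cmp_dep' hC hv; omega)) h1
        · exact (hC.agr h hv hv' (by omega)).2 h3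
      · intro h3
        have hv := hW.out h h3
        by_cases hv' : h ∈ v'.U
        · exact absurd (hL h h3 (by have := cmp_dep hC hv'; omega)) h1
        · exact (hC.agr h hv hv' (by omega)).1 h3
    refine ⟨a1, sat_tr hW' a1 hm c1 hS, b1, ?_⟩
    have h1 := ds_triangle (vq v' U' c) (vq v U c) y
    rw [ds_comm (vq v' U' c) (vq v U c)] at h1
    omega
  · rintro ⟨hP, hS, hL, _⟩
    have a1 : y ∈ Pos v U := by
      rintro h ⟨h1, h2⟩
      by_cases hv' : h ∈ v'.U
      · rcases hC.btw h h2 hv' with h3 | h3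
        · exact h3
        · exfalso
          have k1 : st h ∈ v.U := v.st_mem.2 h2
          have k2 := hL _ h3 (by have := cmp_dep' hC k1; omega)
          exact y.st_mem.1 k2 h1
      · exact (hC.agr h h2 hv' (by have := dep_btw (y := v) h1; omega)).2 (hP ⟨h1, hv'⟩)
    have b1 : ∀ h ∈ U, dep v h + R ≤ l → h ∈ y.U := by
      intro h h1 h2
      have hv := hW.out h h1
      by_cases hv' : h ∈ v'.U
      · by_contra hy'
        have k1 : st h ∈ y.U := y.st_mem.2 hy'
        have k2 : st h ∉ v'.U := fun h3 => v'.st_mem.1 h3 hv'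
        exact hC.not _ h1 (hP ⟨k1, k2⟩)
      · have k1 := dep_le v' v h
        have k2 := cmp_near hC
        have k3 : h ∈ U' := (hC.agr h hv hv' (by omega)).1 h1
        exact hL h k3 (by omega)
    have c1 : ∀ h, h ∉ y.U → dep y h ≤ m → (h ∈ U ↔ h ∈ U') := by
      intro h h1 h2
      have k1 := dep_le v y h
      constructor
      · intro h3
        have hv := hW.out h h3
        by_cases hv' : h ∈ v'.U
        · exact absurd (b1 h h3 (by have := cmp_dep hC hv'; omega)) h1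
        · exact (hC.agr h hv hv' (by omega)).1 h3
      · intro h3
        have hv' := hW'.out h h3
        by_cases hv : h ∈ v.U
        · exact absurd (hL h h3 (by have := cmp_dep' hC hv; omega)) h1
        · exact (hC.agr h hv hv' (by omega)).2 h3
    have d1 : Sat U m ρ y := sat_tr hW a1 hm c1 hS
    exact ⟨a1, d1, fun h h1 h2 => hG y a1 d1 (fun k hk hk2 => b1 k hk (by omega)) hwy h h1 (by omega), hwy⟩

theorem stab_sep {v v' : Vtx H} {U U' : Set H} (hW : Win v U) (hW' : Win v' U') {R D c l m ρ r : ℕ}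
    (hC : Cmp R D v U v' U') {y z : Vtx H} (hy : y ∈ Reg v U m ρ c l r) (hz : z ∈ Reg v U m ρ c l r)
    (hy' : y ∈ Reg v' U' m ρ c l r) (hz' : z ∈ Reg v' U' m ρ c l r) {w : H} (hw : Spt w y z) : w ∈ U ↔ w ∈ U' := by
  have s1 : w ∈ U ∨ st w ∈ U := by
    by_cases h : w ∈ y.U
    · exact (rgn_reg hW m ρ c l r).sep y hy z hz w h (fun h2 => hw ⟨fun _ => h2, fun _ => h⟩)
    · by_cases h2 : w ∈ z.U
      · exact (rgn_reg hW m ρ c l r).sep z hz y hy w h2 h
      · exact absurd ⟨fun h3 => absurd h3 h, fun h3 => absurd h3 h2⟩ hw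
  have s2 : w ∈ U' ∨ st w ∈ U' := by
    by_cases h : w ∈ y.U
    · exact (rgn_reg hW' m ρ c l r).sep y hy' z hz' w h (fun h2 => hw ⟨fun _ => h2, fun _ => h⟩)
    · by_cases h2 : w ∈ z.U
      · exact (rgn_reg hW' m ρ c l r).sep z hz' y hy' w h2 h
      · exact absurd ⟨fun h3 => absurd h3 h, fun h3 => absurd h3 h2⟩ hw
  constructor
  · intro h
    exact s2.resolve_right (hC.not w h)
  · intro h
    refine s1.resolve_right fun h2 => ?_
    have := hC.not _ h2
    rw [st_st] at this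
    exact this h

end Pool.Agent.H37.CC
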