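import Pool.Agent.H37.CC.Ta

/-!
# THEOREM CCC, G5: the choice of the thresholds

`frac_crs`: two different, not complementary, half-spaces with values strictly between `0` and `1` cross. `exists_j`: otherwise for
every `j ≤ n` there is `h j` with `al n j ≤ ψ (h j) ≤ be n j` (replace `h j` by `st (h j)`); these are different, not complementary (values
`< 1 / 2`), so `n + 1` pairwise crossing half-spaces. `exists_k`: the fractional half-spaces outside `v` are pairwise crossing: at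
most `n`; each is excluded by at most one `κ`. `exists_i`: `A = {h | h ∉ (g • bs).U, 0 < ψ h, dep ≤ D, tt 0 - E ≤ smt ≤ tt n + E}`, `E = D + 2 R`,
is pairwise crossing: if `h' < h` in `A`: `smt h' ≥ smt h + tau h'`, `tau h' ≥ 1`, `smt h' ≤ D * tau h'` (P4), so
`D * (tt n - tt 0 + 2 E) ≥ D * (smt h' - smt h) ≥ smt h' > tt 0 - E`, contradiction to the choice of `tt`; no disjoint pairs: `h < st k` gives
`ψ h = 0` or `ψ k = 0` (and `h = st k` is impossible because `bs` is in `h` or in `st h`); so `A` has at most `n` elements, each excludes at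
most one `i`.
-/

set_option autoImplicit false

namespace Pool.Agent.H37.CC

open scoped Pointwise

section

variable {H : Type} [PartialOrder H] [Bas H]

private theorem tha_dim {n : ℕ} (hd : Dim H n) (f : ℕ → H) (hc : ∀ i ≤ n, ∀ j ≤ n, i ≠ j → Crs (f i) (f j)) : False := by
  classical
  have hinj : Set.InjOn f (Finset.range (n + 1) : Finset ℕ) := by
    intro i hi j hj e
    by_contra hne
    have hi' := Finset.mem_range.1 (Finset.mem_coe.1 hi)
    have hj' := Finset.mem_range.1 (Finset.mem_coe.1 hj)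
    exact (hc i (by omega) j (by omega) hne).1 e.le
  have h1 := hd ((Finset.range (n + 1)).image f) (by
    intro h hh k hk hne
    rw [Finset.mem_image] at hh hk
    obtain ⟨i, hi, rfl⟩ := hh
    obtain ⟨j, hj, rfl⟩ := hk
    rw [Finset.mem_range] at hi hj
    exact hc i (by omega) j (by omega) fun e => hne (by rw [e]))
  rw [Finset.card_image_of_injOn hinj, Finset.card_range] at h1
  omega

private theorem tha_al (n j : ℕ) : 0 < al n j := by
  unfold al
  positivity

private theorem tha_be (n j : ℕ) : 0 < be n j := by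
  unfold be
  positivity

private theorem tha_half {n j : ℕ} (hj : j ≤ n) : be n j < 1 / 2 := by
  unfold be
  rw [div_lt_div_iff₀ (by positivity) (by norm_num)]
  have h1 : (j : ℝ) ≤ n := by exact_mod_cast hj
  linarith

private theorem tha_lt {n i j : ℕ} (hij : i < j) : be n i < al n j := by
  unfold be al
  have h1 : (i : ℝ) + 1 ≤ j := by exact_mod_cast hij
  refine div_lt_div_of_pos_right ?_ (by positivity)
  linarith

theorem frac_crs {ψ : H → ℝ} (hψ : IsPt ψ) {h k : H} (hh : 0 < ψ h) (hh1 : ψ h < 1) (hk : 0 < ψ k) (hk1 : ψ k < 1)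
    (hne : h ≠ k) (hne' : h ≠ st k) : Crs h k := by
  refine ⟨fun e => ?_, fun e => ?_, fun e => ?_, fun e => ?_⟩
  · rcases hψ.lt h k (lt_of_le_of_ne e hne) with h1 | h1 <;> linarith
  · rcases hψ.lt k h (lt_of_le_of_ne e (Ne.symm hne)) with h1 | h1 <;> linarith
  · have h2 := hψ.compl k
    rcases hψ.lt h (st k) (lt_of_le_of_ne e hne') with h1 | h1 <;> linarith
  · have h2 := hψ.compl k
    rcases hψ.lt (st k) h (lt_of_le_of_ne e (Ne.symm hne')) with h1 | h1 <;> linarith

theorem exists_j {n : ℕ} (hd : Dim H n) {ψ : H → ℝ} (hψ : IsPt ψ) : ∃ j ≤ n, ∀ h, rob n j ψ h := by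
  by_contra hcon
  push Not at hcon
  have h1 : ∀ j, ∃ h, j ≤ n → al n j ≤ ψ h ∧ ψ h ≤ be n j := by
    intro j
    by_cases hj : j ≤ n
    swap
    · obtain ⟨h, -⟩ := hcon 0 (Nat.zero_le n)
      exact ⟨h, fun e => absurd e hj⟩
    obtain ⟨h, hh⟩ := hcon j hj
    unfold rob frc inn at hh
    push Not at hh
    obtain ⟨h2, h3, h4⟩ := hh
    by_cases h5 : be n j < ψ h
    · refine ⟨st h, fun _ => ?_⟩
      rw [hψ.compl]
      have h6 := h3 h5
      constructor <;> linarith
    · exact ⟨h, fun _ => ⟨h2, not_lt.1 h5⟩⟩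
  choose f hf using h1
  have hlt : ∀ i ≤ n, ∀ j ≤ n, i < j → ψ (f i) < ψ (f j) := by
    intro i hi j hj hij
    exact ((hf i hi).2.trans_lt (tha_lt hij)).trans_le (hf j hj).1
  refine tha_dim hd f fun i hi j hj hij => ?_
  have hi1 := (tha_al n i).trans_le (hf i hi).1
  have hj1 := (tha_al n j).trans_le (hf j hj).1
  have hi2 := (hf i hi).2.trans_lt (tha_half hi)
  have hj2 := (hf j hj).2.trans_lt (tha_half hj)
  refine frac_crs hψ hi1 (by linarith) hj1 (by linarith) (fun e => ?_) (fun e => ?_)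
  · rcases Nat.lt_or_ge i j with h2 | h2
    · have h3 := hlt i hi j hj h2
      rw [e] at h3
      exact lt_irrefl _ h3
    · have h3 := hlt j hj i hi (lt_of_le_of_ne h2 (Ne.symm hij))
      rw [e] at h3
      exact lt_irrefl _ h3
  · have h2 := hψ.compl (f j)
    rw [← e] at h2
    linarith

theorem exists_k {n : ℕ} (hd : Dim H n) {ψ : H → ℝ} (hψ : IsPt ψ) (v : Vtx H) {j : ℕ} (hj : j ≤ n) (R : ℕ) :
    ∃ κ ≤ n, ∀ h, h ∉ v.U → frc n j ψ h → dep v h ≤ (2 * κ + 1) * R + R → dep v h + R ≤ (2 * κ + 1) * R := by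
  by_contra hcon
  push Not at hcon
  have h1 : ∀ κ, ∃ h, κ ≤ n → h ∉ v.U ∧ frc n j ψ h ∧ dep v h ≤ (2 * κ + 1) * R + R ∧ (2 * κ + 1) * R < dep v h + R := by
    intro κ
    by_cases hκ : κ ≤ n
    · obtain ⟨h, h1, h2, h3, h4⟩ := hcon κ hκ
      exact ⟨h, fun _ => ⟨h1, h2, h3, h4⟩⟩
    · obtain ⟨h, -⟩ := hcon 0 (Nat.zero_le n)
      exact ⟨h, fun e => absurd e hκ⟩
  choose f hf using h1
  have hlt : ∀ i ≤ n, ∀ l ≤ n, i < l → dep v (f i) < dep v (f l) := by
    intro i hi l hl hil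
    have h2 := (hf i hi).2.2.1
    have h3 := (hf l hl).2.2.2
    have h4 : (2 * (i + 1) + 1) * R ≤ (2 * l + 1) * R := Nat.mul_le_mul_right _ (by omega)
    have h5 : (2 * (i + 1) + 1) * R = (2 * i + 1) * R + 2 * R := by ring
    omega
  refine tha_dim hd f fun i hi l hl hil => ?_
  obtain ⟨h2, h3, -, -⟩ := hf i hi
  obtain ⟨h4, h5, -, -⟩ := hf l hl
  have hb := tha_be n j
  refine frac_crs hψ (hb.trans h3.1) (by linarith [h3.2]) (hb.trans h5.1) (by linarith [h5.2]) (fun e => ?_) (fun e => ?_)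
  · rcases Nat.lt_or_ge i l with h6 | h6
    · have h7 := hlt i hi l hl h6
      rw [e] at h7
      exact lt_irrefl _ h7
    · have h7 := hlt l hl i hi (lt_of_le_of_ne h6 (Ne.symm hil))
      rw [e] at h7
      exact lt_irrefl _ h7
  · rw [e, v.st_mem, not_not] at h2
    exact h4 h2

end

section

variable {G H : Type} [Group G] [PartialOrder H] [Bas H] [MulAction G H] [BAct G H]

theorem exists_i {n R D : ℕ} (hd : Dim H n) {S : Set G} (hS : Gn G H S R) {ψ : H → ℝ} (hψ : IsPt ψ) (g : G) :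
    ∃ i ≤ n, ∀ h, h ∉ (g • (bs : Vtx H)).U → 0 < ψ h → dep (g • (bs : Vtx H)) h ≤ D →
      smt S g h < tt n R D i + (D + 2 * R) → smt S g h + (D + 2 * R) < tt n R D i := by
  obtain ⟨E, hE⟩ : ∃ E, E = D + 2 * R := ⟨_, rfl⟩
  obtain ⟨M, hM⟩ : ∃ M, M = 3 * (E + 1) * n + 2 * E := ⟨_, rfl⟩
  have htt : ∀ i, tt n R D i = (D + 1) * M + E + 1 + 3 * (E + 1) * i := by
    intro i
    unfold tt
    rw [hM, hE]
  rw [← hE]
  by_contra hcon
  push Not at hcon
  have h1 : ∀ i, ∃ h, i ≤ n → h ∉ (g • (bs : Vtx H)).U ∧ 0 < ψ h ∧ dep (g • (bs : Vtx H)) h ≤ D ∧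
      smt S g h < tt n R D i + E ∧ tt n R D i ≤ smt S g h + E := by
    intro i
    by_cases hi : i ≤ n
    · obtain ⟨h, h1, h2, h3, h4, h5⟩ := hcon i hi
      exact ⟨h, fun _ => ⟨h1, h2, h3, h4, h5⟩⟩
    · obtain ⟨h, -⟩ := hcon 0 (Nat.zero_le n)
      exact ⟨h, fun e => absurd e hi⟩
  choose f hf using h1
  have hlt : ∀ i ≤ n, ∀ l ≤ n, i < l → smt S g (f i) < smt S g (f l) := by
    intro i hi l hl hil
    have h2 := (hf i hi).2.2.2.1
    have h3 := (hf l hl).2.2.2.2
    rw [htt] at h2 h3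
    have h4 : 3 * (E + 1) * (i + 1) ≤ 3 * (E + 1) * l := Nat.mul_le_mul_left _ (by omega)
    have h5 : 3 * (E + 1) * (i + 1) = 3 * (E + 1) * i + 3 * (E + 1) := by ring
    omega
  have hno : ∀ i ≤ n, ∀ l ≤ n, ¬ f i < f l := by
    intro i hi l hl e
    obtain ⟨h2, -, h3, h4, -⟩ := hf i hi
    obtain ⟨-, -, -, -, h5⟩ := hf l hl
    rw [htt] at h4 h5
    have h6 := smt_lt (S := S) g h2 e
    have h7 := smt_le hS g (f i)
    have h8 : dep (g • (bs : Vtx H)) (f i) * tau S g (f i) ≤ D * tau S g (f i) := Nat.mul_le_mul_right _ h3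
    have h9 : 3 * (E + 1) * i ≤ 3 * (E + 1) * n := Nat.mul_le_mul_left _ hi
    have h10 : tau S g (f i) ≤ M := by omega
    have h11 : D * tau S g (f i) ≤ D * M := Nat.mul_le_mul_left _ h10
    have h12 : (D + 1) * M = D * M + M := by ring
    have h13 : tau S g (f i) + (D * M + M) + 1 ≤ smt S g (f i) := by omega
    omega
  refine tha_dim hd f fun i hi l hl hil => ?_
  obtain ⟨h2, h3, -, -, -⟩ := hf i hi
  obtain ⟨h4, h5, -, -, -⟩ := hf l hl
  have hne : f i ≠ f l := by
    intro e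
    rcases Nat.lt_or_ge i l with h6 | h6
    · have h7 := hlt i hi l hl h6
      rw [e] at h7
      exact lt_irrefl _ h7
    · have h7 := hlt l hl i hi (lt_of_le_of_ne h6 (Ne.symm hil))
      rw [e] at h7
      exact lt_irrefl _ h7
  have h6 : st (f l) ∈ (g • (bs : Vtx H)).U := (Vtx.st_mem _).2 h4
  refine ⟨fun e => hno i hi l hl (lt_of_le_of_ne e hne), fun e => hno l hl i hi (lt_of_le_of_ne e (Ne.symm hne)),
    fun e => ?_, fun e => h2 (Vtx.up _ h6 e)⟩
  have h7 : f i ≠ st (f l) := by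
    intro h8
    rw [← h8] at h6
    exact h2 h6
  have h8 := hψ.compl (f l)
  rcases hψ.lt _ _ (lt_of_le_of_ne e h7) with h9 | h9 <;> linarith

end

end Pool.Agent.H37.CC
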