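import Pool.Agent.H37.CC.Sat
import Pool.Agent.H37.CC.Goo
import Pool.Agent.H37.CC.Stab
import Pool.Agent.H37.CC.ThA
import Pool.Agent.H37.CC.Agr

/-!
# THEOREM CCC, G7: main theorem of the chapter GEOMETRY

Choose `j` (`exists_j`), `κ` (`exists_k`), `i` (`exists_i`). If `Frc0` is not empty: `frc_step`. Otherwise `cmp` for all `s`; for every `q < (n + 1) ^ 2`
a gap `ι q ≤ n` at `vq` (`exists_gap`); `n + 1` values of `q` with the same `ι` (pigeonhole,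
`Finset.exists_lt_card_fiber_of_mul_lt_card_of_maps_to`), one of them is good (`exists_good`); `y` from `exists_sat`; `stab_vq`, `stab_reg`,
`stab_sep`. `Cf t` agree: all points at distance `≤ t` from `z` are at distance `≤ r ι - 2 n R` from the centre.
-/

set_option autoImplicit false

namespace Pool.Agent.H37.CC

open scoped Pointwise

private theorem cc_succ (n R B q : ℕ) : cc n R B (q + 1) = (n + 1) * cc n R B q + B := rfl

private theorem cc_mono1 (n R B q : ℕ) : cc n R B q ≤ cc n R B (q + 1) := by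
  rw [cc_succ]
  nlinarith [Nat.zero_le (n * cc n R B q), Nat.zero_le B]

private theorem cc_mono (n R B : ℕ) : Monotone (cc n R B) := monotone_nat_of_le_succ (cc_mono1 n R B)

private theorem cc_zero (n R B : ℕ) : cc n R B 0 = (4 * (n + 1) ^ 2 + 3) * R := rfl

private theorem ll_le (n R q : ℕ) : ll n R q ≤ (4 * (n + 1) ^ 2 + 3) * R := by
  unfold ll
  refine Nat.mul_le_mul_right _ ?_
  have h : (n + 1) ^ 2 - q ≤ (n + 1) ^ 2 := Nat.sub_le _ _
  omega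

private theorem le_ll (n R q : ℕ) : 3 * R ≤ ll n R q := by
  unfold ll
  refine Nat.mul_le_mul_right _ ?_
  omega

private theorem ll_step (n R : ℕ) {q q' : ℕ} (h : q < q') (h' : q' < (n + 1) ^ 2) : ll n R q' + 4 * R ≤ ll n R q := by
  unfold ll
  rw [← add_mul]
  refine Nat.mul_le_mul_right _ ?_
  omega

private theorem ll_le_cc (n R B q : ℕ) : ll n R q ≤ cc n R B q :=
  (ll_le n R q).trans ((cc_zero n R B).symm.le.trans (cc_mono n R B (Nat.zero_le q)))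

private theorem cc_step (n R B : ℕ) {q q' : ℕ} (h : q < q') : n * cc n R B q + B ≤ cc n R B q' := by
  refine le_trans ?_ (cc_mono n R B (Nat.succ_le_of_lt h))
  rw [Nat.succ_eq_add_one, cc_succ]
  refine Nat.add_le_add_right ?_ _
  exact Nat.mul_le_mul_right _ (Nat.le_succ n)

variable {G H : Type} [Group G] [PartialOrder H] [Bas H] [MulAction G H] [BAct G H]

private theorem cf_eq {P P' : Set (Vtx H) × Set H} {z : Vtx H} {t : ℕ} (h1 : ∀ z', ds z z' ≤ t → (z' ∈ P.1 ↔ z' ∈ P'.1))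
    (h2 : ∀ z' ∈ P.1, ds z z' ≤ t → ∀ w, Spt w z z' → (w ∈ P.2 ↔ w ∈ P'.2)) : Cf t P' z = Cf t P z := by
  unfold Cf
  refine Prod.ext rfl (Prod.ext ?_ ?_)
  · ext z'
    constructor
    · rintro ⟨h3, h4⟩
      exact ⟨(h1 z' h4).2 h3, h4⟩
    · rintro ⟨h3, h4⟩
      exact ⟨(h1 z' h4).1 h3, h4⟩
  · ext w
    constructor
    · rintro ⟨h3, z', h4, h5, h6⟩
      have h7 := (h1 z' h5).2 h4
      exact ⟨(h2 z' h7 h5 w h6).2 h3, z', h7, h5, h6⟩
    · rintro ⟨h3, z', h4, h5, h6⟩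
      exact ⟨(h2 z' h4 h5 w h6).1 h3, z', (h1 z' h5).1 h4, h5, h6⟩

theorem geo_main {n R : ℕ} (hd : Dim H n) {S : Set G} (hS : Gn G H S R) {ρ r : ℕ → ℕ} (hρ : Monotone ρ)
    (h1 : ∀ ι ≤ n, n * ρ ι + 2 * n * R ≤ r ι) (h2 : ∀ ι ≤ n, r ι < ρ (ι + 1)) (h3 : Monotone r) {ψ : H → ℝ} (hψ : IsPt ψ) :
    ∃ j ≤ n, (∀ h, rob n j ψ h) ∧ ∀ g : G,
      (∃ i ≤ n, ∃ κ ≤ n, (Frc0 n j S ((2 * κ + 1) * R) (tt n R (DD n R (r n + mm n ρ)) i) g ψ).Nonempty ∧
        ∀ s ∈ S, wl (Frc0 n j S ((2 * κ + 1) * R) (tt n R (DD n R (r n + mm n ρ)) i) (g * s) ψ) =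
          wl (Frc0 n j S ((2 * κ + 1) * R) (tt n R (DD n R (r n + mm n ρ)) i) g ψ)) ∨
      ∃ i ≤ n, ∃ q < (n + 1) ^ 2, ∃ ι ≤ n, ∃ y ∈ (FF n R ρ r S j i q ι g ψ).1.1,
        ds (FF n R ρ r S j i q ι g ψ).2 y ≤ n * ρ ι ∧ ∀ s ∈ S,
          ds (FF n R ρ r S j i q ι g ψ).2 (FF n R ρ r S j i q ι (g * s) ψ).2 ≤ 2 * n * R ∧
          (∀ z, ds (FF n R ρ r S j i q ι g ψ).2 z + 2 * n * R ≤ r ι →
            (z ∈ (FF n R ρ r S j i q ι g ψ).1.1 ↔ z ∈ (FF n R ρ r S j i q ι (g * s) ψ).1.1)) ∧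
          ∀ z ∈ (FF n R ρ r S j i q ι g ψ).1.1, ∀ t, ds (FF n R ρ r S j i q ι g ψ).2 z + t + 2 * n * R ≤ r ι →
            Cf t (FF n R ρ r S j i q ι (g * s) ψ).1 z = Cf t (FF n R ρ r S j i q ι g ψ).1 z := by
  classical
  obtain ⟨j, hj, hrob⟩ := exists_j hd hψ
  refine ⟨j, hj, hrob, fun g => ?_⟩
  have hDdef : DD n R (r n + mm n ρ) = cc n R (r n + mm n ρ) ((n + 1) ^ 2) + (2 * n + 3) * R + 1 := rfl
  generalize hDe : DD n R (r n + mm n ρ) = D at *
  generalize hBe : r n + mm n ρ = B at *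
  obtain ⟨κ, hκ, hk⟩ := exists_k hd hψ (g • (bs : Vtx H)) hj R
  obtain ⟨i, hi, hth⟩ := exists_i (D := D) hd hS hψ g
  have hD2 : (2 * n + 2) * R ≤ D := by
    rw [hDdef]
    have : (2 * n + 2) * R ≤ (2 * n + 3) * R := Nat.mul_le_mul_right _ (by omega)
    omega
  by_cases hF : (Frc0 n j S ((2 * κ + 1) * R) (tt n R D i) g ψ).Nonempty
  · exact Or.inl ⟨i, hi, κ, hκ, hF, fun s hs => frc_step hS hψ hj hκ hD2 g hth hk hs⟩
  right
  rw [Set.not_nonempty_iff_eq_empty] at hF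
  have hcmp : ∀ s ∈ S, Cmp R (D - R) (g • (bs : Vtx H)) (Win0 n j S D (tt n R D i) g ψ) ((g * s) • bs)
      (Win0 n j S D (tt n R D i) (g * s) ψ) := fun s hs => cmp hS hψ hj hrob hD2 g hth hF hs
  have hW : ∀ g' : G, Win (g' • (bs : Vtx H)) (Win0 n j S D (tt n R D i) g' ψ) := fun g' => win_win0 hS hψ hj _ _ g'
  have hgap : ∀ q : ℕ, ∃ ι ≤ n, Gap (Win0 n j S D (tt n R D i) g ψ)
      (vq (g • (bs : Vtx H)) (Win0 n j S D (tt n R D i) g ψ) (cc n R B q)) (mm n ρ) (ρ ι) (ρ (ι + 1)) :=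
    fun q => exists_gap hd (hW g) _ _ hρ
  choose ι hι hgap using hgap
  obtain ⟨ι0, hι0, hcard⟩ : ∃ ι0 ∈ Finset.range (n + 1),
      n < ((Finset.range ((n + 1) ^ 2)).filter (fun q => ι q = ι0)).card := by
    refine Finset.exists_lt_card_fiber_of_mul_lt_card_of_maps_to ?_ ?_
    · intro q _
      exact Finset.mem_range.2 (Nat.lt_succ_of_le (hι q))
    · rw [Finset.card_range, Finset.card_range]
      nlinarith
  have hι0' : ι0 ≤ n := Nat.lt_succ_iff.1 (Finset.mem_range.1 hι0)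
  have hrB : r ι0 + mm n ρ ≤ B := by
    rw [← hBe]
    exact Nat.add_le_add_right (h3 hι0') _
  obtain ⟨q, hq, hgood⟩ := exists_good hd (hW g) (m := mm n ρ) (ρ := ρ (ι0 + 1)) (R := R) (r := r ι0)
    (c := cc n R B) (l := ll n R) hcard
    (by
      intro q hq q' hq' hqq
      have := cc_step n R B hqq
      omega)
    (by
      intro q hq q' hq' hqq
      exact ll_step n R hqq (Finset.mem_range.1 (Finset.mem_filter.1 hq').1))
    (h2 ι0 hι0')
  have hqr : q < (n + 1) ^ 2 := Finset.mem_range.1 (Finset.mem_filter.1 hq).1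
  have hqi : ι q = ι0 := (Finset.mem_filter.1 hq).2
  have hgap' := hgap q
  rw [hqi] at hgap'
  have hmρ : n * ρ ι0 + 1 ≤ mm n ρ := by
    unfold mm
    have : n * ρ ι0 ≤ n * ρ (n + 1) := Nat.mul_le_mul_left _ (hρ (by omega))
    omega
  obtain ⟨y, hyP, hyS, hyc, hyd⟩ := exists_sat hd (hW g) (c := cc n R B q) hmρ hgap'
  have hyr : y ∈ Reg (g • (bs : Vtx H)) (Win0 n j S D (tt n R D i) g ψ) (mm n ρ) (ρ (ι0 + 1)) (cc n R B q) (ll n R q)
      (r ι0) :=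
    ⟨hyP, hyS, fun h hh hl => hyc h hh (hl.trans (ll_le_cc n R B q)), hyd.trans ((Nat.le_add_right _ _).trans (h1 ι0 hι0'))⟩
  have hccQ : cc n R B (q + 1) ≤ cc n R B ((n + 1) ^ 2) := cc_mono n R B hqr
  have hstep : n * cc n R B q + B ≤ cc n R B (q + 1) := cc_step n R B (Nat.lt_succ_self q)
  have h3R : 3 * R ≤ (2 * n + 3) * R := Nat.mul_le_mul_right _ (by omega)
  have hR0 : (4 * (n + 1) ^ 2 + 3) * R ≤ cc n R B q := (cc_zero n R B).symm.le.trans (cc_mono n R B (Nat.zero_le q))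
  have hR1 : 3 * R ≤ (4 * (n + 1) ^ 2 + 3) * R := Nat.mul_le_mul_right _ (by omega)
  have hcq := cc_mono1 n R B q
  have hlc := ll_le_cc n R B q
  have hFF : ∀ g' : G, FF n R ρ r S j i q ι0 g' ψ =
      ((Reg (g' • bs) (Win0 n j S D (tt n R D i) g' ψ) (mm n ρ) (ρ (ι0 + 1)) (cc n R B q) (ll n R q) (r ι0),
        Win0 n j S D (tt n R D i) g' ψ), vq (g' • bs) (Win0 n j S D (tt n R D i) g' ψ) (cc n R B q)) := by
    intro g'
    unfold FF
    rw [hBe, hDe]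
  refine ⟨i, hi, q, hqr, ι0, hι0', y, ?_, ?_, ?_⟩
  · rw [hFF]
    exact hyr
  · rw [hFF]
    exact hyd
  intro s hs
  have hC := hcmp s hs
  have hreg : ∀ z, ds (vq (g • (bs : Vtx H)) (Win0 n j S D (tt n R D i) g ψ) (cc n R B q)) z + 2 * n * R ≤ r ι0 →
      (z ∈ Reg (g • bs) (Win0 n j S D (tt n R D i) g ψ) (mm n ρ) (ρ (ι0 + 1)) (cc n R B q) (ll n R q) (r ι0) ↔
        z ∈ Reg ((g * s) • bs) (Win0 n j S D (tt n R D i) (g * s) ψ) (mm n ρ) (ρ (ι0 + 1)) (cc n R B q) (ll n R q)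
          (r ι0)) := by
    intro z hz
    have hm0 : 0 < mm n ρ := by omega
    have hRc : R ≤ cc n R B q := by omega
    have e1 : ll n R q + R ≤ D - R := by omega
    have e2 : n * cc n R B q + r ι0 + mm n ρ + R ≤ D - R := by omega
    exact stab_reg hd (hW g) (hW (g * s)) hC hm0 hRc (le_ll n R q) e1 e2 hgood hz
  rw [hFF, hFF]
  have hRc : R ≤ cc n R B q := by omega
  have e3 : cc n R B q + R ≤ D - R := by omega
  refine ⟨stab_vq hd (hW g) (hW (g * s)) hC hRc e3, hreg, ?_⟩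
  intro z hz t ht
  have ht' : ds (vq (g • (bs : Vtx H)) (Win0 n j S D (tt n R D i) g ψ) (cc n R B q)) z + t + 2 * n * R ≤ r ι0 := ht
  clear ht
  have hz' := (hreg z (by omega)).1 hz
  refine cf_eq ?_ ?_
  · intro z' hz'
    refine hreg z' ?_
    have := ds_triangle (vq (g • (bs : Vtx H)) (Win0 n j S D (tt n R D i) g ψ) (cc n R B q)) z z'
    omega
  · intro z' hz1 hz2 w hw
    have hz3 := (hreg z' (by
      have := ds_triangle (vq (g • (bs : Vtx H)) (Win0 n j S D (tt n R D i) g ψ) (cc n R B q)) z z'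
      omega)).1 hz1
    exact stab_sep (hW g) (hW (g * s)) hC hz hz1 hz' hz3 hw

end Pool.Agent.H37.CC
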