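import Pool.Agent.H37.CC.LocI
import Pool.Agent.H98.FJ.Closed
import Pool.Agent.H1.CG.Br
import Pool.Agent.H1.CG.Obj

/-!
# THEOREM CCC, chapter GLOBAL: interface (helper1)
-/

set_option autoImplicit false

namespace Pool.Agent.H37.CC

open scoped Pointwise
open Pool.Agent.H98.FJ Pool.Agent.H37.PT

section

variable {G H : Type} [Group G] [PartialOrder H] [Bas H] [MulAction G H] [BAct G H]

/-- (4.5) -/
theorem exists_rt {n N : ℕ} (hd : Dim H n) (hN : BF G H N) (A : ℕ → Subgroup G) (hA : ∀ j < 2 * n, A j ≤ A (j + 1))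
    (hab : ∀ x ∈ A (2 * n), ∀ y ∈ A (2 * n), x * y = y * x) (hinf : ∃ a ∈ A 0, ¬ IsOfFinOrder a) :
    ∃ j < 2 * n, Rt (A j) = Rt (A (j + 1)) := by
  have : Nonempty (Vtx H) := ⟨bs⟩
  exact Pool.Agent.H1.CG.exists_rt (Pool.Agent.H1.CG.sys G hd) (Pool.Agent.H1.CG.bd G hN) A hA hab hinf

/-- (4.6), (4.7) -/
theorem st_mem_class {C : (G : Type) → [Group G] → Prop} (hC : Inherits C) {n N : ℕ} (hd : Dim H n) (hN : BF G H N)
    (hst : ∀ w : H, C (MulAction.stabilizer G w)) (A : Subgroup G) (hab : ∀ x ∈ A, ∀ y ∈ A, x * y = y * x)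
    (hinf : ∃ a ∈ A, ¬ IsOfFinOrder a) : C (St A) := by
  have : Nonempty (Vtx H) := ⟨bs⟩
  obtain ⟨h0, h0A, hi⟩ := hinf
  refine Pool.Agent.H1.CG.st_mem hC (Pool.Agent.H1.CG.sys G hd) (Pool.Agent.H1.CG.bd G hN) ?_ hab h0A hi
  rintro _ ⟨h, rfl⟩
  rw [Pool.Agent.H1.CG.stab_hat]
  exact hst h

/-- the object of a point: the root set of the group generated by the `Q`-th powers -/
def Ob (Q b r : ℕ) (P : Set (Vtx H) × Set H) (y : Vtx H) : Set G :=
  Rt (Subgroup.closure {x : G | ∃ γ ∈ Tb G b r P y, x = γ ^ Q})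

private theorem rt_mono {A B : Subgroup G} (h : A ≤ B) : Rt A ⊆ Rt B := by
  rintro x ⟨m, hm, hx⟩
  exact ⟨m, hm, h hx⟩

private theorem cl_mono {Q : ℕ} {T T' : Set G} (h : T ⊆ T') :
    Subgroup.closure {x : G | ∃ γ ∈ T, x = γ ^ Q} ≤ Subgroup.closure {x : G | ∃ γ ∈ T', x = γ ^ Q} := by
  refine Subgroup.closure_mono ?_
  rintro x ⟨γ, hγ, rfl⟩
  exact ⟨γ, h hγ, rfl⟩

private theorem cl_comm {Q : ℕ} {T : Set G} (h : ∀ x ∈ T, ∀ z ∈ T, x ^ Q * z ^ Q = z ^ Q * x ^ Q) :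
    ∀ x ∈ Subgroup.closure {x : G | ∃ γ ∈ T, x = γ ^ Q}, ∀ y ∈ Subgroup.closure {x : G | ∃ γ ∈ T, x = γ ^ Q},
      x * y = y * x := by
  have h1 : ∀ x ∈ {x : G | ∃ γ ∈ T, x = γ ^ Q}, ∀ y ∈ {x : G | ∃ γ ∈ T, x = γ ^ Q}, x * y = y * x := by
    rintro _ ⟨a, ha, rfl⟩ _ ⟨b, hb, rfl⟩
    exact h a ha b hb
  intro x hx y hy
  induction hx using Subgroup.closure_induction with
  | mem x hx =>
    induction hy using Subgroup.closure_induction with
    | mem y hy => exact h1 x hx y hy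
    | one => rw [mul_one, one_mul]
    | mul a b _ _ ha hb => rw [← mul_assoc, ha, mul_assoc, hb, mul_assoc]
    | inv a _ ha =>
      have hc : Commute x a := ha
      exact hc.inv_right
  | one => rw [mul_one, one_mul]
  | mul a b _ _ ha hb => rw [mul_assoc, hb, ← mul_assoc, ha, mul_assoc]
  | inv a _ ha =>
    have hc : Commute a y := ha
    exact hc.inv_left

/-- (5): some object is constant near `y` (`κ`, `Q` as in `local_main`) -/
theorem ob_const {n N : ℕ} (hd : Dim H n) (hN : BF G H N) {κ Q : ℕ} (hQ : 0 < Q) {P : Set (Vtx H) × Set H}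
    (hc : ∀ y ∈ P.1, ∀ b r : ℕ, κ * (b + 1) ≤ r → ∀ x ∈ Tb G b r P y, ∀ z ∈ Tb G b r P y, x ^ Q * z ^ Q = z ^ Q * x ^ Q)
    {y : Vtx H} (hy : y ∈ P.1) {b r t : ℕ} (hr : (κ + 3) * (b + 8 * n * t + 2 * t + 1) ≤ r)
    (hinf : ∃ γ ∈ Tb G b r P y, ¬ IsOfFinOrder γ) :
    ∃ j < 2 * n, ∀ z ∈ P.1, ds y z ≤ t →
      (∃ γ ∈ Tb G (b + 4 * j * t + 2 * t) (r - 2 * j * t - t) P z, ¬ IsOfFinOrder γ) ∧
      (Ob (b := b + 4 * j * t + 2 * t) (r := r - 2 * j * t - t) Q P z : Set G) =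
        Ob (b := b + 4 * j * t + 2 * t) (r := r - 2 * j * t - t) Q P y := by
  have hr2 : κ * (b + 8 * n * t + 2 * t + 1) + 3 * (b + 8 * n * t + 2 * t + 1) ≤ r := by
    rw [← add_mul]
    exact hr
  have e8 : 8 * n * t = 8 * (n * t) := by ring
  have e2n : 2 * (2 * n) * t = 4 * (n * t) := by ring
  have e4n : 4 * (2 * n) * t = 8 * (n * t) := by ring
  rw [e8] at hr2
  let T : ℕ → Set G := fun j => Tb G (b + 4 * j * t) (r - 2 * j * t) P y
  let A : ℕ → Subgroup G := fun j => Subgroup.closure {x : G | ∃ γ ∈ T j, x = γ ^ Q}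
  have hTm : ∀ j, T j ⊆ T (j + 1) := by
    intro j
    refine Tb_mono ?_ ?_
    · have : 4 * j * t ≤ 4 * (j + 1) * t := Nat.mul_le_mul_right _ (by omega)
      omega
    · have : 2 * j * t ≤ 2 * (j + 1) * t := Nat.mul_le_mul_right _ (by omega)
      omega
  obtain ⟨γ0, hγ0, hinf0⟩ := hinf
  have h00 : γ0 ∈ T 0 := by
    show γ0 ∈ Tb G (b + 4 * 0 * t) (r - 2 * 0 * t) P y
    simpa using hγ0
  have hT0 : ∀ j, γ0 ∈ T j := by
    intro j
    induction j with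
    | zero => exact h00
    | succ j ih => exact hTm j ih
  obtain ⟨j, hj, hrt⟩ := exists_rt hd hN A (fun j _ => cl_mono (hTm j)) (by
    refine cl_comm (hc y hy (b + 4 * (2 * n) * t) (r - 2 * (2 * n) * t) ?_)
    rw [e4n, e2n]
    have h1 : κ * (b + 8 * (n * t) + 1) ≤ κ * (b + 8 * (n * t) + 2 * t + 1) := Nat.mul_le_mul_left _ (by omega)
    omega) ⟨γ0 ^ Q, Subgroup.subset_closure ⟨γ0, h00, rfl⟩, by
      rw [isOfFinOrder_pow, not_or]
      exact ⟨hinf0, hQ.ne'⟩⟩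
  have hjt : j * t + t ≤ 2 * (n * t) := by
    have h1 : (j + 1) * t ≤ 2 * n * t := Nat.mul_le_mul_right _ (by omega)
    have h2 : (j + 1) * t = j * t + t := by ring
    have h3 : 2 * n * t = 2 * (n * t) := by ring
    omega
  have e4 : 4 * j * t = 4 * (j * t) := by ring
  have e2 : 2 * j * t = 2 * (j * t) := by ring
  have e4' : 4 * (j + 1) * t = 4 * (j * t) + 4 * t := by ring
  have e2' : 2 * (j + 1) * t = 2 * (j * t) + 2 * t := by ring
  have key : ∀ z ∈ P.1, ds y z ≤ t → T j ⊆ Tb G (b + 4 * j * t + 2 * t) (r - 2 * j * t - t) P z ∧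
      Tb G (b + 4 * j * t + 2 * t) (r - 2 * j * t - t) P z ⊆ T (j + 1) := by
    intro z hz hyz
    constructor
    · exact Tb_move hy hz hyz (by omega)
    · have h1 := Tb_move (G := G) (b := b + 4 * j * t + 2 * t) (r := r - 2 * j * t - t) (t := t) hz hy
        (by rwa [Pool.Agent.H1.CG.ds_comm']) (by omega)
      have h2 : b + 4 * j * t + 2 * t + 2 * t = b + 4 * (j + 1) * t := by omega
      have h3 : r - 2 * j * t - t - t = r - 2 * (j + 1) * t := by omega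
      rw [h2, h3] at h1
      exact h1
  have key2 : ∀ z ∈ P.1, ds y z ≤ t →
      (Ob (b := b + 4 * j * t + 2 * t) (r := r - 2 * j * t - t) Q P z : Set G) = Rt (A j) := by
    intro z hz hyz
    obtain ⟨h1, h2⟩ := key z hz hyz
    refine Set.Subset.antisymm ?_ (rt_mono (cl_mono h1))
    rw [hrt]
    exact rt_mono (cl_mono h2)
  have hyy : ds y y ≤ t := by
    unfold ds
    simp
  refine ⟨j, hj, fun z hz hyz => ⟨⟨γ0, (key z hz hyz).1 (hT0 j), hinf0⟩, ?_⟩⟩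
  rw [key2 z hz hyz, key2 y hy hyy]

end

end Pool.Agent.H37.CC
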