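import Pool.Agent.H37.CC.Defs
import Pool.Agent.H88.CX.Loc1
import Pool.Agent.H37.PT.Defs
import Pool.Agent.H94.CL.Loc

/-!
# THEOREM CCC, chapter LOCAL: interface (helper94)

`Tb_mono`, `Tb_move`, `Tb_congr`, `Tb_cf`, `Tb_smul`, `Cf_smul`, `Cf_move` are in `H88/CX/Loc1`; `local_main` is proved in
`H94/CL/Loc` from `H25/CN/Wrd` (commuting powers, finite groups).
-/

set_option autoImplicit false

namespace Pool.Agent.H37.CC

open scoped Pointwise

/-- LOCAL, final statement: the `Q`-th powers of near symmetries commute; if all near symmetries have finite order then the near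
symmetries generate a group with at most `N` elements -/
theorem local_main (n N : ℕ) (hn : 0 < n) : ∃ κ Q : ℕ, 0 < Q ∧ ∀ (G H : Type) [Group G] [PartialOrder H] [Bas H]
    [MulAction G H] [BAct G H], Dim H n → BF G H N → ∀ (P : Set (Vtx H) × Set H), Rgn P → ∀ y ∈ P.1, ∀ b r : ℕ,
      κ * (b + 1) ≤ r →
        (∀ x ∈ Tb G b r P y, ∀ z ∈ Tb G b r P y, x ^ Q * z ^ Q = z ^ Q * x ^ Q) ∧
        ((∀ γ ∈ Tb G (2 * n * b) r P y, IsOfFinOrder γ) →
          ((Subgroup.closure (Tb G b (r + (2 * n + 1) * b) P y) : Subgroup G) : Set G).encard ≤ N) := by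
  have _ := hn
  exact Pool.Agent.H94.CL.local_main n N

end Pool.Agent.H37.CC
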