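import Pool.Agent.H37.CC.GloI
import Pool.Agent.H76.GU.FamP
import Pool.Agent.H76.GU.TrT
import Pool.Agent.H54.AX.Lr
import Pool.Agent.H25.CN.Exn
import Pool.Agent.H59.CN.Fam

/-!
# THEOREM CCC, chapter NET: interface (helper59, helper25)

`exists_net`: canonical maximal families of points which are pairwise far or have the same label (Linial, greedy rule). Locality radius
`(K + 3) * a`, the number `K` of colours depends on the number `Λ` of labels only through `log log Λ`.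

`Sys`: a system of regions: `F g x = (P, v)`, a region `P` and its centre `v`, locally constant on the open sets `Rb g`.
-/

set_option autoImplicit false

namespace Pool.Agent.H37.CC

open scoped Pointwise
open Pool.Agent.H98.FJ Pool.Agent.H37.PT Pool.Agent.H76.GT

private theorem ni_log (m : ℕ) : m < 2 ^ (Nat.log 2 m + 1) := Nat.lt_pow_succ_log_self (by norm_num) m

private theorem ni_col (Δ Λ : ℕ) : Pool.Agent.H25.CN.col Δ Λ ≤ (100 * (Δ + 1) ^ 2 * (Nat.log 2 (Nat.log 2 Λ + 2) + 1)) ^ 2 := by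
  refine le_trans (Pool.Agent.H25.CN.col_le Δ Λ) (Nat.pow_le_pow_left ?_ 2)
  obtain ⟨L, hL⟩ : ∃ L, L = Nat.log 2 Λ := ⟨_, rfl⟩
  rw [← hL]
  obtain ⟨l, hl⟩ : ∃ l, l = Nat.log 2 (L + 2) := ⟨_, rfl⟩
  rw [← hl]
  have h1 : L + 2 < 2 ^ (l + 1) := hl ▸ ni_log (L + 2)
  have h2 : Δ + 1 ≤ 2 ^ Δ := by
    have := Nat.lt_two_pow_self (n := Δ)
    omega
  have h3 : (2 * (L * Δ + 1)) ^ 2 < 2 ^ (2 * (l + Δ + 2)) := by
    rw [pow_mul, ← pow_mul, mul_comm 2 (l + Δ + 2), pow_mul]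
    apply Nat.pow_lt_pow_left _ (by norm_num)
    have h4 : 2 * (L * Δ + 1) ≤ 2 * ((L + 2) * (Δ + 1)) := by nlinarith
    have h5 : (L + 2) * (Δ + 1) < 2 ^ (l + 1) * 2 ^ Δ :=
      lt_of_lt_of_le (Nat.mul_lt_mul_of_pos_right h1 (by omega)) (Nat.mul_le_mul_left _ h2)
    have h6 : 2 * (2 ^ (l + 1) * 2 ^ Δ) = 2 ^ (l + Δ + 2) := by
      rw [← pow_add, ← pow_succ']
      congr 1
      omega
    omega
  have h4 : Nat.log 2 ((2 * (L * Δ + 1)) ^ 2) ≤ 2 * (l + Δ + 2) := by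
    have h5 := Nat.log_lt_of_lt_pow (by positivity) h3
    omega
  have h5 := Nat.mul_le_mul_right Δ h4
  nlinarith [sq_nonneg Δ, Nat.zero_le l, Nat.zero_le (l * Δ), Nat.zero_le (l * Δ ^ 2)]

/-- `D` = the points, `l` = the labels, `a` = the scale, `Δ` = the number of neighbours -/
theorem exists_net {X : Type} (d : X → X → ℕ) (h0 : ∀ x, d x x = 0) (hs : ∀ x y, d x y = d y x)
    (ht : ∀ x y z, d x z ≤ d x y + d y z) (a Δ Λ K : ℕ)
    (hK : (100 * (Δ + 1) ^ 2 * (Nat.log 2 (Nat.log 2 Λ + 2) + 1)) ^ 2 ≤ K) :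
    ∃ Net : Set X → (X → ℕ) → Set X,
      (∀ D l, (∀ y ∈ D, l y < Λ) → (∀ y ∈ D, {z ∈ D | d y z ≤ a}.encard ≤ Δ) →
        Net D l ⊆ D ∧ (∀ y ∈ Net D l, ∀ z ∈ Net D l, d y z ≤ a → l y = l z) ∧ (∀ y ∈ D, ∃ z ∈ Net D l, d y z ≤ a)) ∧
      (∀ D D' l l' y, (∀ z, d y z ≤ (K + 3) * a → ((z ∈ D ↔ z ∈ D') ∧ (z ∈ D → l z = l' z))) →
        (y ∈ Net D l ↔ y ∈ Net D' l')) ∧
      (∀ e : X ≃ X, (∀ x y, d (e x) (e y) = d x y) → ∀ D l, Net (e '' D) (fun x => l (e.symm x)) = e '' Net D l) :=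
  Pool.Agent.H25.CN.exists_net d h0 hs ht a Δ Λ K hK

section

variable {G X H : Type} [Group G] [TopologicalSpace X] [MulAction G X] [PartialOrder H] [Bas H] [MulAction G H] [BAct G H]

/-- a system of regions -/
structure Sys (Rb : G → Set X) (F : G → X → (Set (Vtx H) × Set H) × Vtx H) : Prop where
  opn : ∀ g (p : (Set (Vtx H) × Set H) × Vtx H → Prop), IsOpen {x | x ∈ Rb g ∧ p (F g x)}
  rb : ∀ g h x, x ∈ Rb h → g • x ∈ Rb (g * h)
  eqv : ∀ g h x, F (g * h) (g • x) = g • F h x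
  rgn : ∀ g x, Rgn (F g x).1

/-- the configurations which occur have at most `Λ` orbits, the regions have at most `Δ` points in a ball of radius `a` -/
structure Bdd (F : G → X → (Set (Vtx H) × Set H) × Vtx H) (r Λ a Δ K2 : ℕ) : Prop where
  cnt : {c | ∃ x, ∃ y ∈ (F 1 x).1.1, c = Cf r (F 1 x).1 y}.encard ≤ Λ
  deg : ∀ g x, ∀ y ∈ (F g x).1.1, {z ∈ (F g x).1.1 | ds y z ≤ a}.encard ≤ Δ
  pack : ∀ g x v, ∀ Z : Set (Vtx H), Z ⊆ (F g x).1.1 → (∀ z ∈ Z, ds v z ≤ 2 * a) →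
    (∀ z ∈ Z, ∀ z' ∈ Z, z ≠ z' → a < ds z z') → Z.encard ≤ K2

/-! ### helper lemmas for `obj_fam`, `net_fam` -/

private theorem ni_self (y : Vtx H) : ds y y = 0 := by
  unfold ds
  rw [Set.sdiff_self, Set.ncard_empty]

private theorem ni_comm (y z : Vtx H) : ds y z = ds z y := by
  unfold ds
  have e : st '' (z.U \ y.U) = y.U \ z.U := by
    ext h
    constructor
    · rintro ⟨k, ⟨h1, h2⟩, rfl⟩
      refine ⟨y.st_mem.2 h2, fun h3 => ?_⟩
      exact z.st_mem.1 h3 h1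
    · rintro ⟨h1, h2⟩
      refine ⟨st h, ⟨z.st_mem.2 h2, fun h3 => ?_⟩, st_st h⟩
      exact y.st_mem.1 h3 h1
  rw [← e, Set.ncard_image_of_injective _ (fun a b hab => st_inj hab)]

private theorem ni_tri (y z u : Vtx H) : ds y u ≤ ds y z + ds z u := by
  unfold ds
  refine le_trans (Set.ncard_le_ncard (t := (z.U \ y.U) ∪ (u.U \ z.U)) ?_ ((diff_fin y z).union (diff_fin z u)))
    (Set.ncard_union_le _ _)
  rintro h ⟨h1, h2⟩
  by_cases h3 : h ∈ z.U
  · exact Or.inl ⟨h3, h2⟩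
  · exact Or.inr ⟨h1, h3⟩

omit [TopologicalSpace X] in
private theorem ni_smul (g : G) (y z : Vtx H) : ds (g • y) (g • z) = ds y z := by
  unfold ds
  have e : (g • z).U \ (g • y).U = (fun h => g • h) '' (z.U \ y.U) := by
    ext h
    constructor
    · rintro ⟨h1, h2⟩
      exact ⟨g⁻¹ • h, ⟨mem_smul.1 h1, fun h3 => h2 (mem_smul.2 h3)⟩, smul_inv_smul g h⟩
    · rintro ⟨k, ⟨h1, h2⟩, rfl⟩
      exact ⟨smul_mem_smul.2 h1, fun h3 => h2 (smul_mem_smul.1 h3)⟩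
  rw [e, Set.ncard_image_of_injective _ (MulAction.injective g)]

private theorem ni_conj {S S' : Set G} {g : G} (h : ∀ γ, g * γ * g⁻¹ ∈ S' ↔ γ ∈ S) (t : G) :
    t ∈ Subgroup.closure S' ↔ g⁻¹ * t * g ∈ Subgroup.closure S := by
  have e : S' = (MulAut.conj g).toMonoidHom '' S := by
    ext u
    constructor
    · intro hu
      refine ⟨g⁻¹ * u * g, (h _).1 ?_, ?_⟩
      · have e1 : g * (g⁻¹ * u * g) * g⁻¹ = u := by group
        rw [e1]
        exact hu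
      · show g * (g⁻¹ * u * g) * g⁻¹ = u
        group
    · rintro ⟨u', hu', rfl⟩
      exact (h u').2 hu'
  rw [e, ← MonoidHom.map_closure, Subgroup.mem_map]
  constructor
  · rintro ⟨u, hu, rfl⟩
    have e1 : g⁻¹ * ((MulAut.conj g).toMonoidHom u) * g = u := by
      show g⁻¹ * (g * u * g⁻¹) * g = u
      group
    rw [e1]
    exact hu
  · intro hu
    refine ⟨_, hu, ?_⟩
    show g * (g⁻¹ * t * g) * g⁻¹ = t
    group

omit [TopologicalSpace X] in
private theorem ni_fin_ord {g γ : G} : IsOfFinOrder (g * γ * g⁻¹) ↔ IsOfFinOrder γ := by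
  have e : g * γ * g⁻¹ = (MulAut.conj g).toMonoidHom γ := rfl
  rw [e]
  exact Function.Injective.isOfFinOrder_iff (f := (MulAut.conj g).toMonoidHom) (MulAut.conj g).injective

omit [TopologicalSpace X] in
private theorem ni_rt {A A' : Subgroup G} {g : G} (h : ∀ t, t ∈ A' ↔ g⁻¹ * t * g ∈ A) (x : G) : x ∈ Rt A' ↔ g⁻¹ * x * g ∈ Rt A := by
  have e : ∀ m : ℕ, (g⁻¹ * x * g) ^ m = g⁻¹ * x ^ m * g := by
    intro m
    have h1 := (conj_pow (a := g⁻¹) (b := x) (i := m))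
    rw [inv_inv] at h1
    exact h1
  constructor
  · rintro ⟨m, hm, h1⟩
    refine ⟨m, hm, ?_⟩
    rw [e]
    exact (h _).1 h1
  · rintro ⟨m, hm, h1⟩
    refine ⟨m, hm, (h _).2 ?_⟩
    rw [← e]
    exact h1

omit [TopologicalSpace X] in
private theorem ni_ob (g : G) (Q b r : ℕ) (P : Set (Vtx H) × Set H) (y : Vtx H) (x : G) :
    x ∈ Ob Q b r (g • P) (g • y) ↔ g⁻¹ * x * g ∈ Ob Q b r P y := by
  refine ni_rt (fun t => ni_conj (fun γ => ?_) t) x
  constructor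
  · rintro ⟨γ', h1, h2⟩
    refine ⟨g⁻¹ * γ' * g, ?_, ?_⟩
    · rw [← Tb_smul g]
      have e : g * (g⁻¹ * γ' * g) * g⁻¹ = γ' := by group
      rw [e]
      exact h1
    · have e : (g⁻¹ * γ' * g) ^ Q = g⁻¹ * γ' ^ Q * g := by
        have h3 := (conj_pow (a := g⁻¹) (b := γ') (i := Q))
        rw [inv_inv] at h3
        exact h3
      rw [e, ← h2]
      group
  · rintro ⟨γ', h1, h2⟩
    refine ⟨g * γ' * g⁻¹, (Tb_smul g _ _ _ _ _).2 h1, ?_⟩
    rw [conj_pow, h2]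

/-- objects: family -/
theorem obj_fam {C : (G : Type) → [Group G] → Prop} (hC : Inherits C) {n N : ℕ} (hd : Dim H n) (hN : BF G H N)
    (hst : ∀ w : H, C (MulAction.stabilizer G w)) {Rb : G → Set X} {F : G → X → (Set (Vtx H) × Set H) × Vtx H}
    (hF : Sys Rb F) {Q b r : ℕ} (hQ : 0 < Q)
    (hc : ∀ (P : Set (Vtx H) × Set H), Rgn P → ∀ y ∈ P.1, ∀ x ∈ Tb G b r P y, ∀ z ∈ Tb G b r P y,
      x ^ Q * z ^ Q = z ^ Q * x ^ Q) (R1 : ℕ) :
    @IsFam C G X _ _ _ 1 (Set G) (Pool.Agent.H54.AX.cact (MonoidHom.id G)) (fun o g => {x | x ∈ Rb g ∧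
      (∃ y ∈ (F g x).1.1, ds (F g x).2 y ≤ R1) ∧ ∀ y ∈ (F g x).1.1, ds (F g x).2 y ≤ R1 →
        (∃ γ ∈ Tb G b r (F g x).1 y, ¬ IsOfFinOrder γ) ∧ Ob Q b r (F g x).1 y = o}) := by
  let iact : MulAction G (Set G) := Pool.Agent.H54.AX.cact (MonoidHom.id G)
  have hob : ∀ (g : G) (P : Set (Vtx H) × Set H) (y : Vtx H), (Ob Q b r (g • P) (g • y) : Set G) = iact.smul g (Ob Q b r P y) := by
    intro g P y
    ext x
    exact ni_ob g Q b r P y x
  refine @IsFam.mk C G X _ _ _ 1 (Set G) iact _ ?_ ?_ ?_ ?_ ?_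
  · intro o g
    exact hF.opn g (fun q => (∃ y ∈ q.1.1, ds q.2 y ≤ R1) ∧ ∀ y ∈ q.1.1, ds q.2 y ≤ R1 →
      (∃ γ ∈ Tb G b r q.1 y, ¬ IsOfFinOrder γ) ∧ Ob Q b r q.1 y = o)
  · rintro o g h x ⟨h1, ⟨y, hy, hyd⟩, h2⟩
    have e := hF.eqv g h x
    refine ⟨hF.rb g h x h1, ?_, ?_⟩
    · rw [e]
      refine ⟨g • y, Set.smul_mem_smul_set hy, ?_⟩
      show ds (g • (F h x).2) (g • y) ≤ R1
      rw [ni_smul]
      exact hyd
    · rw [e]
      intro z hz hzd
      obtain ⟨z', hz', rfl⟩ := Set.mem_smul_set.1 hz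
      have hzd' : ds (g • (F h x).2) (g • z') ≤ R1 := hzd
      rw [ni_smul] at hzd'
      obtain ⟨⟨γ, hγ, hγ'⟩, h3⟩ := h2 z' hz' hzd'
      refine ⟨⟨g * γ * g⁻¹, (Tb_smul g _ _ _ _ _).2 hγ, ?_⟩, ?_⟩
      · rw [ni_fin_ord]
        exact hγ'
      · show Ob Q b r (g • (F h x).1) (g • z') = _
        rw [hob, h3]
        rfl
  · rintro o g h x ⟨-, ⟨y, hy, hyd⟩, h2⟩ ⟨-, -, h3⟩
    have h4 := (h2 y hy hyd).2
    have h5 := (h3 y hy hyd).2
    exact h5.symm.trans h4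
  · rintro o h x ⟨-, ⟨y, hy, hyd⟩, h2⟩
    obtain ⟨⟨γ, hγ, hγ'⟩, rfl⟩ := h2 y hy hyd
    obtain ⟨A, hA⟩ : ∃ A : Subgroup G, A = Subgroup.closure {u : G | ∃ γ ∈ Tb G b r (F h x).1 y, u = γ ^ Q} := ⟨_, rfl⟩
    have hab : ∀ u ∈ A, ∀ v ∈ A, u * v = v * u := by
      have hcm : ∀ u ∈ {u : G | ∃ γ ∈ Tb G b r (F h x).1 y, u = γ ^ Q}, ∀ v ∈ {u : G | ∃ γ ∈ Tb G b r (F h x).1 y, u = γ ^ Q},
          u * v = v * u := by
        rintro _ ⟨u, hu, rfl⟩ _ ⟨v, hv, rfl⟩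
        exact hc _ (hF.rgn h x) y hy u hu v hv
      intro u hu v hv
      rw [hA] at hu hv
      have h6 := Subgroup.closure_le_centralizer_centralizer {u : G | ∃ γ ∈ Tb G b r (F h x).1 y, u = γ ^ Q}
      have h7 := h6 hu
      have h8 : v ∈ Subgroup.centralizer {u : G | ∃ γ ∈ Tb G b r (F h x).1 y, u = γ ^ Q} := by
        have h9 : Subgroup.closure {u : G | ∃ γ ∈ Tb G b r (F h x).1 y, u = γ ^ Q} ≤
            Subgroup.centralizer {u : G | ∃ γ ∈ Tb G b r (F h x).1 y, u = γ ^ Q} := by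
          rw [Subgroup.closure_le]
          intro w hw
          rw [SetLike.mem_coe, Subgroup.mem_centralizer_iff]
          intro w' hw'
          exact hcm w' hw' w hw
        exact h9 hv
      have h10 := Subgroup.mem_centralizer_iff.1 h7 v h8
      exact h10.symm
    have hst' := st_mem_class hC hd hN hst A hab ⟨γ ^ Q, by
      rw [hA]
      exact Subgroup.subset_closure ⟨γ, hγ, rfl⟩, fun h6 => hγ' (h6.of_pow hQ.ne')⟩
    have e : MulAction.stabilizer G (Ob Q b r (F h x).1 y : Set G) = St A := by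
      ext t
      constructor
      · intro ht u
        have h6 : iact.smul t (Ob Q b r (F h x).1 y) = Ob Q b r (F h x).1 y := ht
        have h7 : u ∈ iact.smul t (Ob Q b r (F h x).1 y) ↔ u ∈ (Ob Q b r (F h x).1 y : Set G) := by rw [h6]
        rw [hA]
        exact h7
      · intro ht
        show iact.smul t (Ob Q b r (F h x).1 y) = Ob Q b r (F h x).1 y
        ext u
        have h6 := ht u
        rw [hA] at h6
        exact h6
    show C (MulAction.stabilizer G (Ob Q b r (F h x).1 y : Set G))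
    rw [e]
    exact hst'
  · intro h x
    rw [Nat.cast_one, Set.encard_le_one_iff]
    rintro o o' ⟨-, ⟨y, hy, hyd⟩, h2⟩ ⟨-, -, h3⟩
    rw [← (h2 y hy hyd).2, ← (h3 y hy hyd).2]

/-- stabilisers of vertices are finite -/
private theorem ni_stab {N : ℕ} (hN : BF G H N) (y : Vtx H) : (MulAction.stabilizer G y : Set G).Finite := by
  have h1 : ((MulAction.stabilizer G y : Subgroup G) : Set G).encard ≤ N := by
    apply hN
    refine ⟨ds bs y + ds y bs, fun b hb => ?_⟩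
    have h2 : b • y = y := hb
    have h3 := ni_tri (bs : Vtx H) y (b • bs)
    have h4 : ds y (b • (bs : Vtx H)) = ds y bs := by
      nth_rewrite 1 [← h2]
      exact ni_smul b y bs
    rw [h4] at h3
    exact h3
  exact Set.finite_of_encard_le_coe h1

/-- the net data -/
private noncomputable def niN (Rb : G → Set X) (F : G → X → (Set (Vtx H) × Set H) × Vtx H) (n a ρ Λ Δ K2 : ℕ) :
    Pool.Agent.H59.CN.Nd G X (Vtx H) (Vtx H × Set (Vtx H) × Set H) where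
  Rb := Rb
  D g x := {y | y ∈ (F g x).1.1 ∧ ∀ γ ∈ Tb G (2 * n * (4 * a)) ρ (F g x).1 y, IsOfFinOrder γ}
  cf g x y := Cf (ρ + (2 * n + 2) * (4 * a)) (F g x).1 y
  v g x := (F g x).2
  d := ds
  Γ k := Subgroup.closure (Tb G (4 * a) (ρ + (2 * n + 1) * (4 * a)) k.2 k.1)
  a := a
  e := 2 * a
  Δ := Δ
  Λ := Λ
  M := K2

private theorem ni_good {n N : ℕ} (hN : BF G H N)
    {Rb : G → Set X} {F : G → X → (Set (Vtx H) × Set H) × Vtx H} (hF : Sys Rb F) {a ρ Λ Δ K2 : ℕ}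
    (hB : Bdd F (ρ + (2 * n + 2) * (4 * a)) Λ a Δ K2)
    (hc : ∀ (P : Set (Vtx H) × Set H), Rgn P → ∀ y ∈ P.1, (∀ γ ∈ Tb G (2 * n * (4 * a)) ρ P y, IsOfFinOrder γ) →
      ((Subgroup.closure (Tb G (4 * a) (ρ + (2 * n + 1) * (4 * a)) P y) : Subgroup G) : Set G).encard ≤ N) :
    (niN Rb F n a ρ Λ Δ K2).Good where
  isOpen g := by
    have h1 := hF.opn g (fun _ => True)
    have e : {x | x ∈ Rb g ∧ True} = Rb g := by
      ext x
      simp
    rw [e] at h1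
    exact h1
  smul_Rb := hF.rb
  smul_D g h x _ y hy := by
    obtain ⟨h1, h2⟩ := hy
    have e := hF.eqv g h x
    refine ⟨?_, ?_⟩
    · rw [e]
      exact Set.smul_mem_smul_set h1
    · intro γ hγ
      rw [e] at hγ
      have h3 : g * (g⁻¹ * γ * g) * g⁻¹ = γ := by group
      rw [← h3] at hγ
      have h4 := h2 _ ((Tb_smul g _ _ _ _ _).1 hγ)
      rw [← ni_fin_ord (g := g), h3] at h4
      exact h4
  smul_v g h x _ := by
    show (F (g * h) (g • x)).2 = g • (F h x).2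
    rw [hF.eqv]
    rfl
  smul_cf g h x _ y _ := by
    show Cf _ (F (g * h) (g • x)).1 (g • y) = g • Cf _ (F h x).1 y
    rw [hF.eqv]
    exact Cf_smul g _ _ y
  loc h x hx := by
    have h1 := (hF.opn h (fun q => q = F h x)).mem_nhds ⟨hx, rfl⟩
    filter_upwards [h1] with x' hx'
    have e : F h x' = F h x := hx'.2
    refine ⟨?_, ?_, ?_⟩
    · show {y | y ∈ (F h x').1.1 ∧ ∀ γ ∈ Tb G (2 * n * (4 * a)) ρ (F h x').1 y, IsOfFinOrder γ} = _
      rw [e]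
      rfl
    · show (F h x').2 = (F h x).2
      rw [e]
    · intro y _
      show Cf _ (F h x').1 y = Cf _ (F h x).1 y
      rw [e]
  smul_d := ni_smul
  self := ni_self
  comm := ni_comm
  tri := ni_tri
  smul_Γ g t k := ni_conj (fun γ => Tb_smul g _ _ k.2 k.1 γ) t
  fin h x _ y hy _ := by
    have h1 := hc (F h x).1 (hF.rgn h x) y hy.1 hy.2
    have h2 : Tb G (4 * a) (ρ + (2 * n + 1) * (4 * a)) (Cf (ρ + (2 * n + 2) * (4 * a)) (F h x).1 y).2 y =
        Tb G (4 * a) (ρ + (2 * n + 1) * (4 * a)) (F h x).1 y := by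
      apply Tb_cf hy.1
      · nlinarith
      · nlinarith
    show Finite (Subgroup.closure (Tb G (4 * a) (ρ + (2 * n + 1) * (4 * a)) (Cf (ρ + (2 * n + 2) * (4 * a)) (F h x).1 y).2 y))
    rw [h2]
    exact (Set.finite_of_encard_le_coe h1).to_subtype
  near h x _ y hy z hz hyv hzv t ht := by
    have h2 : Tb G (4 * a) (ρ + (2 * n + 1) * (4 * a)) (Cf (ρ + (2 * n + 2) * (4 * a)) (F h x).1 y).2 y =
        Tb G (4 * a) (ρ + (2 * n + 1) * (4 * a)) (F h x).1 y := by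
      apply Tb_cf hy.1
      · nlinarith
      · nlinarith
    apply Subgroup.subset_closure
    show t ∈ Tb G (4 * a) (ρ + (2 * n + 1) * (4 * a)) (Cf (ρ + (2 * n + 2) * (4 * a)) (F h x).1 y).2 y
    rw [h2]
    have h3 : z = t • y := congrArg Prod.fst ht
    have ht' : Cf (ρ + (2 * n + 2) * (4 * a)) (F h x).1 z = t • Cf (ρ + (2 * n + 2) * (4 * a)) (F h x).1 y := ht
    have hz1 : z ∈ (F h x).1.1 := hz.1
    subst h3
    refine ⟨hz1, ?_, ?_⟩
    · have h4 := ni_tri y (F h x).2 (t • y)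
      have h5 := ni_comm (F h x).2 (t • y)
      have h6 : ds y (F h x).2 ≤ 2 * a := hyv
      have h7 : ds (t • y) (F h x).2 ≤ 2 * a := hzv
      omega
    · rw [← Cf_smul] at ht' ⊢
      have e : ρ + (2 * n + 2) * (4 * a) = (ρ + (2 * n + 1) * (4 * a)) + 4 * a := by ring
      rw [e] at ht'
      refine Cf_move hz1 hz1 ?_ ht'
      rw [ni_self]
      exact Nat.zero_le _
  stab h x _ y _ _ := by
    have h1 := ni_stab hN y
    refine (h1.subset ?_).to_subtype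
    intro t ht
    have h2 : t • Cf (ρ + (2 * n + 2) * (4 * a)) (F h x).1 y = Cf (ρ + (2 * n + 2) * (4 * a)) (F h x).1 y := ht
    exact congrArg Prod.fst h2
  occ := by
    refine le_trans (Set.encard_le_encard ?_) hB.cnt
    rintro k ⟨x, _, y, hy, rfl⟩
    exact ⟨x, y, hy.1, rfl⟩
  deg h x _ y hy := by
    refine le_trans (Set.encard_le_encard ?_) (hB.deg h x y hy.1)
    rintro z ⟨h1, h2⟩
    exact ⟨h1.1, h2⟩
  pack h x _ Fs h1 h2 := by
    have h3 := hB.pack h x (F h x).2 (Fs : Set (Vtx H)) (fun z hz => (h1 z hz).1.1)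
      (fun z hz => by
        rw [ni_comm]
        exact (h1 z hz).2) (fun z hz z' hz' hne => h2 z hz z' hz' hne)
    rw [Set.encard_coe_eq_coe_finsetCard] at h3
    exact_mod_cast h3

/-- net: family; `a` = the scale of the net, `b = 4 a`, `b0` and `ρ` = the radii of the alternative -/
theorem net_fam {C : (G : Type) → [Group G] → Prop} (hC : Inherits C) {n N : ℕ} (hn : 0 < n) (hd : Dim H n) (hN : BF G H N)
    {Rb : G → Set X} {F : G → X → (Set (Vtx H) × Set H) × Vtx H} (hF : Sys Rb F) {a ρ Λ Δ K K2 : ℕ}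
    (hB : Bdd F (ρ + (2 * n + 2) * (4 * a)) Λ a Δ K2)
    (hK : (100 * (Δ + 1) ^ 2 * (Nat.log 2 (Nat.log 2 Λ + 2) + 1)) ^ 2 ≤ K)
    (hρ : 2 * n * (4 * a) ≤ ρ)
    (hc : ∀ (P : Set (Vtx H) × Set H), Rgn P → ∀ y ∈ P.1, (∀ γ ∈ Tb G (2 * n * (4 * a)) ρ P y, IsOfFinOrder γ) →
      ((Subgroup.closure (Tb G (4 * a) (ρ + (2 * n + 1) * (4 * a)) P y) : Subgroup G) : Set G).encard ≤ N) :
    ∃ (I : Type) (act : MulAction G I) (W : I → G → Set X), @IsFam C G X _ _ _ K2 I act W ∧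
      ∀ (S : Set G) (g : G) (x : X), (∀ s ∈ S, x ∈ Rb (g * s)) → ∀ y ∈ (F g x).1.1,
        (∀ γ ∈ Tb G (2 * n * (4 * a)) ρ (F g x).1 y, IsOfFinOrder γ) →
        (∀ s ∈ S, ds (F (g * s) x).2 y ≤ a ∧
          Cf ((K + 5) * a + ρ + (4 * n + 4) * (4 * a)) (F (g * s) x).1 y =
            Cf ((K + 5) * a + ρ + (4 * n + 4) * (4 * a)) (F g x).1 y) →
        ∃ i, ∀ s ∈ S, x ∈ W i (g * s) := by
  have hG := ni_good (n := n) hN hF hB hc
  refine ⟨Set (Vtx H × Set (Vtx H) × Set H), inferInstance, fun κ g => (niN Rb F n a ρ Λ Δ K2).W κ g,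
    Pool.Agent.H59.CN.Nd.isFam _ hC hG, ?_⟩
  intro S g x hx y hy hfo hS
  rcases S.eq_empty_or_nonempty with rfl | hne
  · exact ⟨∅, fun s hs => absurd hs (Set.notMem_empty s)⟩
  have hcol : Pool.Agent.H25.CN.col Δ Λ ≤ K := (ni_col Δ Λ).trans hK
  obtain ⟨T, hT⟩ : ∃ T, T = (K + 5) * a + ρ + (4 * n + 4) * (4 * a) := ⟨_, rfl⟩
  rw [← hT] at hS
  -- membership of points near `y`
  have hmem : ∀ s ∈ S, ∀ z, ds y z ≤ T → (z ∈ (F (g * s) x).1.1 ↔ z ∈ (F g x).1.1) := by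
    intro s hs z hz
    have h1 : {z ∈ (F (g * s) x).1.1 | ds y z ≤ T} = {z ∈ (F g x).1.1 | ds y z ≤ T} :=
      congrArg (fun q => q.2.1) (hS s hs).2
    have h2 : z ∈ {z ∈ (F (g * s) x).1.1 | ds y z ≤ T} ↔ z ∈ {z ∈ (F g x).1.1 | ds y z ≤ T} := by rw [h1]
    constructor
    · intro h3
      exact (h2.1 ⟨h3, hz⟩).1
    · intro h3
      exact (h2.2 ⟨h3, hz⟩).1
  have hyT : ds y y ≤ T := by
    rw [ni_self]
    exact Nat.zero_le _
  have hys : ∀ s ∈ S, y ∈ (F (g * s) x).1.1 := fun s hs => (hmem s hs y hyT).2 hy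
  -- the data near `y`
  have hcf : ∀ s ∈ S, ∀ z, z ∈ (F g x).1.1 → ds y z ≤ (K + 4) * a →
      Cf (ρ + (2 * n + 2) * (4 * a)) (F (g * s) x).1 z = Cf (ρ + (2 * n + 2) * (4 * a)) (F g x).1 z ∧
      Tb G (2 * n * (4 * a)) ρ (F (g * s) x).1 z = Tb G (2 * n * (4 * a)) ρ (F g x).1 z := by
    intro s hs z hz hd
    have hzT : ds y z ≤ T := by
      rw [hT]
      nlinarith
    have hzs := (hmem s hs z hzT).2 hz
    have h1 : Cf (ρ + (4 * n + 4) * (4 * a)) (F (g * s) x).1 z = Cf (ρ + (4 * n + 4) * (4 * a)) (F g x).1 z := by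
      refine Cf_move (t := (K + 5) * a) (hys s hs) hzs (hd.trans (by nlinarith)) ?_
      have e : ρ + (4 * n + 4) * (4 * a) + (K + 5) * a = T := by
        rw [hT]
        ring
      rw [e]
      exact (hS s hs).2
    have hzz : ∀ t, ds z z ≤ t := by
      intro t
      rw [ni_self]
      exact Nat.zero_le _
    constructor
    · refine Cf_move (t := (2 * n + 2) * (4 * a)) hzs hzs (hzz _) ?_
      have e : ρ + (2 * n + 2) * (4 * a) + (2 * n + 2) * (4 * a) = ρ + (4 * n + 4) * (4 * a) := by ring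
      rw [e]
      exact h1
    · refine Tb_congr hzs hρ ?_
      refine Cf_move (t := (2 * n + 4) * (4 * a)) hzs hzs (hzz _) ?_
      have e : ρ + 2 * n * (4 * a) + (2 * n + 4) * (4 * a) = ρ + (4 * n + 4) * (4 * a) := by ring
      rw [e]
      exact h1
  have hD : ∀ s ∈ S, ∀ z, ds y z ≤ (K + 4) * a →
      (z ∈ (niN Rb F n a ρ Λ Δ K2).D (g * s) x ↔ z ∈ (F g x).1.1 ∧ ∀ γ ∈ Tb G (2 * n * (4 * a)) ρ (F g x).1 z, IsOfFinOrder γ) := by
    intro s hs z hd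
    have hzT : ds y z ≤ T := by
      rw [hT]
      nlinarith
    show (z ∈ (F (g * s) x).1.1 ∧ ∀ γ ∈ Tb G (2 * n * (4 * a)) ρ (F (g * s) x).1 z, IsOfFinOrder γ) ↔ _
    rw [hmem s hs z hzT]
    constructor
    · rintro ⟨h1, h2⟩
      rw [(hcf s hs z h1 hd).2] at h2
      exact ⟨h1, h2⟩
    · rintro ⟨h1, h2⟩
      rw [← (hcf s hs z h1 hd).2] at h2
      exact ⟨h1, h2⟩
  have hyK : ds y y ≤ (K + 4) * a := by
    rw [ni_self]
    exact Nat.zero_le _
  refine Pool.Agent.H59.CN.Nd.wide _ hG hne hx (y0 := y) (fun s hs => (hD s hs y hyK).2 ⟨hy, hfo⟩) ?_ ?_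
  · intro s hs s' hs' z hz hzD
    have hd : ds y z ≤ (K + 4) * a := le_trans hz (Nat.mul_le_mul_right a (Nat.add_le_add_right hcol 4))
    have h1 := (hD s hs z hd).1 hzD
    refine ⟨(hD s' hs' z hd).2 h1, ?_⟩
    show Cf (ρ + (2 * n + 2) * (4 * a)) (F (g * s) x).1 z = Cf (ρ + (2 * n + 2) * (4 * a)) (F (g * s') x).1 z
    rw [(hcf s hs z h1.1 hd).1, (hcf s' hs' z h1.1 hd).1]
  · intro s hs
    show ds y (F (g * s) x).2 + a ≤ 2 * a
    have h1 := (hS s hs).1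
    rw [ni_comm] at h1
    omega

end

end Pool.Agent.H37.CC
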