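import Pool.Agent.H37.CC.Win
import Pool.Agent.H54.CV.V2

/-!
# THEOREM CCC, P1 - P3: distances, depth, Mirsky, packing (interface for the chapter GEOMETRY; helper54)
-/

set_option autoImplicit false

namespace Pool.Agent.H37.CC

open scoped Pointwise

section

variable {H : Type} [PartialOrder H] [Bas H]

theorem ds_self (y : Vtx H) : ds y y = 0 := by
  exact Pool.Agent.H54.CV.ds_self y

theorem ds_comm (y z : Vtx H) : ds y z = ds z y := by
  exact Pool.Agent.H54.CV.ds_comm y z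

theorem ds_triangle (x y z : Vtx H) : ds x z ≤ ds x y + ds y z := by
  exact Pool.Agent.H54.CV.ds_tri x y z

theorem eq_of_ds {y z : Vtx H} (h : ds y z = 0) : y = z := by
  exact Pool.Agent.H54.CV.eq_of_ds h

theorem dep_le (y z : Vtx H) (h : H) : dep y h ≤ dep z h + ds y z := by
  exact Pool.Agent.H54.CV.dep_le_add y z h

theorem dep_anti (y : Vtx H) {h k : H} (hk : h ≤ k) : dep y k ≤ dep y h := by
  exact Pool.Agent.H54.CV.dep_anti y hk

theorem dep_lt {y : Vtx H} {h k : H} (hh : h ∉ y.U) (hk : h < k) : dep y k + 1 ≤ dep y h := by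
  exact Pool.Agent.H54.CV.dep_lt hk hh

theorem dep_pos {y : Vtx H} {h : H} (hh : h ∉ y.U) : 0 < dep y h := by
  exact Pool.Agent.H54.CV.dep_pos hh

theorem dep_eq_zero {y : Vtx H} {h : H} (hh : h ∈ y.U) : dep y h = 0 := by
  exact Pool.Agent.H54.CV.dep_eq_zero.2 hh

/-- half-spaces between two vertices -/
theorem dep_btw {y z : Vtx H} {h : H} (hz : h ∈ z.U) : dep y h ≤ ds y z := by
  exact Pool.Agent.H54.CV.dep_le_ds hz

/-- finitely many half-spaces below `h` contain `y` -/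
theorem below_fin (y : Vtx H) (h : H) : {k | k ≤ h ∧ k ∈ y.U}.Finite := by
  refine ((dep_fin y (st h)).image st).subset ?_
  rintro k ⟨h1, h2⟩
  refine ⟨st k, ⟨st_le h1, ?_⟩, st_st k⟩
  rw [y.st_mem, not_not]
  exact h2

theorem exists_mem_vtx (h : H) : ∃ y : Vtx H, h ∈ y.U := by
  by_cases hh : h ∈ (Bas.o : Set H)
  · exact ⟨bs, hh⟩
  · obtain ⟨z, hz⟩ := Pool.Agent.H54.CV.exists_mv (bs : Vtx H) (U := {k | h ≤ k ∧ k ∉ (Bas.o : Set H)})
      (Bas.fin_up h) (fun k hk => hk.2) (fun k hk k' hle hk' => ⟨hk.1.trans hle, hk'⟩) (by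
        intro k hk k' hk' hle
        exact Poc.not_le h ((hk.1.trans hle).trans (st_le hk'.1)))
    have h1 : h ∈ z.U \ (bs : Vtx H).U := by
      rw [hz]
      exact ⟨le_rfl, hh⟩
    exact ⟨z, h1.1⟩

/-- half-spaces outside `v` which are neither comparable nor disjoint cross -/
theorem crs_out {v : Vtx H} {h k : H} (hh : h ∉ v.U) (hk : k ∉ v.U) (h1 : ¬ h ≤ k) (h2 : ¬ k ≤ h) (h3 : ¬ h ≤ st k) :
    Crs h k := by
  refine ⟨h1, h2, h3, fun h4 => hh (v.up (v.st_mem.2 hk) h4)⟩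

/-- Mirsky with levels: a strictly decreasing function with values in `(a, a + l]` -/
theorem mirsky_level {n : ℕ} (hd : Dim H n) {v : Vtx H} {A : Set H} (hA : ∀ h ∈ A, h ∉ v.U) (hnf : ∀ h ∈ A, ∀ k ∈ A, ¬ h ≤ st k)
    (f : H → ℕ) (hf : ∀ h ∈ A, ∀ k ∈ A, h < k → f k < f h) {a l : ℕ} (hlo : ∀ h ∈ A, a < f h) (hhi : ∀ h ∈ A, f h ≤ a + l) :
    A.Finite ∧ A.ncard ≤ n * l := by
  have h0 : A.encard ≤ ((n * l : ℕ) : ℕ∞) := by
    refine Pool.Agent.H54.CV.encard_le_of_finset fun F hF => ?_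
    have hF' : ∀ z ∈ F, z ∈ A := fun z hz => hF (Finset.mem_coe.2 hz)
    refine Pool.Agent.H54.CP.mirsky l F (Pool.Agent.H54.CV.nf_width hd ?_) ?_
    · intro h hh k hk
      exact ⟨hnf h (hF' h hh) k (hF' k hk), fun h4 =>
        hA k (hF' k hk) (v.up (v.st_mem.2 (hA h (hF' h hh))) h4)⟩
    · intro u hu hc
      have hinj : Set.InjOn f (u : Set H) := by
        intro x hx y hy hxy
        by_contra hne
        rcases hc.total hx hy with h | h
        · exact absurd (hf x (hF' x (hu hx)) y (hF' y (hu hy)) (lt_of_le_of_ne h hne)) (by omega)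
        · exact absurd (hf y (hF' y (hu hy)) x (hF' x (hu hx)) (lt_of_le_of_ne h (Ne.symm hne))) (by omega)
      have h1 : ∀ h ∈ u, f h ∈ Finset.Ioc a (a + l) := by
        intro h hh
        rw [Finset.mem_Ioc]
        exact ⟨hlo h (hF' h (hu hh)), hhi h (hF' h (hu hh))⟩
      have h2 := Finset.card_le_card_of_injOn f h1 hinj
      rw [Nat.card_Ioc] at h2
      omega
  have hfin : A.Finite := Set.finite_of_encard_le_coe h0
  refine ⟨hfin, ?_⟩
  rw [← hfin.cast_ncard_eq] at h0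
  exact_mod_cast h0

/-- Mirsky: no chain of length `l` -/
theorem mirsky_chain {n : ℕ} (hd : Dim H n) {v : Vtx H} {A : Set H} (hA : ∀ h ∈ A, h ∉ v.U) (hnf : ∀ h ∈ A, ∀ k ∈ A, ¬ h ≤ st k)
    (hfin : A.Finite) {l : ℕ} (hno : ¬ ∃ f : ℕ → H, (∀ t < l, f t ∈ A) ∧ ∀ t, t + 1 < l → f (t + 1) < f t) :
    A.ncard ≤ n * l := by
  rcases A.eq_empty_or_nonempty with h0 | ⟨x0, _⟩
  · rw [h0, Set.ncard_empty]
    exact Nat.zero_le _
  rw [Set.ncard_eq_toFinset_card _ hfin]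
  have hF' : ∀ z ∈ hfin.toFinset, z ∈ A := fun z hz => (Set.Finite.mem_toFinset _).1 hz
  refine Pool.Agent.H54.CP.mirsky l _ (Pool.Agent.H54.CV.nf_width hd ?_) ?_
  · intro h hh k hk
    exact ⟨hnf h (hF' h hh) k (hF' k hk), fun h4 =>
      hA k (hF' k hk) (v.up (v.st_mem.2 (hA h (hF' h hh))) h4)⟩
  · intro u hu hc
    by_contra hcon
    obtain ⟨f, hf1, hf2⟩ := Pool.Agent.H54.CV.exists_seq x0 l u hc (by omega)
    exact hno ⟨f, fun t ht => hF' _ (hu (hf1 t ht)), hf2⟩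

/-- the positions of a window are a region -/
theorem rgn_pos {v : Vtx H} {U : Set H} (hW : Win v U) : Rgn (Pos v U, U) where
  fin1 := Pool.Agent.H54.CV.fin_pos v hW.fin
  fin2 := hW.fin
  nf := fun h hh k hk => ⟨hW.nf h hh k hk, fun h4 => hW.out k hk (v.up (v.st_mem.2 (hW.out h hh)) h4)⟩
  sep := by
    intro y hy z hz h h1 h2
    by_cases h3 : h ∈ v.U
    · refine Or.inr (hz ⟨z.st_mem.2 h2, ?_⟩)
      rw [v.st_mem, not_not]
      exact h3
    · exact Or.inl (hy ⟨h1, h3⟩)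
  up := by
    rintro h hh k hk ⟨y, hy, hky⟩
    refine hW.up h hh k hk fun h3 => ?_
    have h4 : st k ∈ U := hy ⟨y.st_mem.2 hky, by rw [v.st_mem, not_not]; exact h3⟩
    refine hW.nf h hh (st k) h4 ?_
    rw [st_st]
    exact hk

/-- the number of positions in a ball -/
theorem pos_count {n : ℕ} (hd : Dim H n) {v : Vtx H} {U : Set H} (hW : Win v U) {y : Vtx H} (hy : y ∈ Pos v U) (t : ℕ) :
    {z | z ∈ Pos v U ∧ ds y z ≤ t}.encard ≤ ((2 * t + 1) ^ n : ℕ) := by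
  exact Pool.Agent.H54.CV.count_rgn hd (rgn_pos hW) hy t

/-- packing -/
theorem pos_pack {n : ℕ} (hd : Dim H n) {v : Vtx H} {U : Set H} (hW : Win v U) {y : Vtx H} (hy : y ∈ Pos v U) {a : ℕ}
    {Z : Set (Vtx H)} (hZ : Z ⊆ Pos v U) (h4 : ∀ z ∈ Z, ds y z ≤ 4 * a) (hp : ∀ z ∈ Z, ∀ z' ∈ Z, z ≠ z' → a < ds z z') :
    Z.encard ≤ ((8 * n + 9) ^ n : ℕ) := by
  refine (Pool.Agent.H54.CV.pack_rgn' hd (rgn_pos hW) hy Z hZ h4 hp).trans ?_
  exact_mod_cast Nat.pow_le_pow_left (by omega) n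

end

section

variable {G H : Type} [Group G] [PartialOrder H] [Bas H] [MulAction G H] [BAct G H]

theorem ds_smul (g : G) (y z : Vtx H) : ds (g • y) (g • z) = ds y z := by
  exact Pool.Agent.H54.CV.ds_smul g y z

theorem dep_smul (g : G) (y : Vtx H) (h : H) : dep (g • y) (g • h) = dep y h := by
  exact Pool.Agent.H54.CV.dep_smul g y h

end

end Pool.Agent.H37.CC
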