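import Pool.Agent.H37.CC.WinA

/-!
# THEOREM CCC, G2: gaps, saturated positions

`exists_gap`: the available half-spaces are pairwise crossing (distinct maximal elements of `U` outside `y`, no disjoint pairs, both
outside `v`): at most `n`. If `ι` is not a gap choose `h ι` available with `Lg (ρ ι)` and not `Lg (ρ (ι + 1))`; `ι ↦ h ι` is injective
(`Lg` is monotone).

`exists_sat`: `w = vq v U c`; `S = {h ∈ U outside w : dep w h ≤ m, every available k ≥ h is not Lg ρ}`. A chain in `S` can be continued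
by an available `k` above it (`U` is finite), so it has fewer than `ρ` elements: `S` has at most `n * ρ` elements (Mirsky). `S` together
with `w.U \ v.U` is closed upwards in `U`: position `y` (`pos_ex`), `y.U \ w.U = S`, `ds w y = S.ncard`. `Sat`: let `h` be available at `y`.
If it is available at `w`: it is not in `S`, so it is `Lg ρ` (the only available `k ≥ h` is `h`; `dep w h = 1 ≤ m` by `win_above`), so
`Lg ρ'` by the gap; its chain is not in `S` (`h` is available and long), and `dep y ≤ dep w` on `U` (a `k ≥ h'` with `k ∉ y`, `k ∈ w`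
would give `st k ∈ S`, `h' ≤ st (st k)`). If it is not available at `w`: some `k > h`, `k ∈ U` outside `w`; all of these are in `y`, so in
`S`, `dep w h ≤ S.ncard + 1 ≤ m` (`win_above`); every available `k ≥ h` is one of them, so not `Lg ρ`; so `h ∈ S`, contradiction.
-/

set_option autoImplicit false

namespace Pool.Agent.H37.CC

open scoped Pointwise

variable {H : Type} [PartialOrder H] [Bas H]

theorem sat_lg_anti {U : Set H} {y : Vtx H} {m ρ ρ' : ℕ} {h : H} (hρ : ρ ≤ ρ') (hl : Lg U y m ρ' h) : Lg U y m ρ h := by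
  obtain ⟨f, h0, h1, h2⟩ := hl
  exact ⟨f, h0, fun t ht => h1 t (lt_of_lt_of_le ht hρ), fun t ht => h2 t (lt_of_lt_of_le ht hρ)⟩

theorem sat_av_crs {v : Vtx H} {U : Set H} (hW : Win v U) {y : Vtx H} {h k : H} (hh : Av U y h) (hk : Av U y k)
    (hne : h ≠ k) : Crs h k := by
  refine crs_out (hW.out h hh.1) (hW.out k hk.1) ?_ ?_ (hW.nf h hh.1 k hk.1)
  · intro e
    exact hk.2.1 (hh.2.2 k hk.1 (lt_of_le_of_ne e hne))
  · intro e
    exact hh.2.1 (hk.2.2 h hh.1 (lt_of_le_of_ne e (Ne.symm hne)))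

/-- above every half-space outside `y` there is an available one -/
theorem sat_av_ex {U : Set H} (hU : U.Finite) (y : Vtx H) {h : H} (hh : h ∈ U) (hy : h ∉ y.U) :
    ∃ k, Av U y k ∧ h ≤ k := by
  have hfin : {k | k ∈ U ∧ k ∉ y.U ∧ h ≤ k}.Finite := hU.subset fun k hk => hk.1
  obtain ⟨k, hk1, hk2⟩ := hfin.exists_maximalFor id _ ⟨h, hh, hy, le_refl h⟩
  refine ⟨k, ⟨hk1.1, hk1.2.1, ?_⟩, hk1.2.2⟩
  intro k' hk' hlt
  by_contra hcon
  have h1 : id k' ≤ id k := hk2 ⟨hk', hcon, hk1.2.2.trans hlt.le⟩ hlt.le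
  exact absurd (lt_of_lt_of_le hlt h1) (lt_irrefl _)

omit [Bas H] in
/-- a chain is decreasing -/
theorem sat_chain {f : ℕ → H} {ρ : ℕ} (hf : ∀ t, t + 1 < ρ → f (t + 1) < f t) : ∀ t < ρ, f t ≤ f 0 := by
  intro t
  induction t with
  | zero => intro _; exact le_refl _
  | succ t ih =>
    intro ht
    exact (hf t ht).le.trans (ih (by omega))

theorem exists_gap {n : ℕ} (hd : Dim H n) {v : Vtx H} {U : Set H} (hW : Win v U) (y : Vtx H) (m : ℕ) {ρ : ℕ → ℕ}
    (hρ : Monotone ρ) : ∃ ι ≤ n, Gap U y m (ρ ι) (ρ (ι + 1)) := by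
  classical
  by_contra hcon
  have h1 : ∀ ι : ℕ, ∃ h : H, ι ≤ n → Av U y h ∧ Lg U y m (ρ ι) h ∧ ¬ Lg U y m (ρ (ι + 1)) h := by
    intro ι
    by_cases hι : ι ≤ n
    · have h2 : ¬ Gap U y m (ρ ι) (ρ (ι + 1)) := fun hg => hcon ⟨ι, hι, hg⟩
      unfold Gap at h2
      push Not at h2
      obtain ⟨h, h3, h4, h5⟩ := h2
      exact ⟨h, fun _ => ⟨h3, h4, h5⟩⟩
    · have h2 : ¬ Gap U y m (ρ 0) (ρ (0 + 1)) := fun hg => hcon ⟨0, Nat.zero_le _, hg⟩
      unfold Gap at h2
      push Not at h2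
      obtain ⟨h, _⟩ := h2
      exact ⟨h, fun h3 => absurd h3 hι⟩
  choose h hh using h1
  have hlt : ∀ ι ≤ n, ∀ κ ≤ n, ι < κ → h ι ≠ h κ := by
    intro ι hι κ hκ hlt e
    have h2 := (hh κ hκ).2.1
    rw [← e] at h2
    exact (hh ι hι).2.2 (sat_lg_anti (hρ hlt) h2)
  have hinj : Set.InjOn h (Finset.range (n + 1) : Set ℕ) := by
    intro ι hι κ hκ e
    have hι' : ι ≤ n := Nat.lt_succ_iff.1 (Finset.mem_range.1 (Finset.mem_coe.1 hι))
    have hκ' : κ ≤ n := Nat.lt_succ_iff.1 (Finset.mem_range.1 (Finset.mem_coe.1 hκ))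
    rcases lt_trichotomy ι κ with h2 | h2 | h2
    · exact absurd e (hlt ι hι' κ hκ' h2)
    · exact h2
    · exact absurd e.symm (hlt κ hκ' ι hι' h2)
  have hcard : ((Finset.range (n + 1)).image h).card = n + 1 := by
    rw [Finset.card_image_of_injOn hinj, Finset.card_range]
  have hle := hd ((Finset.range (n + 1)).image h) (by
    intro a ha b hb hab
    obtain ⟨ι, hι, rfl⟩ := Finset.mem_image.1 ha
    obtain ⟨κ, hκ, rfl⟩ := Finset.mem_image.1 hb
    exact sat_av_crs hW (hh ι (Nat.lt_succ_iff.1 (Finset.mem_range.1 hι))).1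
      (hh κ (Nat.lt_succ_iff.1 (Finset.mem_range.1 hκ))).1 hab)
  omega

theorem exists_sat {n : ℕ} (hd : Dim H n) {v : Vtx H} {U : Set H} (hW : Win v U) {c m ρ ρ' : ℕ} (hm : n * ρ + 1 ≤ m)
    (hg : Gap U (vq v U c) m ρ ρ') :
    ∃ y ∈ Pos v U, Sat U m ρ' y ∧ (∀ h ∈ U, dep v h ≤ c → h ∈ y.U) ∧ ds (vq v U c) y ≤ n * ρ := by
  classical
  have hspec := vq_spec hW c
  set w : Vtx H := vq v U c with hw
  have hwpos : w ∈ Pos v U := by
    show w.U \ v.U ⊆ U
    rw [hspec]
    exact fun k hk => hk.1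
  set S : Set H := {h | h ∈ U ∧ h ∉ w.U ∧ dep w h ≤ m ∧ ∀ k, Av U w k → h ≤ k → ¬ Lg U w m ρ k} with hS
  have hSup : ∀ h ∈ S, ∀ k ∈ U, h ≤ k → k ∉ w.U → k ∈ S := by
    rintro h ⟨h1, h2, h3, h4⟩ k hk hhk hkw
    exact ⟨hk, hkw, (dep_anti w hhk).trans h3, fun k' h5 h6 => h4 k' h5 (hhk.trans h6)⟩
  have hSfin : S.Finite := hW.fin.subset fun h hh => hh.1
  have hScard : S.ncard ≤ n * ρ := by
    rcases Nat.eq_zero_or_pos ρ with h0 | hpos
    · have hSe : S = ∅ := by
        rw [Set.eq_empty_iff_forall_notMem]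
        rintro h ⟨h1, h2, h3, h4⟩
        obtain ⟨k, hk1, hk2⟩ := sat_av_ex hW.fin w h1 h2
        refine h4 k hk1 hk2 ?_
        rw [h0]
        exact ⟨fun _ => k, rfl, fun t ht => absurd ht (Nat.not_lt_zero t), fun t ht => absurd ht (Nat.not_lt_zero _)⟩
      rw [hSe, Set.ncard_empty]
      exact Nat.zero_le _
    · refine mirsky_chain hd (v := v) (fun h hh => hW.out h hh.1) (fun h hh k hk => hW.nf h hh.1 k hk.1) hSfin ?_
      rintro ⟨f, hf1, hf2⟩
      obtain ⟨k, hk1, hk2⟩ := sat_av_ex hW.fin w (hf1 0 hpos).1 (hf1 0 hpos).2.1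
      refine (hf1 0 hpos).2.2.2 k hk1 hk2 ⟨fun t => if t = 0 then k else f t, by simp, ?_, ?_⟩
      · intro t ht
        by_cases ht0 : t = 0
        · simp only [ht0, if_true]
          exact ⟨hk1.1, hk1.2.1, (dep_anti w hk2).trans (hf1 0 hpos).2.2.1⟩
        · simp only [ht0, if_false]
          exact ⟨(hf1 t ht).1, (hf1 t ht).2.1, (hf1 t ht).2.2.1⟩
      · intro t ht
        by_cases ht0 : t = 0
        · subst ht0
          simp only [Nat.zero_add, one_ne_zero, if_false, if_true]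
          exact lt_of_lt_of_le (hf2 0 ht) hk2
        · simp only [ht0, if_false, Nat.succ_ne_zero]
          exact hf2 t ht
  obtain ⟨y, hy⟩ := pos_ex hW (A := (w.U \ v.U) ∪ S)
    (by
      rintro h (hh | hh)
      · exact hwpos hh
      · exact hh.1)
    (by
      rintro h (hh | hh) k hk hhk
      · exact Or.inl ⟨w.up hh.1 hhk, hW.out k hk⟩
      · by_cases hkw : k ∈ w.U
        · exact Or.inl ⟨hkw, hW.out k hk⟩
        · exact Or.inr (hSup h hh k hk hhk hkw))
  have hypos : y ∈ Pos v U := by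
    show y.U \ v.U ⊆ U
    rw [hy]
    rintro h (hh | hh)
    · exact hwpos hh
    · exact hh.1
  have hwy : ∀ h, h ∈ w.U → h ∉ v.U → h ∈ y.U := by
    intro h h1 h2
    have h3 : h ∈ y.U \ v.U := by
      rw [hy]
      exact Or.inl ⟨h1, h2⟩
    exact h3.1
  have hSy : ∀ h ∈ S, h ∈ y.U := by
    intro h h1
    have h3 : h ∈ y.U \ v.U := by
      rw [hy]
      exact Or.inr h1
    exact h3.1
  have hyS : ∀ h, h ∈ y.U → h ∉ w.U → h ∈ S := by
    intro h h1 h2
    by_cases h3 : h ∈ v.U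
    · exfalso
      have h4 : st h ∈ w.U := w.st_mem.2 h2
      have h5 : st h ∉ v.U := by
        rw [v.st_mem, not_not]
        exact h3
      have h6 := hwy _ h4 h5
      rw [y.st_mem] at h6
      exact h6 h1
    · have h4 : h ∈ y.U \ v.U := ⟨h1, h3⟩
      rw [hy] at h4
      rcases h4 with h5 | h5
      · exact absurd h5.1 h2
      · exact h5
  have hdiff : y.U \ w.U = S := by
    ext h
    constructor
    · rintro ⟨h1, h2⟩
      exact hyS h h1 h2
    · intro h1
      exact ⟨hSy h h1, h1.2.1⟩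
  refine ⟨y, hypos, ?_, ?_, ?_⟩
  · intro h hav
    obtain ⟨hU, hny, hmax⟩ := hav
    have hnw : h ∉ w.U := fun h1 => hny (hwy h h1 (hW.out h hU))
    have hnS : h ∉ S := fun h1 => hny (hSy h h1)
    by_cases havw : Av U w h
    · have hdep : dep w h ≤ m := by
        have h1 : {k | h ≤ k ∧ k ∉ w.U} ⊆ {h} := by
          rintro k ⟨h2, h3⟩
          have h4 := win_above hW hwpos hU h2 h3
          by_contra h5
          exact h3 (havw.2.2 k h4 (lt_of_le_of_ne h2 (Ne.symm h5)))
        have h2 : dep w h ≤ 1 := by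
          show ({k | h ≤ k ∧ k ∉ w.U} : Set H).ncard ≤ 1
          calc ({k | h ≤ k ∧ k ∉ w.U} : Set H).ncard ≤ ({h} : Set H).ncard :=
                Set.ncard_le_ncard h1 (Set.finite_singleton h)
            _ = 1 := Set.ncard_singleton h
        omega
      have hlong : Lg U w m ρ h := by
        by_contra hnl
        refine hnS ⟨hU, hnw, hdep, ?_⟩
        intro k hk hhk
        by_cases e : h = k
        · rw [← e]
          exact hnl
        · exact absurd (havw.2.2 k hk.1 (lt_of_le_of_ne hhk e)) hk.2.1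
      obtain ⟨f, hf0, hf1, hf2⟩ := hg h havw hlong
      refine ⟨f, hf0, ?_, hf2⟩
      intro t ht
      obtain ⟨h1, h2, h3⟩ := hf1 t ht
      refine ⟨h1, ?_, ?_⟩
      · intro h4
        have h5 := hyS _ h4 h2
        have h6 : f t ≤ h := by
          rw [← hf0]
          exact sat_chain hf2 t ht
        exact h5.2.2.2 h havw h6 hlong
      · refine le_trans ?_ h3
        refine Set.ncard_le_ncard ?_ (dep_fin w (f t))
        rintro k ⟨h4, h5⟩
        refine ⟨h4, fun h6 => ?_⟩
        have h7 : st k ∈ y.U := y.st_mem.2 h5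
        have h8 : st k ∉ w.U := by
          rw [w.st_mem, not_not]
          exact h6
        have h9 := hyS _ h7 h8
        refine hW.nf (f t) h1 (st k) h9.1 ?_
        rw [st_st]
        exact h4
    · exfalso
      have hall : ∀ k, h ≤ k → k ∉ w.U → k = h ∨ k ∈ S := by
        intro k h2 h3
        have h4 := win_above hW hwpos hU h2 h3
        by_cases e : h = k
        · exact Or.inl e.symm
        · exact Or.inr (hyS k (hmax k h4 (lt_of_le_of_ne h2 e)) h3)
      refine hnS ⟨hU, hnw, ?_, ?_⟩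
      · have h1 : {k | h ≤ k ∧ k ∉ w.U} ⊆ insert h S := by
          rintro k ⟨h2, h3⟩
          rcases hall k h2 h3 with h4 | h4
          · exact Or.inl h4
          · exact Or.inr h4
        have h2 : dep w h ≤ S.ncard + 1 := by
          show ({k | h ≤ k ∧ k ∉ w.U} : Set H).ncard ≤ S.ncard + 1
          exact (Set.ncard_le_ncard h1 (hSfin.insert h)).trans (Set.ncard_insert_le h S)
        omega
      · intro k hk hhk
        rcases hall k hhk hk.2.1 with h4 | h4
        · rw [h4] at hk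
          exact absurd hk havw
        · exact h4.2.2.2 k hk (le_refl k)
  · intro h hU hdep
    have h1 : h ∈ w.U \ v.U := by
      rw [hspec]
      exact ⟨hU, hdep⟩
    exact hwy h h1.1 h1.2
  · show (y.U \ w.U).ncard ≤ n * ρ
    rw [hdiff]
    exact hScard

end Pool.Agent.H37.CC
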