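import Pool.Agent.H37.CC.Defs

/-!
# THEOREM CCC, chapter GEOMETRY: windows, positions, saturated positions, regions

`Win v U`: a window `U`: a finite set of half-spaces which do not contain the vertex `v`, closed upwards among those, without disjoint
pairs. `Pos v U`: the positions, the vertices `y` such that all half-spaces with `y` inside and `v` outside are in `U`. `vq v U c`: the
position which is contained in the half-spaces of `U` of depth at most `c`. `Av U y h`: `h` is a maximal element of `U` outside `y`.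
`Lg U y m ρ h`: below `h` there is a chain of length `ρ` in `U` outside `y`, of depth at most `m` as seen from `y`. `Sat`: all available
half-spaces have long chains. `Gap`: no available half-space has length in `[ρ, ρ')`. `Good`: the saturated positions near `vq` which are
in the half-spaces of depth `≤ l - 2 R` are in those of depth `≤ l + 2 R`. `Reg`: the region. `Cmp`: two windows with near base points
which agree up to depth `D`.
-/

set_option autoImplicit false

namespace Pool.Agent.H37.CC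

open scoped Pointwise

section

variable {H : Type} [PartialOrder H] [Bas H]

/-- windows -/
structure Win (v : Vtx H) (U : Set H) : Prop where
  fin : U.Finite
  out : ∀ h ∈ U, h ∉ v.U
  up : ∀ h ∈ U, ∀ k, h ≤ k → k ∉ v.U → k ∈ U
  nf : ∀ h ∈ U, ∀ k ∈ U, ¬ h ≤ st k

/-- positions -/
def Pos (v : Vtx H) (U : Set H) : Set (Vtx H) := {y | y.U \ v.U ⊆ U}

open Classical in
/-- the centre: the position which is contained in the half-spaces of depth at most `c` -/
noncomputable def vq (v : Vtx H) (U : Set H) (c : ℕ) : Vtx H :=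
  if h : ∃ y : Vtx H, y.U \ v.U = {k ∈ U | dep v k ≤ c} then h.choose else v

/-- available half-spaces -/
def Av (U : Set H) (y : Vtx H) (h : H) : Prop := h ∈ U ∧ h ∉ y.U ∧ ∀ k ∈ U, h < k → k ∈ y.U

/-- long half-spaces -/
def Lg (U : Set H) (y : Vtx H) (m ρ : ℕ) (h : H) : Prop :=
  ∃ f : ℕ → H, f 0 = h ∧ (∀ t < ρ, f t ∈ U ∧ f t ∉ y.U ∧ dep y (f t) ≤ m) ∧ ∀ t, t + 1 < ρ → f (t + 1) < f t

/-- saturated vertices -/
def Sat (U : Set H) (m ρ : ℕ) (y : Vtx H) : Prop := ∀ h, Av U y h → Lg U y m ρ h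

/-- gaps -/
def Gap (U : Set H) (y : Vtx H) (m ρ ρ' : ℕ) : Prop := ∀ h, Av U y h → Lg U y m ρ h → Lg U y m ρ' h

/-- good centres -/
def Good (v : Vtx H) (U : Set H) (m ρ c l R r : ℕ) : Prop :=
  ∀ y ∈ Pos v U, Sat U m ρ y → (∀ h ∈ U, dep v h + 2 * R ≤ l → h ∈ y.U) → ds (vq v U c) y ≤ r →
    ∀ h ∈ U, dep v h ≤ l + 2 * R → h ∈ y.U

/-- the region -/
def Reg (v : Vtx H) (U : Set H) (m ρ c l r : ℕ) : Set (Vtx H) :=
  {y | y ∈ Pos v U ∧ Sat U m ρ y ∧ (∀ h ∈ U, dep v h ≤ l → h ∈ y.U) ∧ ds (vq v U c) y ≤ r}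

/-- two windows which agree up to depth `D` -/
structure Cmp (R D : ℕ) (v : Vtx H) (U : Set H) (v' : Vtx H) (U' : Set H) : Prop where
  near : ds v v' ≤ R
  agr : ∀ h, h ∉ v.U → h ∉ v'.U → dep v h ≤ D → (h ∈ U ↔ h ∈ U')
  btw : ∀ h, h ∉ v.U → h ∈ v'.U → h ∈ U ∨ st h ∈ U'
  btw' : ∀ h, h ∈ v.U → h ∉ v'.U → h ∈ U' ∨ st h ∈ U
  not : ∀ h ∈ U, st h ∉ U'

end

end Pool.Agent.H37.CC
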